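import Pool.Agent.H98.FJ.P.Ext0

/-!
# Virtually cyclic groups
-/

set_option autoImplicit false

namespace Pool.Agent.H54.GC

open Pool.Agent.H98.FJ

theorem vc_of_injective {G H : Type} [Group G] [Group H] (φ : H →* G) (hφ : Function.Injective φ) (hG : VirtuallyCyclic G) :
    VirtuallyCyclic H := by
  obtain ⟨v, hv⟩ := hG
  set Z : Subgroup H := (Subgroup.zpowers v).comap φ with hZ
  have hfi : Z.FiniteIndex := by
    refine ⟨?_⟩
    rw [hZ, Subgroup.index_comap]
    intro h0
    exact hv.index_ne_zero (by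
      rw [← Subgroup.relIndex_top_right]
      exact Subgroup.relIndex_eq_zero_of_le_right le_top h0)
  have hcyc : IsCyclic Z := by
    let ψ : Z →* Subgroup.zpowers v := (φ.comp Z.subtype).codRestrict (Subgroup.zpowers v) (fun z => z.2)
    refine isCyclic_of_injective ψ ?_
    intro a b hab
    have h1 : φ a = φ b := congrArg Subtype.val hab
    exact Subtype.ext (hφ h1)
  obtain ⟨w, hw⟩ := hcyc.exists_generator
  refine ⟨(w : H), ?_⟩
  have e : Subgroup.zpowers (w : H) = Z := by
    ext z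
    rw [Subgroup.mem_zpowers_iff]
    constructor
    · rintro ⟨k, rfl⟩
      exact Subgroup.zpow_mem _ w.2 k
    · intro hz
      obtain ⟨k, hk⟩ := Subgroup.mem_zpowers_iff.1 (hw ⟨z, hz⟩)
      exact ⟨k, congrArg Subtype.val hk⟩
  rw [e]
  exact hfi

section

variable {G : Type} [Group G]

theorem index_zpowers_zpow (c : G) {n : ℤ} (hn : n ≠ 0) : (Subgroup.zpowers (c ^ n)).relIndex (Subgroup.zpowers c) ≠ 0 := by
  set f : Multiplicative ℤ →* G := zpowersHom G c with hf
  have e1 : Subgroup.zpowers (c ^ n) = (Subgroup.zpowers (Multiplicative.ofAdd n)).map f := by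
    rw [MonoidHom.map_zpowers, hf, zpowersHom_apply]
    rfl
  have e2 : Subgroup.zpowers c = (⊤ : Subgroup (Multiplicative ℤ)).map f := by
    ext z
    rw [Subgroup.mem_zpowers_iff, Subgroup.mem_map]
    constructor
    · rintro ⟨k, rfl⟩
      exact ⟨Multiplicative.ofAdd k, Subgroup.mem_top _, rfl⟩
    · rintro ⟨k, -, rfl⟩
      exact ⟨Multiplicative.toAdd k, rfl⟩
  rw [e1, e2, Subgroup.relIndex_map_map]
  intro h0
  have h1 : (Subgroup.zpowers (Multiplicative.ofAdd n)).relIndex (⊤ ⊔ f.ker) = 0 :=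
    Subgroup.relIndex_eq_zero_of_le_left le_sup_left h0
  rw [top_sup_eq, Subgroup.relIndex_top_right] at h1
  have h2 : (AddSubgroup.zmultiples n).index = 0 := h1
  rw [Int.index_zmultiples] at h2
  exact hn (Int.natAbs_eq_zero.1 h2)

theorem vc_gen (D : Subgroup G) (hD : VirtuallyCyclic D) : ∃ v ∈ D, (Subgroup.zpowers v).relIndex D ≠ 0 := by
  obtain ⟨v, hv⟩ := hD
  refine ⟨v, v.2, ?_⟩
  have e : (Subgroup.zpowers (v : G)).subgroupOf D = Subgroup.zpowers v := by
    ext z
    rw [Subgroup.mem_subgroupOf, Subgroup.mem_zpowers_iff, Subgroup.mem_zpowers_iff]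
    constructor
    · rintro ⟨k, hk⟩
      exact ⟨k, Subtype.ext hk⟩
    · rintro ⟨k, rfl⟩
      exact ⟨k, rfl⟩
  show ((Subgroup.zpowers (v : G)).subgroupOf D).index ≠ 0
  rw [e]
  exact hv.index_ne_zero

theorem vc_zpowers (D : Subgroup G) (hD : VirtuallyCyclic D) {c : G} (hc : c ∈ D) (h : ¬ IsOfFinOrder c) :
    (Subgroup.zpowers c).relIndex D ≠ 0 := by
  obtain ⟨v, hv, hvD⟩ := vc_gen D hD
  obtain ⟨k, hk, -, hk2⟩ := Subgroup.exists_pow_mem_of_relIndex_ne_zero hvD hc
  obtain ⟨j, hj⟩ := Subgroup.mem_zpowers_iff.1 hk2.1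
  have hj0 : j ≠ 0 := by
    rintro rfl
    rw [zpow_zero] at hj
    exact h (isOfFinOrder_iff_pow_eq_one.2 ⟨k, hk, hj.symm⟩)
  have h1 := Subgroup.relIndex_ne_zero_trans (index_zpowers_zpow v hj0) hvD
  rw [hj] at h1
  intro h0
  exact h1 (Subgroup.relIndex_eq_zero_of_le_left (Subgroup.zpowers_le.2 (Subgroup.npow_mem_zpowers c k)) h0)

theorem inf_trivial_card {v : G} {B : Subgroup G} (h : ∀ j : ℤ, v ^ j ∈ B → v ^ j = 1) :
    (Subgroup.zpowers v).relIndex B = Nat.card B := by
  have e : Subgroup.zpowers v ⊓ B = ⊥ := by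
    rw [eq_bot_iff]
    rintro z ⟨hz, hzB⟩
    obtain ⟨j, rfl⟩ := Subgroup.mem_zpowers_iff.1 hz
    exact Subgroup.mem_bot.2 (h j hzB)
  rw [← Subgroup.inf_relIndex_right, e, Subgroup.relIndex_bot_left]

theorem vc_bound (D : Subgroup G) (hD : VirtuallyCyclic D) :
    ∃ N : ℕ, ∀ B : Subgroup G, B ≤ D → (B : Set G).Finite → (B : Set G).encard ≤ N := by
  obtain ⟨v, hv, hvD⟩ := vc_gen D hD
  by_cases hf : IsOfFinOrder v
  · have hD : Finite D := by
      have h1 : (⊥ : Subgroup G).relIndex (Subgroup.zpowers v) ≠ 0 := by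
        rw [Subgroup.relIndex_bot_left]
        have : Finite (Subgroup.zpowers v) := finite_zpowers.2 hf
        exact Nat.card_pos.ne'
      have h2 := Subgroup.relIndex_ne_zero_trans h1 hvD
      rw [Subgroup.relIndex_bot_left] at h2
      exact Nat.finite_of_card_ne_zero h2
    refine ⟨Nat.card D, fun B hB _ => ?_⟩
    calc (B : Set G).encard ≤ (D : Set G).encard := Set.encard_le_encard hB
      _ = Nat.card D := by
        have hDf : (D : Set G).Finite := hD
        rw [← hDf.cast_ncard_eq]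
        rfl
  · refine ⟨(Subgroup.zpowers v).relIndex D, fun B hB hBf => ?_⟩
    have hBf' : Finite B := hBf
    have h1 : (Subgroup.zpowers v).relIndex B = Nat.card B := by
      refine inf_trivial_card fun j hj => ?_
      by_contra hne
      have h2 : IsOfFinOrder (v ^ j) := by
        have h3 : IsOfFinOrder (⟨v ^ j, hj⟩ : B) := isOfFinOrder_of_finite _
        exact Submonoid.isOfFinOrder_coe.2 h3
      have hj0 : j ≠ 0 := by
        rintro rfl
        exact hne (zpow_zero v)
      obtain ⟨k, hk, h4⟩ := isOfFinOrder_iff_pow_eq_one.1 h2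
      apply hf
      rw [isOfFinOrder_iff_zpow_eq_one]
      refine ⟨j * k, mul_ne_zero hj0 (by exact_mod_cast hk.ne'), ?_⟩
      rw [zpow_mul, zpow_natCast]
      exact h4
    have h2 : (Subgroup.zpowers v).relIndex B ≤ (Subgroup.zpowers v).relIndex D := Subgroup.relIndex_le_of_le_right hB hvD
    rw [h1] at h2
    rw [← hBf.cast_ncard_eq]
    exact_mod_cast h2

theorem vc_inf (D : Subgroup G) (hD : VirtuallyCyclic D) {B : Subgroup G} (hB : B ≤ D) (hi : (B : Set G).Infinite) :
    ∃ c ∈ B, ¬ IsOfFinOrder c := by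
  obtain ⟨v, hv, hvD⟩ := vc_gen D hD
  have hB0 : (Subgroup.zpowers v).relIndex B ≠ 0 := fun h0 => hvD (Subgroup.relIndex_eq_zero_of_le_right hB h0)
  by_contra hno
  push Not at hno
  by_cases hf : IsOfFinOrder v
  · have h1 : (⊥ : Subgroup G).relIndex (Subgroup.zpowers v) ≠ 0 := by
      rw [Subgroup.relIndex_bot_left]
      have : Finite (Subgroup.zpowers v) := finite_zpowers.2 hf
      exact Nat.card_pos.ne'
    have h2 := Subgroup.relIndex_ne_zero_trans h1 hB0
    rw [Subgroup.relIndex_bot_left] at h2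
    have : Finite B := Nat.finite_of_card_ne_zero h2
    exact hi this
  · have h1 : (Subgroup.zpowers v).relIndex B = Nat.card B := by
      refine inf_trivial_card fun j hj => ?_
      by_contra hne
      have hj0 : j ≠ 0 := by
        rintro rfl
        exact hne (zpow_zero v)
      obtain ⟨k, hk, h4⟩ := isOfFinOrder_iff_pow_eq_one.1 (hno _ hj)
      apply hf
      rw [isOfFinOrder_iff_zpow_eq_one]
      refine ⟨j * k, mul_ne_zero hj0 (by exact_mod_cast hk.ne'), ?_⟩
      rw [zpow_mul, zpow_natCast]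
      exact h4
    rw [h1] at hB0
    have : Finite B := Nat.finite_of_card_ne_zero hB0
    exact hi this

end

end Pool.Agent.H54.GC
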