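import Pool.Agent.H54.GC.Dl
import Pool.Agent.H54.GC.VC
import Mathlib.GroupTheory.Commensurable

/-!
# The local condition
-/

set_option autoImplicit false

namespace Pool.Agent.H54.GC

open Subgroup.Commensurable (commensurator)
open scoped Pointwise

/-- some homomorphism from the commensurator of the subgroup generated by `c` to the group of the affine transformations of the
rational line takes `c` to a nontrivial translation -/
def Shift (H : Type) [Group H] (c : H) : Prop :=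
  ∃ (f : ↥(commensurator (Subgroup.zpowers c)) →* (ℚ ≃ᵃ[ℚ] ℚ)) (t : ℚ), t ≠ 0 ∧
    ∀ g : ↥(commensurator (Subgroup.zpowers c)), (g : H) = c → ∀ q, f g q = q + t

theorem csb_pow {H : Type} [Group H] (c : H) {n : ℤ} (hn : n ≠ 0) :
    Subgroup.Commensurable (Subgroup.zpowers (c ^ n)) (Subgroup.zpowers c) := by
  refine ⟨index_zpowers_zpow c hn, ?_⟩
  rw [Subgroup.relIndex_eq_one.2 (Subgroup.zpowers_le.2 (Subgroup.zpow_mem_zpowers c n))]
  exact one_ne_zero

/-- the elementwise description of the commensurator -/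
theorem mem_comm {H : Type} [Group H] {c : H} (hc : ¬ IsOfFinOrder c) (g : H) :
    g ∈ commensurator (Subgroup.zpowers c) ↔ ∃ m n : ℤ, m ≠ 0 ∧ n ≠ 0 ∧ g * c ^ m * g⁻¹ = c ^ n := by
  rw [Subgroup.Commensurable.commensurator_mem_iff]
  have e : ConjAct.toConjAct g • Subgroup.zpowers c = Subgroup.zpowers (g * c * g⁻¹) := by
    ext z
    rw [Subgroup.mem_smul_pointwise_iff_exists, Subgroup.mem_zpowers_iff]
    constructor
    · rintro ⟨s, hs, rfl⟩
      obtain ⟨k, rfl⟩ := Subgroup.mem_zpowers_iff.1 hs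
      refine ⟨k, ?_⟩
      rw [conj_zpow, ConjAct.smul_def, ConjAct.ofConjAct_toConjAct]
    · rintro ⟨k, rfl⟩
      refine ⟨c ^ k, Subgroup.zpow_mem_zpowers c k, ?_⟩
      rw [conj_zpow, ConjAct.smul_def, ConjAct.ofConjAct_toConjAct]
  rw [e]
  constructor
  · rintro ⟨-, h⟩
    obtain ⟨k, hk, -, h1⟩ := Subgroup.exists_pow_mem_of_relIndex_ne_zero h (Subgroup.mem_zpowers (g * c * g⁻¹))
    obtain ⟨n, hn⟩ := Subgroup.mem_zpowers_iff.1 h1.1
    refine ⟨k, n, by exact_mod_cast hk.ne', ?_, ?_⟩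
    · rintro rfl
      rw [zpow_zero, conj_pow] at hn
      apply hc
      rw [isOfFinOrder_iff_pow_eq_one]
      refine ⟨k, hk, ?_⟩
      calc c ^ k = g⁻¹ * (g * c ^ k * g⁻¹) * g := by group
        _ = 1 := by rw [← hn]; group
    · rw [zpow_natCast, ← conj_pow, ← hn]
  · rintro ⟨m, n, hm, hn, h⟩
    have h1 : Subgroup.Commensurable (Subgroup.zpowers (c ^ n)) (Subgroup.zpowers (g * c * g⁻¹)) := by
      rw [← h, ← conj_zpow]
      exact csb_pow _ hm
    exact h1.symm.trans (csb_pow c hn)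

/-- subgroups -/
theorem Shift.of_injective {H H' : Type} [Group H] [Group H'] (φ : H →* H') (hφ : Function.Injective φ) {c : H}
    (hc : ¬ IsOfFinOrder c) (h : Shift H' (φ c)) : Shift H c := by
  obtain ⟨f, t, ht, hf⟩ := h
  have hc' : ¬ IsOfFinOrder (φ c) := fun h => hc ((isOfFinOrder_iff_pow_eq_one).2 (by
    obtain ⟨k, hk, h1⟩ := isOfFinOrder_iff_pow_eq_one.1 h
    exact ⟨k, hk, hφ (by rw [map_pow, h1, map_one])⟩))
  let ψ : ↥(commensurator (Subgroup.zpowers c)) →* ↥(commensurator (Subgroup.zpowers (φ c))) :=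
    { toFun := fun g => ⟨φ g, by
        obtain ⟨m, n, hm, hn, h1⟩ := (mem_comm hc (g : H)).1 g.2
        exact (mem_comm hc' _).2 ⟨m, n, hm, hn, by rw [← map_zpow, ← map_zpow, ← map_inv, ← map_mul, ← map_mul, h1]⟩⟩
      map_one' := Subtype.ext (map_one φ)
      map_mul' := fun a b => Subtype.ext (map_mul φ _ _) }
  refine ⟨f.comp ψ, t, ht, fun g hg q => ?_⟩
  exact hf (ψ g) (congrArg φ hg) q

/-- the affine maps of the rational line -/
theorem aff_apply (f : ℚ ≃ᵃ[ℚ] ℚ) (q : ℚ) : f q = f 0 + (f 1 - f 0) * q := by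
  have h1 : ∀ p : ℚ, f p = f.linear p + f 0 := by
    intro p
    have h2 := f.map_vadd 0 p
    simpa using h2
  have h3 : f.linear q = q * f.linear 1 := by
    have h4 := f.linear.map_smul q 1
    simpa using h4
  rw [h1 q, h1 1, h3]
  ring

theorem local_b {L V : Type} [Group L] [MulAction L V] {c : L} (hc : ¬ IsOfFinOrder c) (hcm : Cmd c) {Δ : L →* ℚˣ}
    (hΔ : Mdl c Δ) (x : V) {n : ℤ} (hn : n ≠ 0) (hx : c ^ n • x = x)
    (hS : Shift (MulAction.stabilizer L x) ⟨c ^ n, hx⟩) :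
    ∃ b : L → ℚ, (∀ g h : L, g • x = x → h • x = x → b (g * h) = b g + Δ g * b h) ∧
      ∀ k : ℤ, c ^ k • x = x → b (c ^ k) = k := by
  classical
  set c' : MulAction.stabilizer L x := ⟨c ^ n, hx⟩ with hc'
  obtain ⟨f, t, ht, hf⟩ := hS
  have hfin : ¬ IsOfFinOrder c' := by
    intro h
    obtain ⟨k, hk, h1⟩ := isOfFinOrder_iff_pow_eq_one.1 h
    apply hc
    rw [isOfFinOrder_iff_zpow_eq_one]
    refine ⟨n * k, mul_ne_zero hn (by exact_mod_cast hk.ne'), ?_⟩
    rw [zpow_mul, zpow_natCast]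
    exact congrArg Subtype.val h1
  have hmem : ∀ g : MulAction.stabilizer L x, g ∈ commensurator (Subgroup.zpowers c') := by
    intro g
    obtain ⟨m, l, hm, hl, hg⟩ := hcm (g : L)
    refine (mem_comm hfin g).2 ⟨m, l, hm, hl, Subtype.ext ?_⟩
    show (g : L) * (c ^ n) ^ m * (g : L)⁻¹ = (c ^ n) ^ l
    rw [← zpow_mul, ← zpow_mul, mul_comm n m, mul_comm n l]
    exact conj_pow_pow hg n
  -- the homomorphism on the stabiliser
  let F : MulAction.stabilizer L x →* (ℚ ≃ᵃ[ℚ] ℚ) :=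
    { toFun := fun g => f ⟨g, hmem g⟩
      map_one' := by
        rw [← map_one f]
        rfl
      map_mul' := fun g h => by
        rw [← map_mul]
        rfl }
  have hFc : F c' = AffineEquiv.constVAdd ℚ ℚ t := by
    ext q
    show f ⟨c', hmem c'⟩ q = t +ᵥ q
    rw [hf ⟨c', hmem c'⟩ rfl q, vadd_eq_add, add_comm]
  have hFm : ∀ m : ℤ, F (c' ^ m) = AffineEquiv.constVAdd ℚ ℚ (m * t) := by
    intro m
    rw [map_zpow, hFc, ← AffineEquiv.constVAdd_zsmul, zsmul_eq_mul]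
  -- the linear part
  have hlin : ∀ g : MulAction.stabilizer L x, F g 1 - F g 0 = Δ (g : L) := by
    intro g
    obtain ⟨m, l, hm, hl, hg⟩ := hcm (g : L)
    have h1 : g * c' ^ m = c' ^ l * g := by
      apply Subtype.ext
      show (g : L) * (c ^ n) ^ m = (c ^ n) ^ l * (g : L)
      rw [← zpow_mul, ← zpow_mul, mul_comm n m, mul_comm n l, ← conj_pow_pow hg n]
      group
    have h2 : F g (F (c' ^ m) 0) = F (c' ^ l) (F g 0) := by
      have h3 := congrArg F h1
      rw [map_mul, map_mul] at h3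
      exact congrArg (fun u : ℚ ≃ᵃ[ℚ] ℚ => u 0) h3
    rw [hFm, hFm, AffineEquiv.constVAdd_apply, AffineEquiv.constVAdd_apply, aff_apply (F g) ((m * t) +ᵥ (0 : ℚ)), vadd_eq_add,
      vadd_eq_add, add_zero] at h2
    have h4 := hΔ (g : L) m l hg
    have hm' : (m : ℚ) ≠ 0 := by exact_mod_cast hm
    have h5 : (F g 1 - F g 0) * (m * t) = (Δ (g : L) : ℚ) * (m * t) := by
      rw [← mul_assoc (Δ (g : L) : ℚ), ← h4]
      linarith
    exact mul_right_cancel₀ (mul_ne_zero hm' ht) h5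
  have hpow : ∀ k : ℤ, ∀ hk : c ^ k • x = x, F ⟨c ^ k, hk⟩ 0 = k * t / n := by
    intro k hk
    have h1 : F ⟨c ^ k, hk⟩ = AffineEquiv.constVAdd ℚ ℚ (F ⟨c ^ k, hk⟩ 0) := by
      ext q
      rw [aff_apply, hlin ⟨c ^ k, hk⟩, Mdl.pow hΔ k, Units.val_one, one_mul]
      rfl
    have h2 : (⟨c ^ k, hk⟩ : MulAction.stabilizer L x) ^ n = c' ^ k := by
      apply Subtype.ext
      show (c ^ k) ^ n = (c ^ n) ^ k
      rw [← zpow_mul, ← zpow_mul, mul_comm]
    have h3 := congrArg F h2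
    rw [hFm, map_zpow, h1, ← AffineEquiv.constVAdd_zsmul, zsmul_eq_mul] at h3
    have h4 := congrArg (fun u : ℚ ≃ᵃ[ℚ] ℚ => u 0) h3
    simp only [AffineEquiv.constVAdd_apply, vadd_eq_add, add_zero] at h4
    have hn' : (n : ℚ) ≠ 0 := by exact_mod_cast hn
    field_simp
    linarith
  refine ⟨fun g => if h : g • x = x then (n / t) * F ⟨g, h⟩ 0 else 0, ?_, ?_⟩
  · intro g h hg hh
    have hgh : (g * h) • x = x := by rw [mul_smul, hh, hg]
    simp only [hg, hh, hgh, dif_pos]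
    have h1 : F ⟨g * h, hgh⟩ 0 = F ⟨g, hg⟩ (F ⟨h, hh⟩ 0) := by
      have h2 : (⟨g * h, hgh⟩ : MulAction.stabilizer L x) = ⟨g, hg⟩ * ⟨h, hh⟩ := rfl
      rw [h2, map_mul]
      rfl
    rw [h1, aff_apply (F ⟨g, hg⟩) (F ⟨h, hh⟩ 0), hlin ⟨g, hg⟩]
    ring
  · intro k hk
    simp only [hk, dif_pos]
    rw [hpow k hk]
    have hn' : (n : ℚ) ≠ 0 := by exact_mod_cast hn
    field_simp

end Pool.Agent.H54.GC
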