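import Pool.Agent.H54.GC.Ex
import Pool.Agent.H54.AX.Cr
import Pool.Agent.H76.VC.Lin

/-!
# Elements which translate an axis in a tree

`Shift.of_tree`: if no power of `c` fixes a vertex of the tree then `c` translates an axis, the commensurator acts on this axis by
`i ↦ e * i + b`, `e = 1` or `e = -1`, and this is a homomorphism to the affine group.
-/

set_option autoImplicit false

namespace Pool.Agent.H54.GC

open Pool.Agent.H93.TR Pool.Agent.H54.AX Pool.Agent.H76.VC
open Subgroup.Commensurable (commensurator)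

/-- an element no power of which fixes a vertex translates a line -/
theorem axis {G V : Type} [Group G] [MulAction G V] {X : SimpleGraph V} (hX : OnTree G X) (z : G)
    (hz : ∀ (k : ℤ) (v : V), z ^ k • v = v → k = 0) :
    ∃ (L : ℤ → V) (l : ℕ), 1 ≤ l ∧ Line X L ∧ ∀ i, z • L i = L (i + l) := by
  classical
  have : Nonempty V := hX.tree.connected.nonempty
  obtain ⟨v, hv⟩ : ∃ v : V, ∀ w : V, X.dist v (z • v) ≤ X.dist w (z • w) := by
    obtain ⟨v, hv⟩ : ∃ v, v ∈ Set.range (fun v : V => X.dist v (z • v)) ∧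
        ∀ w ∈ Set.range (fun v : V => X.dist v (z • v)), v ≤ w := by
      have hne : (Set.range (fun v : V => X.dist v (z • v))).Nonempty := Set.range_nonempty _
      exact ⟨sInf _, Nat.sInf_mem hne, fun w hw => Nat.sInf_le hw⟩
    obtain ⟨⟨x, hx⟩, h2⟩ := hv
    refine ⟨x, fun w => ?_⟩
    have h3 := h2 _ ⟨w, rfl⟩
    simp only at hx h3
    omega
  obtain ⟨p, hp0, hpl, hadj, hinj, -⟩ := exists_path hX v (z • v)
  obtain ⟨l, hl⟩ : ∃ l : ℕ, l = X.dist v (z • v) := ⟨_, rfl⟩
  rw [← hl] at hpl hadj hinj hv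
  have hl1 : 1 ≤ l := by
    rcases Nat.eq_zero_or_pos l with h | h
    · exfalso
      have h2 : v = z • v := by
        rw [h] at hpl
        rw [← hpl, hp0]
      have h3 := hz 1 v (by rw [zpow_one]; exact h2.symm)
      omega
    · exact h
  have hlz : (l : ℤ) ≠ 0 := by omega
  obtain ⟨q, hq⟩ : ∃ q : ℤ → V, q = fun i => z ^ (i / (l : ℤ)) • p (i % (l : ℤ)).toNat := ⟨_, rfl⟩
  have hqe : ∀ (k : ℤ) (r : ℕ), r ≤ l → q (k * l + r) = z ^ k • p r := by
    have h0 : ∀ (k : ℤ) (r : ℕ), r < l → q (k * l + r) = z ^ k • p r := by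
      intro k r h
      rw [hq]
      simp only
      rw [add_comm (k * (l : ℤ)) (r : ℤ), Int.add_mul_ediv_right _ _ hlz, Int.add_mul_emod_self_right,
        Int.ediv_eq_zero_of_lt (by omega) (by omega), Int.emod_eq_of_lt (by omega) (by omega), zero_add,
        Int.toNat_natCast]
    intro k r hr
    rcases Nat.lt_or_ge r l with h | h
    · exact h0 k r h
    · have h2 : r = l := le_antisymm hr h
      rw [h2]
      have h3 := h0 (k + 1) 0 (by omega)
      rw [show k * (l : ℤ) + (l : ℤ) = (k + 1) * (l : ℤ) + ((0 : ℕ) : ℤ) by push_cast; ring, h3, hp0, hpl, zpow_add_one,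
        mul_smul]
  have hdec : ∀ n : ℤ, ∃ (k : ℤ) (r : ℕ), r < l ∧ n = k * l + r := by
    intro n
    have h1 := Int.emod_nonneg n hlz
    have h2 := Int.emod_lt_of_pos n (show (0 : ℤ) < l by omega)
    refine ⟨n / l, (n % l).toNat, by omega, ?_⟩
    rw [Int.toNat_of_nonneg h1, mul_comm]
    exact (Int.mul_ediv_add_emod n l).symm
  have h1 : ∀ i, X.Adj (q i) (q (i + 1)) := by
    intro i
    obtain ⟨k, r, hr, rfl⟩ := hdec i
    have h2 := hqe k (r + 1) (by omega)
    push_cast at h2
    rw [add_assoc, hqe k r (by omega), h2]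
    exact hX.adj _ _ _ (hadj r hr)
  have hdp : ∀ i k, i + k ≤ l → X.dist (p i) (p (i + k)) ≤ k := by
    intro i k
    induction k with
    | zero => intro _; simp
    | succ k ih =>
      intro h
      have h3 := hX.tree.connected.dist_triangle (u := p i) (v := p (i + k)) (w := p (i + (k + 1)))
      have h4 : X.dist (p (i + k)) (p (i + (k + 1))) = 1 := by
        rw [SimpleGraph.dist_eq_one_iff_adj]
        exact hadj (i + k) (by omega)
      have h5 := ih (by omega)
      omega
  have h2 : ∀ i, q i ≠ q (i + 2) := by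
    intro i
    obtain ⟨k, r, hr, rfl⟩ := hdec i
    rcases Nat.lt_or_ge (r + 1) l with h | h
    · have h0 := hqe k (r + 2) (by omega)
      push_cast at h0
      rw [add_assoc, hqe k r (by omega), h0]
      intro h3
      have h4 := hinj r (by omega) (r + 2) (by omega) (MulAction.injective _ h3)
      omega
    · have h5 : r = l - 1 := by omega
      have h6 : k * (l : ℤ) + (r : ℤ) + 2 = (k + 1) * l + ((1 : ℕ) : ℤ) := by
        rw [add_mul, one_mul]
        omega
      rw [h6, hqe k r (by omega), hqe (k + 1) 1 (by omega), zpow_add_one, mul_smul]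
      intro h3
      have h4 : p r = z • p 1 := MulAction.injective _ h3
      rcases Nat.lt_or_ge 1 l with h7 | h7
      · have h8 := hv (p 1)
        rw [← h4] at h8
        have h9 := hdp 1 (r - 1) (by omega)
        rw [show 1 + (r - 1) = r by omega] at h9
        omega
      · have h8 : l = 1 := by omega
        have h9 : r = 0 := by omega
        rw [h9, hp0] at h4
        rw [h8] at hpl
        rw [hpl, ← mul_smul] at h4
        have h10 := hz 2 v (by rw [zpow_two]; exact h4.symm)
        omega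
  have hle : ∀ i j : ℤ, i ≤ j → (X.dist (q i) (q j) : ℤ) = j - i := by
    intro i j hij
    have h3 := (line_dist hX.tree (fun n : ℕ => q (i + n)) (by
      intro n
      have h4 := h1 (i + n)
      push_cast
      rw [← add_assoc]
      exact h4) (by
      intro n
      have h4 := h2 (i + n)
      push_cast
      rw [← add_assoc]
      exact h4) (j - i).toNat).1
    simp only [Nat.cast_zero, add_zero] at h3
    rw [Int.toNat_of_nonneg (by omega), add_sub_cancel] at h3
    rw [h3]
    omega
  refine ⟨q, l, hl1, ?_, ?_⟩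
  · intro i j
    rcases le_total i j with h | h
    · rw [hle i j h, abs_sub_comm, abs_of_nonneg (by omega)]
    · rw [SimpleGraph.dist_comm, hle j i h, abs_of_nonneg (by omega)]
  · intro i
    obtain ⟨k, r, hr, rfl⟩ := hdec i
    have h3 := hqe (k + 1) r (by omega)
    rw [hqe k r (by omega), show k * (l : ℤ) + (r : ℤ) + (l : ℤ) = (k + 1) * l + r by ring, h3, ← mul_smul]
    congr 1
    rw [zpow_add_one, ← zpow_one_add, add_comm, zpow_add_one]

private theorem ax_zpow {G V : Type} [Group G] [MulAction G V] {L : ℤ → V} {h : G} {v : ℤ}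
    (h1 : ∀ i, h • L i = L (i + v)) (n : ℤ) : ∀ i, h ^ n • L i = L (i + n * v) := by
  have h2 : ∀ i, h⁻¹ • L i = L (i - v) := by
    intro i
    rw [inv_smul_eq_iff, h1, sub_add_cancel]
  induction n using Int.induction_on with
  | zero =>
    intro i
    rw [zpow_zero, one_smul, zero_mul, add_zero]
  | succ n ih =>
    intro i
    rw [zpow_add_one, mul_smul, h1, ih]
    congr 1
    ring
  | pred n ih =>
    intro i
    rw [zpow_sub_one, mul_smul, h2, ih]
    congr 1
    ring

private theorem ax_on {G V : Type} [Group G] [MulAction G V] {X : SimpleGraph V} (hX : OnTree G X) {L : ℤ → V}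
    (hL : Line X L) {h : G} {v : ℤ} (hv : v ≠ 0) (h1 : ∀ i, h • L i = L (i + v)) {g : G}
    (hg : ∃ m n : ℤ, m ≠ 0 ∧ n ≠ 0 ∧ g * h ^ m * g⁻¹ = h ^ n) (i : ℤ) : ∃ j, L i = g • L j := by
  obtain ⟨m, n, hm, hn, hmn⟩ := hg
  have hL' : Line X (fun i => g • L i) := by
    intro i j
    rw [dist_sm' hX]
    exact hL i j
  refine cross hX.tree hL hL' (s := m * v) (s' := n * v) (mul_ne_zero hm hv) (mul_ne_zero hn hv)
    (D := X.dist (g • L 0) (L 0)) (fun l => ?_) i
  have e1 : g • L (l * (m * v)) = h ^ (l * n) • (g • L 0) := by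
    have e2 : h ^ (l * n) = g * h ^ (l * m) * g⁻¹ := by
      rw [mul_comm l n, zpow_mul, ← hmn, conj_zpow, ← zpow_mul, mul_comm m l]
    rw [e2, mul_smul, mul_smul, inv_smul_smul, ax_zpow h1 (l * m) 0, zero_add, mul_assoc]
  have e3 : L (l * (n * v)) = h ^ (l * n) • L 0 := by
    rw [ax_zpow h1 (l * n) 0, zero_add, mul_assoc]
  show X.dist (g • L (l * (m * v))) (L (l * (n * v))) ≤ X.dist (g • L 0) (L 0)
  rw [e1, e3, dist_sm' hX]

/-- an element no power of which fixes a vertex of a tree -/
theorem Shift.of_tree {H V : Type} [Group H] [MulAction H V] {X : SimpleGraph V} (hX : X.IsTree)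
    (hadj : ∀ (g : H) (a b : V), X.Adj a b → X.Adj (g • a) (g • b)) {c : H}
    (hc : ∀ (n : ℤ) (v : V), n ≠ 0 → c ^ n • v ≠ v) : Shift H c := by
  have hXT : OnTree H X := ⟨hX, hadj⟩
  obtain ⟨L, l, hl, hL, hcL⟩ := axis hXT c (fun k v h => by
    by_contra hk
    exact hc k v hk h)
  have hlz : (l : ℤ) ≠ 0 := by omega
  have hfo : ¬ IsOfFinOrder c := by
    intro h
    obtain ⟨k, hk, h1⟩ := isOfFinOrder_iff_pow_eq_one.1 h
    refine hc k (L 0) (by omega) ?_
    rw [zpow_natCast, h1, one_smul]
  have hLinj : ∀ i j, L i = L j → i = j := by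
    intro i j h
    have h1 := hL i j
    rw [h, SimpleGraph.dist_self] at h1
    have h2 := abs_eq_zero.1 h1.symm
    omega
  -- the commensurator preserves the line
  have hon : ∀ g : ↥(commensurator (Subgroup.zpowers c)), ∀ i, ∃ j, (g : H) • L i = L j := by
    intro g i
    obtain ⟨j, hj⟩ := ax_on hXT hL hlz hcL ((mem_comm hfo _).1 (g⁻¹).2) i
    refine ⟨j, ?_⟩
    rw [hj]
    show (g : H) • (g : H)⁻¹ • L j = L j
    rw [smul_inv_smul]
  choose s hs using hon
  obtain ⟨b, hb⟩ : ∃ b : ↥(commensurator (Subgroup.zpowers c)) → ℤ, b = fun g => s g 0 := ⟨_, rfl⟩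
  obtain ⟨e, he⟩ : ∃ e : ↥(commensurator (Subgroup.zpowers c)) → ℤ, e = fun g => s g 1 - s g 0 := ⟨_, rfl⟩
  have hds : ∀ g i j, |s g i - s g j| = |i - j| := by
    intro g i j
    rw [← hL (s g i) (s g j), ← hs, ← hs, dist_sm' hXT, hL]
  have he1 : ∀ g, e g = 1 ∨ e g = -1 := by
    intro g
    have h1 := hds g 1 0
    rw [sub_zero, abs_one] at h1
    rw [he]
    exact eq_or_eq_neg_of_abs_eq h1
  have hform : ∀ g i, s g i = b g + e g * i := by
    intro g i
    have h1 := abs_eq_abs.1 (hds g i 0)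
    have h2 := abs_eq_abs.1 (hds g i 1)
    have h3 := he1 g
    rw [he] at h3
    rw [hb, he]
    simp only at h3 ⊢
    rcases h3 with h3 | h3 <;> rw [h3] <;> omega
  have hmul0 : ∀ g h i, s (g * h) i = s g (s h i) := by
    intro g h i
    apply hLinj
    rw [← hs (g * h) i, ← hs g (s h i), ← hs h i]
    show ((g : H) * (h : H)) • L i = _
    rw [mul_smul]
  have hbm : ∀ g h, b (g * h) = b g + e g * b h := by
    intro g h
    have h1 := hmul0 g h 0
    rw [hform g (s h 0), hform (g * h) 0, hform h 0, mul_zero, add_zero, mul_zero, add_zero] at h1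
    exact h1
  have hem : ∀ g h, e (g * h) = e g * e h := by
    intro g h
    have h1 := hmul0 g h 1
    rw [hform g (s h 1), hform (g * h) 1, hform h 1, mul_one, mul_one, hbm] at h1
    linarith
  refine Shift.of_commensurator hfo fun hcm => ?_
  have hs0 : ∀ i, s ⟨c, hcm⟩ i = i + l := by
    intro i
    apply hLinj
    rw [← hs]
    exact hcL i
  have hne : ∀ g, (e g : ℚ) ≠ 0 := by
    intro g
    rcases he1 g with h | h
    · rw [h]
      norm_num
    · rw [h]
      norm_num
  refine Shift.of_cocycle (MonoidHom.mk' (fun g => Units.mk0 (e g : ℚ) (hne g)) ?_) (fun g => (b g : ℚ)) ?_ ?_ ?_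
  · intro g h
    apply Units.ext
    show (e (g * h) : ℚ) = e g * e h
    rw [hem]
    push_cast
    ring
  · intro g h
    show (b (g * h) : ℚ) = b g + e g * b h
    rw [hbm]
    push_cast
    ring
  · apply Units.ext
    show (e ⟨c, hcm⟩ : ℚ) = 1
    rw [he]
    simp only
    rw [hs0, hs0]
    push_cast
    ring
  · show (b ⟨c, hcm⟩ : ℚ) ≠ 0
    rw [hb]
    simp only
    rw [hs0, zero_add]
    exact_mod_cast hlz

/-- groups in which every element of infinite order translates an axis in a suitable tree -/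
theorem AllShift.of_trees {H : Type} [Group H]
    (h : ∀ c : H, ¬ IsOfFinOrder c → ∃ (V : Type) (_ : MulAction H V) (X : SimpleGraph V), X.IsTree ∧
      (∀ (g : H) (a b : V), X.Adj a b → X.Adj (g • a) (g • b)) ∧ ∀ (n : ℤ) (v : V), n ≠ 0 → c ^ n • v ≠ v) :
    AllShift H := by
  intro c hc
  obtain ⟨V, _, X, hX, hadj, h1⟩ := h c hc
  exact Shift.of_tree hX hadj h1

end Pool.Agent.H54.GC
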