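import Pool.Agent.H54.GC.Main
import Pool.Agent.H54.GC.ExT

/-!
# The class of the groups all of whose elements of infinite order are shifts is closed under trees
-/

set_option autoImplicit false

namespace Pool.Agent.H54.GC

open Pool.Agent.H98.FJ Pool.Agent.H76.GT
open Subgroup.Commensurable (commensurator)

/-- two different vertices which are fixed by `g` give a fixed edge -/
theorem fix_edge {V : Type} {X : SimpleGraph V} (hX : X.IsTree) (g : V → V) (hg : ∀ a b, X.Adj a b → X.Adj (g a) (g b))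
    {a b : V} (ha : g a = a) (hb : g b = b) (hab : a ≠ b) : ∃ z, X.Adj a z ∧ g z = z := by
  obtain ⟨p, hp⟩ := hX.connected.exists_walk_length_eq_dist a b
  cases p with
  | nil => exact absurd rfl hab
  | @cons _ z _ h p =>
    refine ⟨z, h, fix_between hX g hg ha hb ?_⟩
    have h1 : X.dist a z = 1 := SimpleGraph.dist_eq_one_iff_adj.2 h
    have h2 : X.dist z b ≤ p.length := SimpleGraph.dist_le p
    have h3 : X.dist a b ≤ X.dist a z + X.dist z b := hX.connected.dist_triangle
    rw [SimpleGraph.Walk.length_cons] at hp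
    omega

/-- the case of a commensurated element, powers of which fix edges -/
theorem coc_key {L V : Type} [Group L] [MulAction L V] {X : SimpleGraph V}
    (hX : X.IsTree) (hadj : ∀ (g : L) (a b : V), X.Adj a b → X.Adj (g • a) (g • b))
    (he : ∀ a b : V, X.Adj a b → VirtuallyCyclic ↥(MulAction.stabilizer L a ⊓ MulAction.stabilizer L b))
    (hs : ∀ a b : V, X.Adj a b → ∀ c : ↥(MulAction.stabilizer L a), ¬ IsOfFinOrder c → (c : L) • b = b →
      Shift (MulAction.stabilizer L a) c) {c : L} (hc : ¬ IsOfFinOrder c) (hfix : ∀ x : V, ∃ n : ℤ, n ≠ 0 ∧ c ^ n • x = x)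
    (hcm : Cmd c) (hnb : ∀ x : V, ∃ y, X.Adj x y) :
    ∃ (Δ : L →* ℚˣ) (β : L → ℚ), Mdl c Δ ∧ (∀ g h, β (g * h) = β g + Δ g * β h) ∧ β c = 1 := by
  obtain ⟨Δ, hΔ⟩ := exists_dl hc hcm
  have he' : ∀ a b : V, X.Adj a b → ∀ n : ℤ, n ≠ 0 → c ^ n • a = a → c ^ n • b = b →
      (Subgroup.zpowers (c ^ n)).relIndex (MulAction.stabilizer L a ⊓ MulAction.stabilizer L b) ≠ 0 :=
    fun a b hab n hn ha hb => vc_zpowers _ (he a b hab) (Subgroup.mem_inf.2 ⟨ha, hb⟩) (zpow_not_fin hc hn)
  have hb : ∀ x : V, ∃ b : L → ℚ, (∀ g h : L, g • x = x → h • x = x → b (g * h) = b g + Δ g * b h) ∧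
      ∀ k : ℤ, c ^ k • x = x → b (c ^ k) = k := by
    intro x
    obtain ⟨y, hy⟩ := hnb x
    obtain ⟨n, hn, hnx⟩ := hfix x
    obtain ⟨m, hm, hmy⟩ := hfix y
    have hx1 : c ^ (n * m) • x = x := zpow_smul_mul hnx m
    have hy1 : c ^ (n * m) • y = y := by
      rw [mul_comm]
      exact zpow_smul_mul hmy n
    have hnm : n * m ≠ 0 := mul_ne_zero hn hm
    exact local_b hc hcm hΔ x hnm hx1
      (hs x y hy ⟨c ^ (n * m), hx1⟩ (fun h => zpow_not_fin hc hnm (Submonoid.isOfFinOrder_coe.2 h)) hy1)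
  choose b hb1 hb2 using hb
  obtain ⟨β, hβ, hβc⟩ := exists_beta hX hadj hc hcm hΔ hfix he' b hb1 hb2
  exact ⟨Δ, β, hΔ, hβ, hβc⟩

/-- elements powers of which fix an edge -/
theorem shift_edge {G V : Type} [Group G] [MulAction G V] {X : SimpleGraph V}
    (hX : X.IsTree) (hadj : ∀ (g : G) (a b : V), X.Adj a b → X.Adj (g • a) (g • b))
    (he : ∀ a b : V, X.Adj a b → VirtuallyCyclic ↥(MulAction.stabilizer G a ⊓ MulAction.stabilizer G b))
    (hs : ∀ a b : V, X.Adj a b → ∀ c : ↥(MulAction.stabilizer G a), ¬ IsOfFinOrder c → (c : G) • b = b →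
      Shift (MulAction.stabilizer G a) c) {c : G} (hc : ¬ IsOfFinOrder c) {a₀ b₀ : V} (hab : X.Adj a₀ b₀) {n₀ : ℤ}
    (hn₀ : n₀ ≠ 0) (hca : c ^ n₀ • a₀ = a₀) (hcb : c ^ n₀ • b₀ = b₀) : Shift G c := by
  refine Shift.of_commensurator hc fun hcL => ?_
  set L := commensurator (Subgroup.zpowers c) with hL
  set S : Set V := {v | ∃ n : ℤ, n ≠ 0 ∧ c ^ n • v = v} with hSd
  have hSi : ∀ g : L, ∀ v ∈ S, g • v ∈ S := by
    rintro g v ⟨n, hn, h⟩
    obtain ⟨m, l, hm, hl, hg⟩ := (mem_comm hc (g : G)).1 g.2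
    refine ⟨l * n, mul_ne_zero hl hn, ?_⟩
    show c ^ (l * n) • ((g : G) • v) = (g : G) • v
    have h1 : c ^ (l * n) * (g : G) = (g : G) * c ^ (n * m) := by
      rw [zpow_mul, ← hg, conj_zpow, ← zpow_mul, mul_comm m n]
      group
    rw [← mul_smul, h1, mul_smul, zpow_smul_mul h m]
  have hSc : Cvx X S := by
    rintro a ⟨n, hn, ha⟩ b ⟨m, hm, hb⟩ z hz
    have ha' : c ^ (n * m) • a = a := zpow_smul_mul ha m
    have hb' : c ^ (n * m) • b = b := by
      rw [mul_comm]
      exact zpow_smul_mul hb n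
    exact ⟨n * m, mul_ne_zero hn hm, fix_between hX (fun v => c ^ (n * m) • v) (fun a b h => hadj _ a b h) ha' hb' hz⟩
  have ha₀ : a₀ ∈ S := ⟨n₀, hn₀, hca⟩
  have hb₀ : b₀ ∈ S := ⟨n₀, hn₀, hcb⟩
  have hX' : (X.induce S).IsTree := induce_tree hX hSc ⟨a₀, ha₀⟩
  let _ : MulAction L S :=
    { smul := fun g v => ⟨g • (v : V), hSi g v v.2⟩
      one_smul := fun v => Subtype.ext (one_smul L (v : V))
      mul_smul := fun g h v => Subtype.ext (mul_smul g h (v : V)) }
  have hnb : ∀ x : S, ∃ y, (X.induce S).Adj x y := by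
    intro x
    obtain ⟨w⟩ := hX'.connected.preconnected x ⟨a₀, ha₀⟩
    cases w with
    | nil => exact ⟨⟨b₀, hb₀⟩, hab⟩
    | cons h _ => exact ⟨_, h⟩
  have hadj' : ∀ (g : L) (a b : S), (X.induce S).Adj a b → (X.induce S).Adj (g • a) (g • b) :=
    fun g a b h => hadj (g : G) a b h
  have hcm : Cmd (⟨c, hcL⟩ : L) := by
    intro g
    obtain ⟨m, l, hm, hl, hg⟩ := (mem_comm hc (g : G)).1 g.2
    exact ⟨m, l, hm, hl, Subtype.ext hg⟩
  have hc' : ¬ IsOfFinOrder (⟨c, hcL⟩ : L) := fun h => hc (Submonoid.isOfFinOrder_coe.2 h)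
  suffices key : ∃ (Δ : L →* ℚˣ) (β : L → ℚ), Mdl (⟨c, hcL⟩ : L) Δ ∧ (∀ g h, β (g * h) = β g + Δ g * β h) ∧
      β ⟨c, hcL⟩ = 1 by
    obtain ⟨Δ, β, hΔ, hβ, hβc⟩ := key
    refine Shift.of_cocycle Δ β hβ ?_ (by rw [hβc]; exact one_ne_zero)
    have h1 := Mdl.pow hΔ 1
    rwa [zpow_one] at h1
  refine coc_key (L := L) (V := S) hX' hadj' ?_ ?_ hc' ?_ hcm hnb
  · intro a b hab
    let φ : ↥(MulAction.stabilizer L a ⊓ MulAction.stabilizer L b) →* ↥(MulAction.stabilizer G (a : V) ⊓ MulAction.stabilizer G (b : V)) :=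
      { toFun := fun g => ⟨((g : L) : G), congrArg Subtype.val g.2.1, congrArg Subtype.val g.2.2⟩
        map_one' := rfl
        map_mul' := fun _ _ => rfl }
    refine vc_of_injective φ ?_ (he a b hab)
    intro g h hgh
    have h1 := congrArg (fun z : ↥(MulAction.stabilizer G (a : V) ⊓ MulAction.stabilizer G (b : V)) => (z : G)) hgh
    exact Subtype.ext (Subtype.ext h1)
  · intro a b hab z hz hzb
    have hza : ((z : L) : G) • (a : V) = (a : V) := congrArg Subtype.val z.2
    have hS0 := hs a b hab ⟨((z : L) : G), hza⟩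
      (fun h => hz (by
        have h1 : IsOfFinOrder ((z : L) : G) :=
          (Submonoid.isOfFinOrder_coe (x := (⟨((z : L) : G), hza⟩ : MulAction.stabilizer G (a : V)))).2 h
        have h2 : IsOfFinOrder (z : L) := Submonoid.isOfFinOrder_coe.1 h1
        exact Submonoid.isOfFinOrder_coe.1 h2)) (congrArg Subtype.val hzb)
    let φ : MulAction.stabilizer L a →* MulAction.stabilizer G (a : V) :=
      { toFun := fun g => ⟨((g : L) : G), congrArg Subtype.val g.2⟩
        map_one' := rfl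
        map_mul' := fun _ _ => rfl }
    refine Shift.of_injective φ ?_ hz hS0
    intro g h hgh
    have h1 := congrArg (fun z : MulAction.stabilizer G (a : V) => (z : G)) hgh
    exact Subtype.ext (Subtype.ext h1)
  · rintro ⟨x, n, hn, hx⟩
    exact ⟨n, hn, Subtype.ext hx⟩

/-- closure under actions on trees with virtually cyclic edge stabilisers -/
theorem allShift_tree {G V : Type} [Group G] [MulAction G V] {X : SimpleGraph V}
    (hX : X.IsTree) (hadj : ∀ (g : G) (a b : V), X.Adj a b → X.Adj (g • a) (g • b))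
    (he : ∀ a b : V, X.Adj a b → VirtuallyCyclic ↥(MulAction.stabilizer G a ⊓ MulAction.stabilizer G b))
    (hs : ∀ a : V, AllShift (MulAction.stabilizer G a)) : AllShift G := by
  intro c hc
  by_cases h1 : ∀ n : ℤ, n ≠ 0 → ∀ v : V, c ^ n • v ≠ v
  · exact Shift.of_tree hX hadj fun n v hn => h1 n hn v
  push Not at h1
  obtain ⟨n, hn, v, hv⟩ := h1
  by_cases h2 : ∃ m : ℤ, m ≠ 0 ∧ ∃ a b : V, X.Adj a b ∧ c ^ m • a = a ∧ c ^ m • b = b
  · obtain ⟨m, hm, a, b, hab, ha, hb⟩ := h2
    exact shift_edge hX hadj he (fun a b _ c hc _ => hs a c hc) hc hab hm ha hb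
  · refine Shift.of_commensurator hc fun hcL => ?_
    have hfixv : ∀ g ∈ commensurator (Subgroup.zpowers c), g • v = v := by
      intro g hg
      obtain ⟨m, l, hm, hl, h3⟩ := (mem_comm hc g).1 hg
      by_contra hne
      apply h2
      have h4 : c ^ (l * n) • (g • v) = g • v := by
        have h5 : c ^ (l * n) * g = g * c ^ (n * m) := by
          rw [zpow_mul, ← h3, conj_zpow, ← zpow_mul, mul_comm m n]
          group
        rw [← mul_smul, h5, mul_smul, zpow_smul_mul hv m]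
      have h5 : c ^ (l * n) • v = v := by
        rw [mul_comm]
        exact zpow_smul_mul hv l
      obtain ⟨z, hz1, hz2⟩ := fix_edge hX (fun w => c ^ (l * n) • w) (fun a b h => hadj _ a b h) h5 h4 (Ne.symm hne)
      exact ⟨l * n, mul_ne_zero hl hn, v, z, hz1, h5, hz2⟩
    let φ : ↥(commensurator (Subgroup.zpowers c)) →* MulAction.stabilizer G v :=
      { toFun := fun g => ⟨(g : G), hfixv g g.2⟩
        map_one' := rfl
        map_mul' := fun _ _ => rfl }
    have hφ : Function.Injective φ := by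
      intro g h hgh
      have h6 := congrArg (fun z : MulAction.stabilizer G v => (z : G)) hgh
      exact Subtype.ext h6
    exact (AllShift.of_injective φ hφ (hs v)) _ (fun h => hc (Submonoid.isOfFinOrder_coe.2 h))

/-- **closure theorem** -/
theorem closure_tree {C : (G : Type) → [Group G] → Prop} (hC : Inherits C) (hE : Extension C) (hT : Transfer C)
    (hS : ∀ (G : Type) [Group G], Group.IsSolvable G → C G) {G V : Type} [Group G] [MulAction G V] {X : SimpleGraph V}
    (hX : X.IsTree) (hadj : ∀ (g : G) (a b : V), X.Adj a b → X.Adj (g • a) (g • b))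
    (hv : ∀ v : V, C (MulAction.stabilizer G v) ∧ AllShift (MulAction.stabilizer G v))
    (he : ∀ a b : V, X.Adj a b → VirtuallyCyclic ↥(MulAction.stabilizer G a ⊓ MulAction.stabilizer G b)) :
    C G ∧ AllShift G :=
  ⟨gc hC hE hT hS hX hadj (fun v => (hv v).1) he (fun a _ _ c hc _ => (hv a).2 c hc),
    allShift_tree hX hadj he (fun v => (hv v).2)⟩

end Pool.Agent.H54.GC
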