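import Mathlib

/-!
# Cocycles with values in `ℚ`
-/

set_option autoImplicit false

namespace Pool.Agent.H54.GC

/-- a cocycle which vanishes on a subgroup of finite index is a coboundary (average over the cosets) -/
theorem coboundary {H : Type} [Group H] (S : Subgroup H) (hS : S.FiniteIndex) (Δ : H →* ℚˣ) (δ : H → ℚ)
    (hδ : ∀ g h, δ (g * h) = δ g + Δ g * δ h) (h0 : ∀ s ∈ S, δ s = 0) : ∃ τ : ℚ, ∀ h, δ h = (1 - Δ h) * τ := by
  classical
  haveI : Fintype (H ⧸ S) := Subgroup.fintypeQuotientOfFiniteIndex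
  let q : H ⧸ S → ℚ := Quotient.lift δ (by
    intro a b hab
    have h1 : a⁻¹ * b ∈ S := QuotientGroup.leftRel_apply.1 hab
    have h2 := hδ a (a⁻¹ * b)
    rw [mul_inv_cancel_left, h0 _ h1, mul_zero, add_zero] at h2
    exact h2.symm)
  have hq : ∀ g : H, q (QuotientGroup.mk g) = δ g := fun g => rfl
  have hqs : ∀ (g : H) (x : H ⧸ S), q (g • x) = δ g + Δ g * q x := by
    intro g x
    obtain ⟨a, rfl⟩ := QuotientGroup.mk_surjective x
    rw [MulAction.Quotient.smul_mk, hq, hq, smul_eq_mul, hδ]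
  have hm : (Fintype.card (H ⧸ S) : ℚ) ≠ 0 := by
    exact_mod_cast Fintype.card_ne_zero
  refine ⟨(∑ x, q x) / Fintype.card (H ⧸ S), ?_⟩
  intro g
  have h1 : ∑ x, q (g • x) = ∑ x, q x := Equiv.sum_comp (MulAction.toPerm g) q
  have h2 : ∑ x, q (g • x) = Fintype.card (H ⧸ S) * δ g + Δ g * ∑ x, q x := by
    simp only [hqs]
    rw [Finset.sum_add_distrib, Finset.sum_const, Finset.card_univ, nsmul_eq_mul, Finset.mul_sum]
  rw [h2] at h1
  field_simp
  linarith

/-- representatives of the orbits -/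
private theorem exists_rep {L E : Type} [Group L] [MulAction L E] :
    ∃ (r : E → E) (s : E → L), (∀ e, s e • r e = e) ∧ ∀ (g : L) e, r (g • e) = r e := by
  classical
  let r : E → E := fun e => Quotient.out (Quotient.mk (MulAction.orbitRel L E) e)
  have h1 : ∀ e, ∃ g : L, g • r e = e := by
    intro e
    have h2 : Quotient.mk (MulAction.orbitRel L E) (r e) = Quotient.mk (MulAction.orbitRel L E) e := Quotient.out_eq _
    have h3 : (MulAction.orbitRel L E) e (r e) := Quotient.exact h2.symm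
    obtain ⟨g, hg⟩ := h3
    exact ⟨g, hg⟩
  choose s hs using h1
  refine ⟨r, s, hs, ?_⟩
  intro g e
  have h2 : Quotient.mk (MulAction.orbitRel L E) (g • e) = Quotient.mk (MulAction.orbitRel L E) e :=
    Quotient.sound ⟨g, rfl⟩
  simp only [r, h2]

/-- a cocycle of the action groupoid whose restrictions to the stabilisers are coboundaries is a coboundary -/
theorem glue {L E : Type} [Group L] [MulAction L E] (Δ : L →* ℚˣ) (D : L → E → ℚ)
    (hD : ∀ g h e, D (g * h) e = D g (h • e) + Δ g * D h e)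
    (h : ∀ e, ∃ τ : ℚ, ∀ l : L, l • e = e → D l e = (1 - Δ l) * τ) :
    ∃ τ : E → ℚ, ∀ g e, τ (g • e) = D g e + Δ g * τ e := by
  obtain ⟨r, s, hs, hr⟩ := exists_rep (L := L) (E := E)
  choose t ht using h
  refine ⟨fun e => D (s e) (r e) + Δ (s e) * t (r e), ?_⟩
  intro g e
  have e1 : (s (g • e))⁻¹ • g • e = r e := by
    rw [inv_smul_eq_iff]
    conv_lhs => rw [← hs (g • e)]
    rw [hr]
  have h1 : ((s (g • e))⁻¹ * g * s e) • r e = r e := by
    rw [mul_smul, mul_smul, hs e]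
    exact e1
  have h2 := ht (r e) _ h1
  have h3 := hD (s (g • e)) ((s (g • e))⁻¹ * g * s e) (r e)
  have h4 : s (g • e) * ((s (g • e))⁻¹ * g * s e) = g * s e := by group
  rw [h4, h1, h2, hD, hs] at h3
  have h5 : ((Δ ((s (g • e))⁻¹ * g * s e) : ℚˣ) : ℚ) = (Δ (s (g • e)) : ℚ)⁻¹ * Δ g * Δ (s e) := by
    rw [map_mul, map_mul, map_inv]
    push_cast
    ring
  have h6 : ((Δ (s (g • e)) : ℚˣ) : ℚ) ≠ 0 := Units.ne_zero _
  have h7 : ((Δ (s (g • e)) : ℚˣ) : ℚ) * ((1 - (Δ (s (g • e)) : ℚ)⁻¹ * Δ g * Δ (s e)) * t (r e)) =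
      ((Δ (s (g • e)) : ℚ) - Δ g * Δ (s e)) * t (r e) := by
    field_simp
  rw [h5, h7] at h3
  show D (s (g • e)) (r (g • e)) + Δ (s (g • e)) * t (r (g • e)) = D g e + Δ g * (D (s e) (r e) + Δ (s e) * t (r e))
  rw [hr]
  linarith

/-- cocycles of the stabilisers give a cocycle of the action groupoid -/
theorem induced {L V : Type} [Group L] [MulAction L V] (Δ : L →* ℚˣ) (b : V → L → ℚ)
    (hb : ∀ (x : V) (g h : L), g • x = x → h • x = x → b x (g * h) = b x g + Δ g * b x h) :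
    ∃ κ : L → V → ℚ, (∀ g h x, κ (g * h) x = κ g (h • x) + Δ g * κ h x) ∧
      ∀ x, ∃ (g : L) (y : V), g • y = x ∧ ∀ l : L, l • x = x → κ l x = Δ g * b y (g⁻¹ * l * g) := by
  obtain ⟨r, s, hs, hr⟩ := exists_rep (L := L) (E := V)
  have hfix : ∀ (g : L) (x : V), ((s (g • x))⁻¹ * g * s x) • r x = r x := by
    intro g x
    rw [mul_smul, mul_smul, hs x, inv_smul_eq_iff]
    conv_lhs => rw [← hs (g • x)]
    rw [hr]
  refine ⟨fun g x => Δ (s (g • x)) * b (r x) ((s (g • x))⁻¹ * g * s x), ?_, ?_⟩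
  · intro g h x
    have h1 := hfix g (h • x)
    rw [hr] at h1
    have h2 := hfix h x
    have h3 := hb (r x) _ _ h1 h2
    have h4 : (s (g • h • x))⁻¹ * g * s (h • x) * ((s (h • x))⁻¹ * h * s x) = (s (g • h • x))⁻¹ * (g * h) * s x := by
      group
    rw [h4] at h3
    have h5 : ((Δ ((s (g • h • x))⁻¹ * g * s (h • x)) : ℚˣ) : ℚ) = (Δ (s (g • h • x)) : ℚ)⁻¹ * Δ g * Δ (s (h • x)) := by
      rw [map_mul, map_mul, map_inv]
      push_cast
      ring
    have h6 : ((Δ (s (g • h • x)) : ℚˣ) : ℚ) ≠ 0 := Units.ne_zero _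
    show Δ (s ((g * h) • x)) * b (r x) ((s ((g * h) • x))⁻¹ * (g * h) * s x) =
      Δ (s (g • h • x)) * b (r (h • x)) ((s (g • h • x))⁻¹ * g * s (h • x)) +
        Δ g * (Δ (s (h • x)) * b (r x) ((s (h • x))⁻¹ * h * s x))
    rw [mul_smul, hr, h3, h5]
    field_simp
  · intro x
    refine ⟨s x, r x, hs x, ?_⟩
    intro l hl
    show Δ (s (l • x)) * b (r x) ((s (l • x))⁻¹ * l * s x) = _
    rw [hl]

end Pool.Agent.H54.GC
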