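import Pool.Agent.H98.FJ.Closed

/-!
# Groups with a central element which is not in the kernel of a homomorphism to the integers
-/

set_option autoImplicit false

namespace Pool.Agent.H54.GC

open Pool.Agent.H98.FJ

private theorem zp_rel {Q : Type} [Group Q] (a : Q) {c : ℤ} (hc : c ≠ 0) :
    (Subgroup.zpowers (a ^ c)).relIndex (Subgroup.zpowers a) ≠ 0 := by
  have hfin : Finite (Subgroup.zpowers a ⧸ (Subgroup.zpowers (a ^ c)).subgroupOf (Subgroup.zpowers a)) := by
    refine Finite.of_surjective (fun i : Fin c.natAbs => (QuotientGroup.mk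
      (⟨a ^ (i : ℕ), Subgroup.pow_mem _ (Subgroup.mem_zpowers a) _⟩ : Subgroup.zpowers a) :
      Subgroup.zpowers a ⧸ (Subgroup.zpowers (a ^ c)).subgroupOf (Subgroup.zpowers a))) ?_
    intro x
    obtain ⟨⟨y, hy⟩, rfl⟩ := QuotientGroup.mk_surjective x
    obtain ⟨k, hk⟩ := Subgroup.mem_zpowers_iff.1 hy
    have h0 : 0 ≤ k % c := Int.emod_nonneg k hc
    have h1 : k % c < |c| := Int.emod_lt_abs k hc
    have h1' : ((c.natAbs : ℕ) : ℤ) = |c| := Int.natCast_natAbs c
    refine ⟨⟨(k % c).toNat, by omega⟩, ?_⟩
    rw [QuotientGroup.eq, Subgroup.mem_subgroupOf]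
    show (a ^ (k % c).toNat)⁻¹ * y ∈ Subgroup.zpowers (a ^ c)
    refine Subgroup.mem_zpowers_iff.2 ⟨k / c, ?_⟩
    have h2 : a ^ (k % c).toNat = a ^ (k % c) := by
      rw [← zpow_natCast, Int.toNat_of_nonneg h0]
    rw [h2, ← hk, ← zpow_mul, ← zpow_neg, ← zpow_add]
    congr 1
    have h3 := Int.emod_add_mul_ediv k c
    omega
  unfold Subgroup.relIndex
  exact Subgroup.index_ne_zero_of_finite

private abbrev two (A B : Type) : Bool → Type
  | true => A
  | false => B

private instance twoGroup (A B : Type) [Group A] [Group B] : ∀ b, Group (two A B b)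
  | true => (inferInstance : Group A)
  | false => (inferInstance : Group B)

private theorem prod_mem {C : (G : Type) → [Group G] → Prop} (hC : Inherits C) {A B : Type} [Group A] [Group B]
    (hA : C A) (hB : C B) : C (A × B) := by
  have hG : ∀ b, C (two A B b) := fun b => by
    cases b
    · exact hB
    · exact hA
  have h := hC.pi Bool inferInstance (two A B) hG
  let g : A × B → ∀ b, two A B b := fun p b => match b with
    | true => p.1
    | false => p.2
  let φ : A × B →* ∀ b, two A B b :=
    { toFun := g
      map_one' := by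
        funext b
        cases b <;> rfl
      map_mul' := by
        intro p q
        funext b
        cases b <;> rfl }
  refine hC.of_injective φ ?_ h
  intro p q hpq
  have h1 : g p = g q := hpq
  exact Prod.ext (congrFun h1 true) (congrFun h1 false)

/-- if a central element is not in the kernel of a homomorphism to the integers then the group is in the class if the kernel is:
the product of the kernel and of the subgroup generated by the element has finite index -/
theorem central_step {C : (G : Type) → [Group G] → Prop} (hC : Inherits C) {M : Type} [Group M] (p : M →* Multiplicative ℤ)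
    {z : M} (hz : ∀ g : M, g * z = z * g) (hpz : p z ≠ 1) (hk : C p.ker) : C M := by
  -- the subgroup generated by the image of `z` has finite index
  have hfi : (Subgroup.zpowers (p z)).FiniteIndex := by
    refine ⟨?_⟩
    have h1 : Subgroup.zpowers (Multiplicative.ofAdd (1 : ℤ)) = ⊤ := by
      rw [eq_top_iff]
      intro x _
      refine Subgroup.mem_zpowers_iff.2 ⟨Multiplicative.toAdd x, ?_⟩
      apply Multiplicative.toAdd.injective
      simp
    have h2 : p z = Multiplicative.ofAdd (1 : ℤ) ^ (Multiplicative.toAdd (p z)) := by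
      apply Multiplicative.toAdd.injective
      simp
    have h3 : Multiplicative.toAdd (p z) ≠ 0 := by
      intro h
      exact hpz (Multiplicative.toAdd.injective h)
    have h4 := zp_rel (Multiplicative.ofAdd (1 : ℤ)) h3
    rw [← h2, h1, Subgroup.relIndex_top_right] at h4
    exact h4
  have hcom : ∀ (n : p.ker) (k : Multiplicative ℤ), Commute (p.ker.subtype n) (zpowersHom M z k) := by
    intro n k
    rw [zpowersHom_apply]
    exact Commute.zpow_right (hz n) _
  let ψ : p.ker × Multiplicative ℤ →* M := MonoidHom.noncommCoprod p.ker.subtype (zpowersHom M z) hcom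
  have hψ : ∀ x : p.ker × Multiplicative ℤ, ψ x = (x.1 : M) * z ^ (Multiplicative.toAdd x.2) := fun x => rfl
  have htf : ∀ k : ℤ, (p z) ^ k = 1 → k = 0 := by
    intro k hk
    have h1 : k * Multiplicative.toAdd (p z) = 0 := by
      have h2 := congrArg Multiplicative.toAdd hk
      simpa using h2
    rcases mul_eq_zero.1 h1 with h2 | h2
    · exact h2
    · exact absurd (Multiplicative.toAdd.injective h2) hpz
  have hinj : Function.Injective ψ := by
    rw [injective_iff_map_eq_one]
    rintro ⟨n, k⟩ h
    rw [hψ] at h
    have h1 : (p z) ^ (Multiplicative.toAdd k) = 1 := by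
      have h2 := congrArg p h
      simp only [map_mul, map_zpow, map_one] at h2
      rw [show p (n : M) = 1 from n.2, one_mul] at h2
      exact h2
    have h3 := htf _ h1
    have h4 : k = 1 := Multiplicative.toAdd.injective h3
    subst h4
    simp only [toAdd_one, zpow_zero, mul_one] at h
    rw [Prod.mk_eq_one]
    exact ⟨Subtype.ext h, rfl⟩
  have hran : ψ.range = (Subgroup.zpowers (p z)).comap p := by
    ext g
    rw [MonoidHom.mem_range, Subgroup.mem_comap, Subgroup.mem_zpowers_iff]
    constructor
    · rintro ⟨⟨n, k⟩, rfl⟩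
      refine ⟨Multiplicative.toAdd k, ?_⟩
      rw [hψ, map_mul, map_zpow, show p (n : M) = 1 from n.2, one_mul]
    · rintro ⟨k, hk⟩
      have h1 : g * (z ^ k)⁻¹ ∈ p.ker := by
        rw [MonoidHom.mem_ker, map_mul, map_inv, map_zpow, hk, mul_inv_cancel]
      refine ⟨(⟨g * (z ^ k)⁻¹, h1⟩, Multiplicative.ofAdd k), ?_⟩
      rw [hψ]
      simp
  have hprod : C (p.ker × Multiplicative ℤ) := prod_mem hC hk hC.int
  have hfi' : ((Subgroup.zpowers (p z)).comap p).FiniteIndex := by
    refine ⟨?_⟩
    rw [Subgroup.index_comap]
    exact (inferInstance : ((Subgroup.zpowers (p z)).subgroupOf p.range).FiniteIndex).index_ne_zero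
  refine hC.index M ((Subgroup.zpowers (p z)).comap p) hfi' ?_
  rw [← hran]
  exact hC.iso _ _ (MonoidHom.ofInjective hinj) hprod

end Pool.Agent.H54.GC
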