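import Pool.Agent.H54.GC.ExT
import Pool.Agent.H75.CY.Spl
import Pool.Agent.H75.CY.Cpt

/-!
# The local condition and finitely generated subgroups

`coc_of_shift`: the cocycle on a subgroup `K` which is given by the condition `Shift` for a power of `c` in `K`. `splitIn_of_shift`:
elements which satisfy `Shift` are split in the sense of H75 CY. `shift_of_split`, `Shift.of_fg`, `AllShift.of_fg`: it is enough to
consider finitely generated subgroups.
-/

set_option autoImplicit false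

namespace Pool.Agent.H54.GC

open Pool.Agent.H75.CY
open Pool.Agent.H76.VC (Com mem_Com)
open Subgroup.Commensurable (commensurator)

/-- the normalised cocycle on a subgroup -/
theorem coc_of_shift {L : Type} [Group L] {c : L} (hc : ¬ IsOfFinOrder c) (hcm : Cmd c) {Δ : L →* ℚˣ} (hΔ : Mdl c Δ)
    (K : Subgroup L) {n : ℤ} (hn : n ≠ 0) (hnK : c ^ n ∈ K) (hS : Shift K ⟨c ^ n, hnK⟩) :
    ∃ b : L → ℚ, (∀ g ∈ K, ∀ h ∈ K, b (g * h) = b g + Δ g * b h) ∧ ∀ k : ℤ, c ^ k ∈ K → b (c ^ k) = k := by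
  have hst : ∀ g : L, g • (QuotientGroup.mk 1 : L ⧸ K) = QuotientGroup.mk 1 ↔ g ∈ K := by
    intro g
    have h1 : g • (QuotientGroup.mk 1 : L ⧸ K) = QuotientGroup.mk g := by
      show (QuotientGroup.mk (g • (1 : L)) : L ⧸ K) = _
      rw [smul_eq_mul, mul_one]
    rw [h1, eq_comm, QuotientGroup.eq, inv_one, one_mul]
  have hx : c ^ n • (QuotientGroup.mk 1 : L ⧸ K) = QuotientGroup.mk 1 := (hst _).2 hnK
  let φ : MulAction.stabilizer L (QuotientGroup.mk 1 : L ⧸ K) →* K :=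
    { toFun := fun g => ⟨(g : L), (hst _).1 g.2⟩
      map_one' := rfl
      map_mul' := fun _ _ => rfl }
  have hfo : ¬ IsOfFinOrder (φ ⟨c ^ n, hx⟩) := by
    intro h1
    have h2 : IsOfFinOrder (c ^ n) := Submonoid.isOfFinOrder_coe.2 h1
    obtain ⟨k, hk, h3⟩ := isOfFinOrder_iff_pow_eq_one.1 h2
    apply hc
    rw [isOfFinOrder_iff_zpow_eq_one]
    refine ⟨n * k, mul_ne_zero hn (by exact_mod_cast hk.ne'), ?_⟩
    rw [zpow_mul, zpow_natCast]
    exact h3
  obtain ⟨b, hb1, hb2⟩ := local_b hc hcm hΔ _ hn hx (Shift.of_map φ hfo hS)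
  exact ⟨b, fun g hg h hh => hb1 g h ((hst g).2 hg) ((hst h).2 hh), fun k hk => hb2 k ((hst _).2 hk)⟩

private theorem fin_sub {G : Type} [Group G] {H : Subgroup G} {x : H} (h : ¬ IsOfFinOrder (x : G)) : ¬ IsOfFinOrder x :=
  fun h1 => h (Submonoid.isOfFinOrder_coe.2 h1)

private theorem zpow_nf {G : Type} [Group G] {c : G} (hc : ¬ IsOfFinOrder c) {n : ℤ} (hn : n ≠ 0) :
    ¬ IsOfFinOrder (c ^ n) := by
  intro h
  obtain ⟨k, hk, h1⟩ := isOfFinOrder_iff_pow_eq_one.1 h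
  apply hc
  rw [isOfFinOrder_iff_zpow_eq_one]
  refine ⟨n * k, mul_ne_zero hn (by exact_mod_cast hk.ne'), ?_⟩
  rw [zpow_mul, zpow_natCast]
  exact h1

private theorem self_mem_Com {G : Type} [Group G] (c : G) : c ∈ Com c := mem_Com.2 ⟨1, 1, one_ne_zero, one_ne_zero, by group⟩

private theorem cmd_Com {G : Type} [Group G] (c : G) : Cmd (⟨c, self_mem_Com c⟩ : Com c) := by
  intro g
  obtain ⟨m, n, hm, hn, h⟩ := mem_Com.1 g.2
  exact ⟨m, n, hm, hn, Subtype.ext h⟩

/-- elements which satisfy the condition `Shift` are split -/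
theorem splitIn_of_shift {G : Type} [Group G] {c : G} (hc : ¬ IsOfFinOrder c) (E : Subgroup G) {n : ℤ} (hn : n ≠ 0)
    (hnE : c ^ n ∈ E) (hS : Shift E ⟨c ^ n, hnE⟩) : SplitIn E c := by
  intro H _ hHE hHC
  have hc' : ¬ IsOfFinOrder (⟨c, self_mem_Com c⟩ : Com c) := fin_sub hc
  obtain ⟨Δ, hΔ⟩ := exists_dl hc' (cmd_Com c)
  have hnK : (⟨c, self_mem_Com c⟩ : Com c) ^ n ∈ E.subgroupOf (Com c) := Subgroup.mem_subgroupOf.2 hnE
  let φ : E.subgroupOf (Com c) →* E :=
    { toFun := fun x => ⟨((x : Com c) : G), Subgroup.mem_subgroupOf.1 x.2⟩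
      map_one' := rfl
      map_mul' := fun _ _ => rfl }
  have hfo : ¬ IsOfFinOrder (φ ⟨(⟨c, self_mem_Com c⟩ : Com c) ^ n, hnK⟩) := by
    refine fin_sub ?_
    exact zpow_nf hc hn
  obtain ⟨b, hb1, hb2⟩ := coc_of_shift hc' (cmd_Com c) hΔ (E.subgroupOf (Com c)) hn hnK (Shift.of_map φ hfo hS)
  refine ⟨Δ.comp (Subgroup.inclusion hHC), fun x => b ⟨(x : G), hHC x.2⟩, ?_, ?_⟩
  · intro g h
    exact hb1 ⟨(g : G), hHC g.2⟩ (Subgroup.mem_subgroupOf.2 (hHE g.2)) ⟨(h : G), hHC h.2⟩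
      (Subgroup.mem_subgroupOf.2 (hHE h.2))
  · intro j hj hj0
    have h1 : (⟨c ^ j, hHC hj⟩ : Com c) = (⟨c, self_mem_Com c⟩ : Com c) ^ j := rfl
    refine ⟨?_, ?_⟩
    · show Δ ⟨c ^ j, hHC hj⟩ = 1
      rw [h1, Mdl.pow hΔ j]
    · show b ⟨c ^ j, hHC hj⟩ ≠ 0
      have h2 := hb2 j (by
        rw [← h1]
        exact Subgroup.mem_subgroupOf.2 (hHE hj))
      rw [h1, h2]
      exact_mod_cast hj0

/-- the form which is used for the vertex stabilisers -/
theorem splitIn_stab {G V : Type} [Group G] [MulAction G V] {c : G} (hc : ¬ IsOfFinOrder c) {v : V} {n : ℤ} (hn : n ≠ 0)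
    (hv : c ^ n • v = v) (hS : Shift (MulAction.stabilizer G v) ⟨c ^ n, hv⟩) :
    SplitIn (MulAction.stabilizer G v) c :=
  splitIn_of_shift hc _ hn hv hS

/-- from cocycles on the finitely generated subgroups of the commensurator -/
theorem shift_of_cr {G : Type} [Group G] {c : G} (hc : ¬ IsOfFinOrder c)
    (h : ∀ (Δ : Com c →* ℚˣ), Mdl (⟨c, self_mem_Com c⟩ : Com c) Δ → ∀ H : Subgroup (Com c), H.FG →
      ∃ f : Com c → ℚ, Cr Δ ⟨c, self_mem_Com c⟩ H f) : Shift G c := by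
  have hc' : ¬ IsOfFinOrder (⟨c, self_mem_Com c⟩ : Com c) := fin_sub hc
  obtain ⟨Δ, hΔ⟩ := exists_dl hc' (cmd_Com c)
  have hΔc : Δ ⟨c, self_mem_Com c⟩ = 1 := by
    have h1 := Mdl.pow hΔ 1
    rwa [zpow_one] at h1
  obtain ⟨f, hf1, hf2⟩ := cr_compact hΔc (E := ⊤) (fun H hH _ => h Δ hΔ H hH)
  have h1 := hf2 1 (Subgroup.mem_top _)
  rw [zpow_one] at h1
  have hS : Shift (Com c) ⟨c, self_mem_Com c⟩ :=
    Shift.of_cocycle Δ f (fun g h => hf1 g (Subgroup.mem_top g) h (Subgroup.mem_top h)) hΔc (by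
      rw [h1]
      norm_num)
  refine Shift.of_commensurator hc fun hcm => ?_
  let ψ : ↥(commensurator (Subgroup.zpowers c)) →* Com c :=
    { toFun := fun g => ⟨(g : G), mem_Com.2 ((mem_comm hc _).1 g.2)⟩
      map_one' := rfl
      map_mul' := fun _ _ => rfl }
  exact Shift.of_map ψ hc' hS

/-- split elements satisfy the condition `Shift` -/
theorem shift_of_split {G : Type} [Group G] {c : G} (hc : ¬ IsOfFinOrder c) (h : SplitIn (⊤ : Subgroup G) c) :
    Shift G c := by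
  classical
  refine shift_of_cr hc fun Δ hΔ H hH => ?_
  have hc' : ¬ IsOfFinOrder (⟨c, self_mem_Com c⟩ : Com c) := fin_sub hc
  refine norm_fg (E := ⊤) hc' (fun g => ?_) (fun g m n hmn => (hΔ g m n hmn).symm) ?_ hH le_top
  · obtain ⟨m, n, hm, hn, h1⟩ := mem_Com.1 g.2
    exact mem_Com.2 ⟨m, n, hm, hn, Subtype.ext h1⟩
  · intro H' hH' _ _
    have h2 : H'.map (Com c).subtype ≤ Com c := by
      rintro _ ⟨x, _, rfl⟩
      exact x.2
    have hfg : (H'.map (Com c).subtype).FG := by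
      obtain ⟨S, hS⟩ := hH'
      exact ⟨S.image (Com c).subtype, by rw [Finset.coe_image, ← MonoidHom.map_closure, hS]⟩
    obtain ⟨D, f, hf, hj⟩ := h (H'.map (Com c).subtype) hfg le_top h2
    let e : H' →* H'.map (Com c).subtype :=
      { toFun := fun x => ⟨((x : Com c) : G), ⟨(x : Com c), x.2, rfl⟩⟩
        map_one' := rfl
        map_mul' := fun _ _ => rfl }
    refine ⟨D.comp e, fun x => f (e x), fun x y => ?_, fun j hjH hj0 => ?_⟩
    · have h4 := hf (e x) (e y)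
      rw [← map_mul] at h4
      exact h4
    · have h5 : c ^ j ∈ H'.map (Com c).subtype := ⟨(⟨c, self_mem_Com c⟩ : Com c) ^ j, hjH, rfl⟩
      exact hj j h5 hj0

/-- it is enough to consider the finitely generated subgroups which contain the element -/
theorem Shift.of_fg {G : Type} [Group G] {c : G} (hc : ¬ IsOfFinOrder c)
    (h : ∀ (H : Subgroup G) (hcH : c ∈ H), H.FG → Shift H ⟨c, hcH⟩) : Shift G c := by
  classical
  refine shift_of_cr hc fun Δ hΔ H hH => ?_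
  have hc' : ¬ IsOfFinOrder (⟨c, self_mem_Com c⟩ : Com c) := fin_sub hc
  obtain ⟨S, hS⟩ := hH
  obtain ⟨K, hK⟩ : ∃ K : Subgroup (Com c),
      K = Subgroup.closure ((insert (⟨c, self_mem_Com c⟩ : Com c) S : Finset (Com c)) : Set (Com c)) := ⟨_, rfl⟩
  have hHK : H ≤ K := by
    rw [← hS, hK]
    refine Subgroup.closure_mono ?_
    intro x hx
    rw [Finset.mem_coe] at hx ⊢
    exact Finset.mem_insert_of_mem hx
  have hcK : (⟨c, self_mem_Com c⟩ : Com c) ∈ K := by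
    rw [hK]
    refine Subgroup.subset_closure ?_
    rw [Finset.mem_coe]
    exact Finset.mem_insert_self _ _
  have hfg : (K.map (Com c).subtype).FG := by
    refine ⟨(insert (⟨c, self_mem_Com c⟩ : Com c) S).image (Com c).subtype, ?_⟩
    rw [Finset.coe_image, ← MonoidHom.map_closure, hK]
  have hcK' : c ∈ K.map (Com c).subtype := ⟨_, hcK, rfl⟩
  have hSh := h _ hcK' hfg
  let e : K →* K.map (Com c).subtype :=
    { toFun := fun x => ⟨((x : Com c) : G), ⟨(x : Com c), x.2, rfl⟩⟩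
      map_one' := rfl
      map_mul' := fun _ _ => rfl }
  have hc1 : (⟨c, self_mem_Com c⟩ : Com c) ^ (1 : ℤ) ∈ K := by
    rw [zpow_one]
    exact hcK
  have he : e ⟨(⟨c, self_mem_Com c⟩ : Com c) ^ (1 : ℤ), hc1⟩ = ⟨c, hcK'⟩ := by
    apply Subtype.ext
    show c ^ (1 : ℤ) = c
    rw [zpow_one]
  obtain ⟨b, hb1, hb2⟩ := coc_of_shift hc' (cmd_Com c) hΔ K one_ne_zero hc1 (Shift.of_map e (by
    rw [he]
    exact fin_sub hc) (by
    rw [he]
    exact hSh))
  exact ⟨b, fun g hg k hk => hb1 g (hHK hg) k (hHK hk), fun j hj => hb2 j (hHK hj)⟩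

/-- directed unions: it is enough to consider the finitely generated subgroups -/
theorem AllShift.of_fg {G : Type} [Group G] (h : ∀ H : Subgroup G, H.FG → AllShift H) : AllShift G := by
  intro c hc
  exact Shift.of_fg hc fun H hcH hH => h H hH _ (fin_sub hc)

theorem shift_iff_split {G : Type} [Group G] {c : G} (hc : ¬ IsOfFinOrder c) : Shift G c ↔ SplitIn (⊤ : Subgroup G) c := by
  refine ⟨fun h => ?_, shift_of_split hc⟩
  have h1 : c ^ (1 : ℤ) ∈ (⊤ : Subgroup G) := Subgroup.mem_top _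
  refine splitIn_of_shift hc ⊤ one_ne_zero h1 ?_
  have e : (⊤ : Subgroup G).subtype ⟨c ^ (1 : ℤ), h1⟩ = c := by
    show c ^ (1 : ℤ) = c
    rw [zpow_one]
  refine Shift.of_map (⊤ : Subgroup G).subtype ?_ ?_
  · rw [e]
    exact hc
  · rw [e]
    exact h

end Pool.Agent.H54.GC
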