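import Mathlib

/-!
# The modular character
-/

set_option autoImplicit false

namespace Pool.Agent.H54.GC

/-- every element conjugates a power of `c` to a power of `c` -/
def Cmd {L : Type} [Group L] (c : L) : Prop := ∀ g : L, ∃ m n : ℤ, m ≠ 0 ∧ n ≠ 0 ∧ g * c ^ m * g⁻¹ = c ^ n

/-- `Δ` is the modular character -/
def Mdl {L : Type} [Group L] (c : L) (Δ : L →* ℚˣ) : Prop := ∀ (g : L) (m n : ℤ), g * c ^ m * g⁻¹ = c ^ n → (n : ℚ) = Δ g * m

theorem zpow_inj {L : Type} [Group L] {c : L} (hc : ¬ IsOfFinOrder c) {a b : ℤ} (h : c ^ a = c ^ b) : a = b := by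
  by_contra hne
  apply hc
  rw [isOfFinOrder_iff_zpow_eq_one]
  refine ⟨a - b, sub_ne_zero.2 hne, ?_⟩
  rw [zpow_sub, h, mul_inv_cancel]

theorem conj_pow_pow {L : Type} [Group L] {c g : L} {m n : ℤ} (h : g * c ^ m * g⁻¹ = c ^ n) (k : ℤ) :
    g * c ^ (m * k) * g⁻¹ = c ^ (n * k) := by
  rw [zpow_mul, zpow_mul, ← h, conj_zpow]

theorem dl_unique {L : Type} [Group L] {c : L} (hc : ¬ IsOfFinOrder c) {g : L} {m n m' n' : ℤ}
    (h : g * c ^ m * g⁻¹ = c ^ n) (h' : g * c ^ m' * g⁻¹ = c ^ n') : n * m' = n' * m := by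
  apply zpow_inj hc
  rw [← conj_pow_pow h m', ← conj_pow_pow h' m, mul_comm m m']

theorem exists_dl {L : Type} [Group L] {c : L} (hc : ¬ IsOfFinOrder c) (hcm : Cmd c) : ∃ Δ : L →* ℚˣ, Mdl c Δ := by
  choose m n hm hn hg using hcm
  have hne : ∀ g, (n g : ℚ) / m g ≠ 0 := fun g =>
    div_ne_zero (by exact_mod_cast hn g) (by exact_mod_cast hm g)
  refine ⟨MonoidHom.mk' (fun g => Units.mk0 ((n g : ℚ) / m g) (hne g)) ?_, ?_⟩
  · intro g h
    ext
    rw [Units.val_mul, Units.val_mk0, Units.val_mk0, Units.val_mk0]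
    have h1 : (g * h) * c ^ (m h * m g) * (g * h)⁻¹ = c ^ (n h * n g) := by
      have h2 := conj_pow_pow (hg h) (m g)
      have h3 := conj_pow_pow (hg g) (n h)
      rw [mul_comm (m g) (n h)] at h3
      calc (g * h) * c ^ (m h * m g) * (g * h)⁻¹ = g * (h * c ^ (m h * m g) * h⁻¹) * g⁻¹ := by group
        _ = c ^ (n g * n h) := by rw [h2, h3]
        _ = c ^ (n h * n g) := by rw [mul_comm]
    have h4 := dl_unique hc (hg (g * h)) h1
    have e1 : (m (g * h) : ℚ) ≠ 0 := by exact_mod_cast hm (g * h)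
    have e2 : (m g : ℚ) ≠ 0 := by exact_mod_cast hm g
    have e3 : (m h : ℚ) ≠ 0 := by exact_mod_cast hm h
    have h5 : (n (g * h) : ℚ) * (m h * m g) = n h * n g * m (g * h) := by exact_mod_cast h4
    field_simp
    linarith
  · intro g m' n' h
    show (n' : ℚ) = ((n g : ℚ) / m g) * m'
    have h4 := dl_unique hc (hg g) h
    have e2 : (m g : ℚ) ≠ 0 := by exact_mod_cast hm g
    have h5 : (n g : ℚ) * m' = n' * m g := by exact_mod_cast h4
    field_simp
    linarith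

/-- powers of `c` have modulus one -/
theorem Mdl.pow {L : Type} [Group L] {c : L} {Δ : L →* ℚˣ} (h : Mdl c Δ) (n : ℤ) : Δ (c ^ n) = 1 := by
  have h1 := h (c ^ n) 1 1 (by group)
  ext
  rw [Units.val_one]
  simpa using h1.symm

end Pool.Agent.H54.GC
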