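import Pool.Agent.H54.GC.Loc
import Pool.Agent.H54.GC.Coc
import Mathlib.Algebra.Category.Grp.Injective

/-!
# Groups which satisfy the local condition

`AllShift H`: the condition `Shift H c` for all elements `c` of infinite order. It holds if the commensurators of the infinite cyclic
subgroups are virtually commutative (`AllShift.of_comm`), for instance for hyperbolic groups, torsion-free CSA groups and virtually abelian
groups, and it is inherited by subgroups, finite products and overgroups of finite index.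
-/

set_option autoImplicit false

namespace Pool.Agent.H54.GC

open Subgroup.Commensurable (commensurator)

/-- the local condition for all elements of infinite order -/
def AllShift (H : Type) [Group H] : Prop := ∀ c : H, ¬ IsOfFinOrder c → Shift H c

/-- homomorphisms which map `c` to an element of infinite order -/
theorem Shift.of_map {H H' : Type} [Group H] [Group H'] (φ : H →* H') {c : H} (hc' : ¬ IsOfFinOrder (φ c))
    (h : Shift H' (φ c)) : Shift H c := by
  have hc : ¬ IsOfFinOrder c := fun h1 => hc' (φ.isOfFinOrder h1)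
  obtain ⟨f, t, ht, hf⟩ := h
  have hm : ∀ g : ↥(commensurator (Subgroup.zpowers c)),
      (φ.comp (commensurator (Subgroup.zpowers c)).subtype) g ∈ commensurator (Subgroup.zpowers (φ c)) := by
    intro g
    obtain ⟨m, n, h1, h2, h3⟩ := (mem_comm hc (g : H)).1 g.2
    refine (mem_comm hc' _).2 ⟨m, n, h1, h2, ?_⟩
    have h4 := congrArg φ h3
    rw [map_mul, map_mul, map_zpow, map_inv, map_zpow] at h4
    exact h4
  refine ⟨f.comp ((φ.comp (commensurator (Subgroup.zpowers c)).subtype).codRestrict _ hm), t, ht, ?_⟩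
  intro g hg q
  refine hf _ ?_ q
  show φ (g : H) = φ c
  rw [hg]

/-- it is enough to consider the commensurator -/
theorem Shift.of_commensurator {H : Type} [Group H] {c : H} (hc : ¬ IsOfFinOrder c)
    (h : ∀ hcm : c ∈ commensurator (Subgroup.zpowers c), Shift (commensurator (Subgroup.zpowers c)) ⟨c, hcm⟩) :
    Shift H c := by
  have hcm : c ∈ commensurator (Subgroup.zpowers c) := (mem_comm hc c).2 ⟨1, 1, one_ne_zero, one_ne_zero, by group⟩
  obtain ⟨f, t, ht, hf⟩ := h hcm
  have hc' : ¬ IsOfFinOrder (⟨c, hcm⟩ : commensurator (Subgroup.zpowers c)) := fun h1 =>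
    hc (Submonoid.isOfFinOrder_coe.2 h1)
  have hm : ∀ g : ↥(commensurator (Subgroup.zpowers c)), (MonoidHom.id (commensurator (Subgroup.zpowers c))) g ∈
      commensurator (Subgroup.zpowers (⟨c, hcm⟩ : commensurator (Subgroup.zpowers c))) := by
    intro g
    obtain ⟨m, n, h1, h2, h3⟩ := (mem_comm hc (g : H)).1 g.2
    exact (mem_comm hc' _).2 ⟨m, n, h1, h2, Subtype.ext h3⟩
  refine ⟨f.comp ((MonoidHom.id _).codRestrict _ hm), t, ht, ?_⟩
  intro g hg q
  exact hf _ (Subtype.ext hg) q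

/-- the affine map `q ↦ b + a * q` -/
private def affOf (a : ℚˣ) (b : ℚ) : ℚ ≃ᵃ[ℚ] ℚ where
  toFun q := b + a * q
  invFun q := (a : ℚ)⁻¹ * (q - b)
  left_inv q := by
    have : (a : ℚ) ≠ 0 := a.ne_zero
    field_simp
    ring
  right_inv q := by
    have : (a : ℚ) ≠ 0 := a.ne_zero
    field_simp
    ring
  linear := LinearEquiv.smulOfNeZero ℚ ℚ (a : ℚ) a.ne_zero
  map_vadd' p v := by
    show b + a * (v + p) = a * v + (b + a * p)
    ring

private theorem affOf_apply (a : ℚˣ) (b q : ℚ) : affOf a b q = b + a * q := rfl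

/-- cocycles give homomorphisms to the affine group -/
theorem Shift.of_cocycle {H : Type} [Group H] {c : H} (Δ : H →* ℚˣ) (β : H → ℚ)
    (hβ : ∀ g h, β (g * h) = β g + Δ g * β h) (hΔc : Δ c = 1) (h : β c ≠ 0) : Shift H c := by
  refine ⟨(MonoidHom.mk' (fun g : H => affOf (Δ g) (β g)) ?_).comp (commensurator (Subgroup.zpowers c)).subtype,
    β c, h, ?_⟩
  · intro g h
    ext q
    rw [AffineEquiv.coe_mul, Function.comp_apply, affOf_apply, affOf_apply, affOf_apply, hβ, map_mul]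
    push_cast
    ring
  · intro g hg q
    show affOf (Δ (g : H)) (β (g : H)) q = q + β c
    rw [hg, affOf_apply, hΔc, Units.val_one]
    ring

private theorem coc_one {L : Type} [Group L] {Δ : L →* ℚˣ} {P : Subgroup L} {β : L → ℚ}
    (hβ : ∀ g ∈ P, ∀ h ∈ P, β (g * h) = β g + Δ g * β h) : β 1 = 0 := by
  have h := hβ 1 P.one_mem 1 P.one_mem
  rw [mul_one, map_one, Units.val_one, one_mul] at h
  linarith

private theorem coc_zpow {L : Type} [Group L] {Δ : L →* ℚˣ} {P : Subgroup L} {β : L → ℚ}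
    (hβ : ∀ g ∈ P, ∀ h ∈ P, β (g * h) = β g + Δ g * β h) {u : L} (hu : u ∈ P) (h1 : Δ u = 1) (n : ℤ) :
    β (u ^ n) = n * β u := by
  have hnat : ∀ k : ℕ, β (u ^ k) = k * β u := by
    intro k
    induction k with
    | zero =>
      rw [pow_zero, coc_one hβ, Nat.cast_zero, zero_mul]
    | succ k ih =>
      rw [pow_succ, hβ _ (P.pow_mem hu k) _ hu, ih, map_pow, h1, one_pow, Units.val_one]
      push_cast
      ring
  obtain ⟨k, rfl | rfl⟩ := n.eq_nat_or_neg
  · rw [zpow_natCast, hnat]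
    push_cast
    ring
  · have h2 := hβ _ (P.inv_mem (P.pow_mem hu k)) _ (P.pow_mem hu k)
    rw [inv_mul_cancel, coc_one hβ, map_inv, map_pow, h1, one_pow, inv_one, Units.val_one, hnat] at h2
    rw [zpow_neg, zpow_natCast]
    push_cast
    linarith

private theorem dl_self {L : Type} [Group L] {c : L} {Δ : L →* ℚˣ} (hΔ : Mdl c Δ) : Δ c = 1 := by
  have h := hΔ c 1 1 (by group)
  apply Units.ext
  rw [Units.val_one]
  push_cast at h
  linarith

/-- the values of a cocycle on the conjugates of the powers of `c` -/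
private theorem coc_conj {L : Type} [Group L] {c : L} (hcm : Cmd c) {Δ : L →* ℚˣ} (hΔ : Mdl c Δ) {P : Subgroup L}
    {b : L → ℚ} (hb : ∀ g ∈ P, ∀ h ∈ P, b (g * h) = b g + Δ g * b h) {k : ℤ} (hk : k ≠ 0) (hkP : c ^ k ∈ P) (w : L)
    (N : ℤ) (hw : w⁻¹ * c ^ N * w ∈ P) : Δ w * b (w⁻¹ * c ^ N * w) = N * (b (c ^ k) / k) := by
  have hΔcn : ∀ n : ℤ, Δ (c ^ n) = 1 := by
    intro n
    rw [map_zpow, dl_self hΔ, one_zpow]
  have hΔu : Δ (w⁻¹ * c ^ N * w) = 1 := by
    rw [map_mul, map_mul, hΔcn, mul_one, map_inv, inv_mul_cancel]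
  obtain ⟨p, q, hp, hq, hpq⟩ := hcm w⁻¹
  have hΔw := hΔ w⁻¹ p q hpq
  rw [inv_inv] at hpq
  have hc1 : ∀ (x : L) (m : ℤ), (w⁻¹ * x * w) ^ m = w⁻¹ * x ^ m * w := by
    intro x m
    have h3 : ∀ y : L, w⁻¹ * y * w = MulAut.conj w⁻¹ y := by
      intro y
      rw [MulAut.conj_apply, inv_inv]
    rw [h3, h3, map_zpow]
  have h2 : (w⁻¹ * c ^ N * w) ^ (p * k) = (c ^ k) ^ (N * q) := by
    rw [hc1, ← zpow_mul, show N * (p * k) = p * (N * k) by ring, zpow_mul, ← hc1, hpq, ← zpow_mul, ← zpow_mul]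
    congr 1
    ring
  have h3 := coc_zpow hb hw hΔu (p * k)
  have h4 := coc_zpow hb hkP (hΔcn k) (N * q)
  rw [h2, h4] at h3
  have hp' : (p : ℚ) ≠ 0 := by exact_mod_cast hp
  have hk' : (k : ℚ) ≠ 0 := by exact_mod_cast hk
  have hw' : ((Δ w : ℚˣ) : ℚ) ≠ 0 := Units.ne_zero _
  rw [map_inv] at hΔw
  push_cast at hΔw h3
  have h5 : ((Δ w : ℚˣ) : ℚ) * q = p := by
    rw [hΔw]
    field_simp
  have h6 : (p * k : ℚ) * (Δ w * b (w⁻¹ * c ^ N * w)) = (p * k : ℚ) * (N * (b (c ^ k) / k)) := by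
    have h7 : (p * k : ℚ) * (Δ w * b (w⁻¹ * c ^ N * w)) = Δ w * (p * k * b (w⁻¹ * c ^ N * w)) := by ring
    rw [h7, ← h3]
    have h8 : ((Δ w : ℚˣ) : ℚ) * (N * q * b (c ^ k)) = N * b (c ^ k) * (Δ w * q) := by ring
    rw [h8, h5]
    field_simp
  exact mul_left_cancel₀ (mul_ne_zero hp' hk') h6

/-- transfer of cocycles -/
theorem transfer_coc {M : Type} [Group M] {c : M} (hcm : Cmd c) {Δ : M →* ℚˣ} (hΔ : Mdl c Δ) (K : Subgroup M)
    (hK : K.FiniteIndex) (b : M → ℚ) (hb : ∀ g ∈ K, ∀ h ∈ K, b (g * h) = b g + Δ g * b h) {k : ℤ}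
    (hkK : c ^ k ∈ K) (hbk : b (c ^ k) ≠ 0) :
    ∃ β : M → ℚ, (∀ g h, β (g * h) = β g + Δ g * β h) ∧ β c ≠ 0 := by
  classical
  have hk : k ≠ 0 := by
    rintro rfl
    rw [zpow_zero, coc_one hb] at hbk
    exact hbk rfl
  haveI : Fintype (M ⧸ K) := Subgroup.fintypeQuotientOfFiniteIndex
  -- the cocycles of the stabilisers of the cosets
  have hst : ∀ (x : M ⧸ K) (g : M), g • x = x → x.out⁻¹ * g * x.out ∈ K := by
    intro x g hg
    have h1 : (QuotientGroup.mk x.out : M ⧸ K) = x := Quotient.out_eq' x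
    have h2 : (QuotientGroup.mk (g * x.out) : M ⧸ K) = QuotientGroup.mk x.out := by
      rw [h1]
      conv_rhs => rw [← hg]
      conv_rhs => rw [← h1]
      rfl
    have h3 := QuotientGroup.eq.1 h2.symm
    rwa [← mul_assoc] at h3
  obtain ⟨κ, hκ, hκx⟩ := induced Δ (fun (x : M ⧸ K) g => Δ x.out * b (x.out⁻¹ * g * x.out)) (by
    intro x g h hg hh
    have h1 := hb _ (hst x g hg) _ (hst x h hh)
    have h2 : x.out⁻¹ * g * x.out * (x.out⁻¹ * h * x.out) = x.out⁻¹ * (g * h) * x.out := by group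
    rw [h2] at h1
    have h3 : Δ (x.out⁻¹ * g * x.out) = Δ g := by
      rw [map_mul, map_mul, map_inv, mul_comm, mul_inv_cancel_left]
    rw [h3] at h1
    show Δ x.out * b (x.out⁻¹ * (g * h) * x.out) = Δ x.out * b (x.out⁻¹ * g * x.out) + Δ g * (Δ x.out * b (x.out⁻¹ * h * x.out))
    rw [h1]
    ring)
  have hβ : ∀ g h, (∑ x, κ (g * h) x) = (∑ x, κ g x) + Δ g * ∑ x, κ h x := by
    intro g h
    simp only [hκ]
    rw [Finset.sum_add_distrib, Finset.mul_sum]
    congr 1
    exact Equiv.sum_comp (MulAction.toPerm h) (fun x => κ g x)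
  refine ⟨fun g => ∑ x, κ g x, hβ, ?_⟩
  -- a power of `c` in the normal core
  have hcore : K.normalCore.index ≠ 0 := Subgroup.FiniteIndex.index_ne_zero
  obtain ⟨N, hN, -, hNc⟩ := Subgroup.exists_pow_mem_of_index_ne_zero hcore c
  have hfix : ∀ x : M ⧸ K, c ^ (N : ℤ) • x = x := by
    intro x
    rw [Subgroup.normalCore_eq_ker] at hNc
    have h1 := congrArg (fun e : Equiv.Perm (M ⧸ K) => e x) (MonoidHom.mem_ker.1 hNc)
    rw [zpow_natCast]
    exact h1
  have hval : ∀ x : M ⧸ K, κ (c ^ (N : ℤ)) x = N * (b (c ^ k) / k) := by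
    intro x
    obtain ⟨g, y, hgy, h1⟩ := hκx x
    rw [h1 _ (hfix x)]
    have h2 : (g⁻¹ * c ^ (N : ℤ) * g) • y = y := by
      rw [mul_smul, mul_smul, hgy, hfix x, inv_smul_eq_iff, hgy]
    have h3 := hst y _ h2
    have h4 : y.out⁻¹ * (g⁻¹ * c ^ (N : ℤ) * g) * y.out = (g * y.out)⁻¹ * c ^ (N : ℤ) * (g * y.out) := by group
    rw [h4] at h3
    have h5 := coc_conj hcm hΔ hb hk hkK (g * y.out) N h3
    show Δ g * (Δ y.out * b (y.out⁻¹ * (g⁻¹ * c ^ (N : ℤ) * g) * y.out)) = _
    rw [h4]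
    rw [map_mul] at h5
    push_cast at h5 ⊢
    rw [← h5]
    ring
  have hz := coc_zpow (P := ⊤) (β := fun g => ∑ x, κ g x) (fun g _ h _ => hβ g h) (Subgroup.mem_top c) (dl_self hΔ) N
  intro h0
  have h1 : (∑ x : M ⧸ K, κ (c ^ (N : ℤ)) x) = N * ∑ x, κ c x := hz
  have h2 : (∑ x : M ⧸ K, κ c x) = 0 := h0
  rw [h2, mul_zero] at h1
  simp only [hval] at h1
  rw [Finset.sum_const, Finset.card_univ, nsmul_eq_mul] at h1
  have hk' : (k : ℚ) ≠ 0 := by exact_mod_cast hk
  have hN' : (N : ℚ) ≠ 0 := by exact_mod_cast hN.ne'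
  have hcard : (Fintype.card (M ⧸ K) : ℚ) ≠ 0 := by exact_mod_cast Fintype.card_ne_zero
  exact mul_ne_zero hcard (mul_ne_zero hN' (div_ne_zero hbk hk')) h1

/-- overgroups of finite index -/
theorem Shift.of_finiteIndex {H : Type} [Group H] {c : H} (hc : ¬ IsOfFinOrder c) (K : Subgroup H) (hK : K.FiniteIndex)
    (h : ∀ (k : ℕ) (hk : c ^ k ∈ K), k ≠ 0 → Shift K ⟨c ^ k, hk⟩) : Shift H c := by
  refine Shift.of_commensurator hc fun hcm => ?_
  have hc' : ¬ IsOfFinOrder (⟨c, hcm⟩ : commensurator (Subgroup.zpowers c)) := fun h1 =>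
    hc (Submonoid.isOfFinOrder_coe.2 h1)
  have hcmd : Cmd (⟨c, hcm⟩ : commensurator (Subgroup.zpowers c)) := by
    intro g
    obtain ⟨m, n, h1, h2, h3⟩ := (mem_comm hc (g : H)).1 g.2
    exact ⟨m, n, h1, h2, Subtype.ext h3⟩
  obtain ⟨Δ, hΔ⟩ := exists_dl hc' hcmd
  have hKi : K.index ≠ 0 := hK.index_ne_zero
  obtain ⟨k, hk, -, hkK⟩ := Subgroup.exists_pow_mem_of_index_ne_zero hKi c
  -- the action on the cosets of the intersection with `K`
  let K' : Subgroup (commensurator (Subgroup.zpowers c)) := K.subgroupOf (commensurator (Subgroup.zpowers c))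
  have hK' : K'.FiniteIndex := by
    show (K.subgroupOf (commensurator (Subgroup.zpowers c))).FiniteIndex
    infer_instance
  have hst : ∀ g : commensurator (Subgroup.zpowers c),
      g • (QuotientGroup.mk 1 : commensurator (Subgroup.zpowers c) ⧸ K') = QuotientGroup.mk 1 ↔ (g : H) ∈ K := by
    intro g
    have h1 : g • (QuotientGroup.mk 1 : commensurator (Subgroup.zpowers c) ⧸ K') = QuotientGroup.mk g := by
      show (QuotientGroup.mk (g • (1 : commensurator (Subgroup.zpowers c))) : commensurator (Subgroup.zpowers c) ⧸ K') = _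
      rw [smul_eq_mul, mul_one]
    rw [h1, eq_comm, QuotientGroup.eq, inv_one, one_mul]
    exact Subgroup.mem_subgroupOf
  have hkn : (k : ℤ) ≠ 0 := by exact_mod_cast hk.ne'
  have hx : (⟨c, hcm⟩ : commensurator (Subgroup.zpowers c)) ^ (k : ℤ) •
      (QuotientGroup.mk 1 : commensurator (Subgroup.zpowers c) ⧸ K') = QuotientGroup.mk 1 := by
    rw [hst, zpow_natCast]
    exact hkK
  let φ : MulAction.stabilizer (commensurator (Subgroup.zpowers c))
      (QuotientGroup.mk 1 : commensurator (Subgroup.zpowers c) ⧸ K') →* K :=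
    { toFun := fun g => ⟨((g : commensurator (Subgroup.zpowers c)) : H), (hst _).1 g.2⟩
      map_one' := rfl
      map_mul' := fun _ _ => rfl }
  have hφc : φ ⟨⟨c, hcm⟩ ^ (k : ℤ), hx⟩ = ⟨c ^ k, hkK⟩ := by
    apply Subtype.ext
    show ((⟨c, hcm⟩ ^ (k : ℤ) : commensurator (Subgroup.zpowers c)) : H) = c ^ k
    rw [zpow_natCast]
    rfl
  have hfo : ¬ IsOfFinOrder (φ ⟨⟨c, hcm⟩ ^ (k : ℤ), hx⟩) := by
    rw [hφc]
    intro h1
    have h2 : IsOfFinOrder (c ^ k) := Submonoid.isOfFinOrder_coe.2 h1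
    exact hc ((isOfFinOrder_pow.1 h2).resolve_right hk.ne')
  have hS : Shift (MulAction.stabilizer (commensurator (Subgroup.zpowers c))
      (QuotientGroup.mk 1 : commensurator (Subgroup.zpowers c) ⧸ K')) ⟨⟨c, hcm⟩ ^ (k : ℤ), hx⟩ := by
    refine Shift.of_map φ hfo ?_
    rw [hφc]
    exact h k hkK hk.ne'
  obtain ⟨b, hb1, hb2⟩ := local_b hc' hcmd hΔ _ hkn hx hS
  have hb3 := hb2 k hx
  obtain ⟨β, hβ, hβc⟩ := transfer_coc hcmd hΔ K' hK' b (by
    intro g hg h hh
    exact hb1 g h ((hst g).2 (Subgroup.mem_subgroupOf.1 hg)) ((hst h).2 (Subgroup.mem_subgroupOf.1 hh)))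
    (k := k) (Subgroup.mem_subgroupOf.2 ((hst _).1 hx)) (by
    rw [hb3]
    exact_mod_cast hk.ne')
  exact Shift.of_cocycle Δ β hβ (dl_self hΔ) hβc

/-- commutative groups -/
theorem Shift.of_commGroup {A : Type} [CommGroup A] {c : A} (hc : ¬ IsOfFinOrder c) : Shift A c := by
  have hinj : Function.Injective (zmultiplesHom (Additive A) (Additive.ofMul c)) := by
    rw [injective_iff_map_eq_zero]
    intro n hn
    by_contra h0
    apply hc
    rw [isOfFinOrder_iff_zpow_eq_one]
    exact ⟨n, h0, hn⟩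
  obtain ⟨f, hf⟩ := (Module.Baer.of_divisible ℚ).extension_property_addMonoidHom
    (zmultiplesHom (Additive A) (Additive.ofMul c)) hinj (Int.castAddHom ℚ)
  have h1 : f (Additive.ofMul c) = 1 := by
    have h2 := DFunLike.congr_fun hf (1 : ℤ)
    rw [AddMonoidHom.comp_apply, zmultiplesHom_apply, one_zsmul] at h2
    rw [h2]
    simp
  refine Shift.of_cocycle 1 (fun g => f (Additive.ofMul g)) ?_ rfl ?_
  · intro g h
    rw [MonoidHom.one_apply, Units.val_one, one_mul, ← map_add]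
    rfl
  · rw [h1]
    exact one_ne_zero

theorem AllShift.of_commGroup {A : Type} [Group A] (h : ∀ a b : A, a * b = b * a) : AllShift A := by
  letI : CommGroup A := { (inferInstance : Group A) with mul_comm := h }
  intro c hc
  exact Shift.of_commGroup (A := A) hc

theorem AllShift.of_injective {H H' : Type} [Group H] [Group H'] (φ : H →* H') (hφ : Function.Injective φ)
    (h : AllShift H') : AllShift H := by
  intro c hc
  have hc' : ¬ IsOfFinOrder (φ c) := fun h1 => hc ((isOfFinOrder_iff_pow_eq_one).2 (by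
    obtain ⟨k, hk, h2⟩ := isOfFinOrder_iff_pow_eq_one.1 h1
    exact ⟨k, hk, hφ (by rw [map_pow, h2, map_one])⟩))
  exact Shift.of_map φ hc' (h _ hc')

/-- a group in which every element of infinite order is mapped to an element of infinite order of a suitable group with the
property has the property -/
theorem AllShift.of_residual {H : Type} [Group H]
    (h : ∀ c : H, ¬ IsOfFinOrder c → ∃ (H' : Type) (_ : Group H') (φ : H →* H'), ¬ IsOfFinOrder (φ c) ∧ AllShift H') :
    AllShift H := by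
  intro c hc
  obtain ⟨H', _, φ, hφ, h1⟩ := h c hc
  exact Shift.of_map φ hφ (h1 _ hφ)

theorem AllShift.prod {H H' : Type} [Group H] [Group H'] (h : AllShift H) (h' : AllShift H') : AllShift (H × H') := by
  intro c hc
  by_cases h1 : IsOfFinOrder c.1
  · by_cases h2 : IsOfFinOrder c.2
    · exfalso
      obtain ⟨m, hm, e1⟩ := isOfFinOrder_iff_pow_eq_one.1 h1
      obtain ⟨n, hn, e2⟩ := isOfFinOrder_iff_pow_eq_one.1 h2
      apply hc
      rw [isOfFinOrder_iff_pow_eq_one]
      refine ⟨m * n, Nat.mul_pos hm hn, Prod.ext ?_ ?_⟩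
      · rw [Prod.pow_fst, pow_mul, e1, one_pow, Prod.fst_one]
      · rw [Prod.pow_snd, mul_comm, pow_mul, e2, one_pow, Prod.snd_one]
    · exact Shift.of_map (MonoidHom.snd H H') h2 (h' _ h2)
  · exact Shift.of_map (MonoidHom.fst H H') h1 (h _ h1)

theorem AllShift.of_finiteIndex {H : Type} [Group H] (K : Subgroup H) (hK : K.FiniteIndex) (h : AllShift K) :
    AllShift H := by
  intro c hc
  refine Shift.of_finiteIndex hc K hK ?_
  intro k hk hk0
  refine h _ ?_
  intro h1
  have h2 : IsOfFinOrder (c ^ k) := Submonoid.isOfFinOrder_coe.2 h1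
  exact hc ((isOfFinOrder_pow.1 h2).resolve_right hk0)

/-- groups in which the commensurators of the infinite cyclic subgroups are virtually commutative, for instance hyperbolic groups,
torsion-free CSA groups, virtually commutative groups -/
theorem AllShift.of_comm {H : Type} [Group H]
    (h : ∀ c : H, ¬ IsOfFinOrder c → ∃ A : Subgroup (commensurator (Subgroup.zpowers c)), A.FiniteIndex ∧
      ∀ a ∈ A, ∀ b ∈ A, a * b = b * a) : AllShift H := by
  intro c hc
  obtain ⟨A, hA, hab⟩ := h c hc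
  refine Shift.of_commensurator hc fun hcm => ?_
  refine AllShift.of_finiteIndex A hA (AllShift.of_commGroup ?_) _ (fun h1 => hc (Submonoid.isOfFinOrder_coe.2 h1))
  rintro ⟨a, ha⟩ ⟨b, hb⟩
  exact Subtype.ext (hab a ha b hb)

end Pool.Agent.H54.GC
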