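import Pool.Agent.H54.GC.Dir

/-!
# Examples of split elements

`splitIn_of_hom`: if every finitely generated subgroup `H` of `E` and of the commensurator of `z` which
contains a power `z ^ k`, `k ≠ 0`, has a subgroup `L` of finite index and a homomorphism from `L` to a commutative group which
maps some `z ^ m ∈ L` to an element of infinite order then `z` is split over `E`. (CAT(0) groups: a subgroup of finite index of `H`
centralises some `z ^ m` and acts on the axes of `z ^ m` by translations.) `splitIn_of_virt_comm`: commensurators which are virtually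
commutative (hyperbolic groups, torsion-free CSA groups, virtually commutative groups).
-/

set_option autoImplicit false

namespace Pool.Agent.H54.GC

open Pool.Agent.H75.CY
open Pool.Agent.H76.VC (Com mem_Com)
open Subgroup.Commensurable (commensurator)

/-- a homomorphism to `ℚ` which is `1` at an element of infinite order -/
theorem exists_hom_rat {A : Type} [CommGroup A] {c : A} (hc : ¬ IsOfFinOrder c) :
    ∃ f : A → ℚ, (∀ a b, f (a * b) = f a + f b) ∧ f c = 1 := by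
  have hinj : Function.Injective (zmultiplesHom (Additive A) (Additive.ofMul c)) := by
    rw [injective_iff_map_eq_zero]
    intro n hn
    by_contra h0
    apply hc
    rw [isOfFinOrder_iff_zpow_eq_one]
    exact ⟨n, h0, hn⟩
  obtain ⟨f, hf⟩ := (Module.Baer.of_divisible ℚ).extension_property_addMonoidHom
    (zmultiplesHom (Additive A) (Additive.ofMul c)) hinj (Int.castAddHom ℚ)
  refine ⟨fun a => f (Additive.ofMul a), fun a b => ?_, ?_⟩
  · show f (Additive.ofMul (a * b)) = f (Additive.ofMul a) + f (Additive.ofMul b)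
    rw [ofMul_mul, map_add]
  have h2 := DFunLike.congr_fun hf (1 : ℤ)
  rw [AddMonoidHom.comp_apply, zmultiplesHom_apply, one_zsmul] at h2
  show f (Additive.ofMul c) = 1
  rw [h2]
  simp

theorem SplitIn.mono {G : Type} [Group G] {z : G} {E E' : Subgroup G} (hE : E ≤ E') (h : SplitIn E' z) : SplitIn E z :=
  fun H hH hHE hC => h H hH (hHE.trans hE) hC

/-- the criterion -/
theorem splitIn_of_hom {G : Type} [Group G] {z : G} (E : Subgroup G)
    (h : ∀ H : Subgroup G, H.FG → H ≤ E → H ≤ Com z → (∃ k : ℤ, k ≠ 0 ∧ z ^ k ∈ H) →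
      ∃ (L : Subgroup H) (A : Type) (_ : CommGroup A) (b : L →* A) (m : ℤ) (hm : z ^ m ∈ H)
        (hmL : (⟨z ^ m, hm⟩ : H) ∈ L), L.FiniteIndex ∧ ¬ IsOfFinOrder (b ⟨⟨z ^ m, hm⟩, hmL⟩)) :
    SplitIn E z := by
  classical
  intro H hH hHE hHC
  by_cases hk : ∃ k : ℤ, k ≠ 0 ∧ z ^ k ∈ H
  swap
  · refine ⟨1, fun _ => 0, fun _ _ => by simp, fun j hj hj0 => absurd ⟨j, hj0, hj⟩ hk⟩
  obtain ⟨L, A, _, b, m, hm, hmL, hL, hb⟩ := h H hH hHE hHC hk
  have hm0 : m ≠ 0 := by
    rintro rfl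
    apply hb
    have e : (⟨⟨z ^ (0 : ℤ), hm⟩, hmL⟩ : L) = 1 := by
      apply Subtype.ext
      apply Subtype.ext
      exact zpow_zero z
    rw [e, map_one]
    exact IsOfFinOrder.one
  obtain ⟨χ, hχ, hχ1⟩ := exists_hom_rat hb
  obtain ⟨c, hcd⟩ : ∃ c : H, c = ⟨z ^ m, hm⟩ := ⟨_, rfl⟩
  have hcL : c ∈ L := by
    rw [hcd]
    exact hmL
  have hc : ¬ IsOfFinOrder c := by
    intro h1
    apply hb
    have h2 : IsOfFinOrder (⟨⟨z ^ m, hm⟩, hmL⟩ : L) := by
      rw [hcd] at h1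
      exact Submonoid.isOfFinOrder_coe.1 h1
    exact b.isOfFinOrder h2
  have hcm : Cmd c := by
    intro g
    obtain ⟨p, q, hp, hq, h1⟩ := mem_Com.1 (hHC g.2)
    refine ⟨p, q, hp, hq, Subtype.ext ?_⟩
    rw [hcd]
    show (g : G) * (z ^ m) ^ p * (g : G)⁻¹ = (z ^ m) ^ q
    rw [← zpow_mul, ← zpow_mul, mul_comm m p, mul_comm m q]
    exact conj_pow_pow h1 m
  obtain ⟨Δ, hΔ⟩ := exists_dl hc hcm
  -- the homomorphism on `L`
  obtain ⟨B, hB⟩ : ∃ B : H → ℚ, ∀ g (hg : g ∈ L), B g = χ (b ⟨g, hg⟩) :=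
    ⟨fun g => if hg : g ∈ L then χ (b ⟨g, hg⟩) else 0, fun g hg => dif_pos hg⟩
  have hBc : B c = 1 := by
    rw [hB c hcL, ← hχ1]
    congr 2
    exact Subtype.ext hcd
  have hBm : ∀ g ∈ L, ∀ k ∈ L, B (g * k) = B g + B k := by
    intro g hg k hk
    rw [hB g hg, hB k hk, hB _ (L.mul_mem hg hk), ← hχ, ← map_mul]
    rfl
  have hB1 : B 1 = 0 := by
    have h1 := hBm 1 L.one_mem 1 L.one_mem
    rw [one_mul] at h1
    linarith
  have hBz : ∀ g ∈ L, ∀ k : ℤ, B (g ^ k) = k * B g := by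
    intro g hg k
    have hnat : ∀ k : ℕ, B (g ^ k) = k * B g := by
      intro k
      induction k with
      | zero => rw [pow_zero, hB1, Nat.cast_zero, zero_mul]
      | succ k ih =>
        rw [pow_succ, hBm _ (L.pow_mem hg k) _ hg, ih]
        push_cast
        ring
    obtain ⟨j, rfl | rfl⟩ := k.eq_nat_or_neg
    · rw [zpow_natCast, hnat]
      push_cast
      ring
    · have h1 := hBm _ (L.inv_mem (L.pow_mem hg j)) _ (L.pow_mem hg j)
      rw [inv_mul_cancel, hB1, hnat] at h1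
      rw [zpow_neg, zpow_natCast]
      push_cast
      linarith
  have hΔL : ∀ g ∈ L, Δ g = 1 := by
    intro g hg
    obtain ⟨p, q, hp, hq, h1⟩ := hcm g
    have h2 : B (g * c ^ p * g⁻¹) = p := by
      rw [hBm _ (L.mul_mem hg (L.zpow_mem hcL p)) _ (L.inv_mem hg), hBm _ hg _ (L.zpow_mem hcL p), hBz c hcL, hBc]
      have h3 := hBm g hg g⁻¹ (L.inv_mem hg)
      rw [mul_inv_cancel, hB1] at h3
      linarith
    rw [h1, hBz c hcL, hBc, mul_one] at h2
    have h4 := hΔ g p q h1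
    have hp' : (p : ℚ) ≠ 0 := by exact_mod_cast hp
    apply Units.ext
    rw [Units.val_one]
    have h5 : ((Δ g : ℚˣ) : ℚ) * p = 1 * p := by rw [← h4, h2, one_mul]
    exact mul_right_cancel₀ hp' h5
  obtain ⟨β, hβ, hβc⟩ := transfer_coc hcm hΔ L hL B (by
    intro g hg k hk
    rw [hBm g hg k hk, hΔL g hg, Units.val_one, one_mul]) (k := 1) (by
    rw [zpow_one]
    exact hcL) (by
    rw [zpow_one, hBc]
    exact one_ne_zero)
  refine ⟨Δ, β, hβ, ?_⟩
  intro j hj hj0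
  have hD : Δ ⟨z ^ j, hj⟩ = 1 := by
    have h1 : (⟨z ^ j, hj⟩ : H) * c ^ (1 : ℤ) * (⟨z ^ j, hj⟩ : H)⁻¹ = c ^ (1 : ℤ) := by
      apply Subtype.ext
      rw [zpow_one, hcd]
      show z ^ j * z ^ m * (z ^ j)⁻¹ = z ^ m
      rw [← zpow_add, add_comm, zpow_add, mul_inv_cancel_right]
    have h2 := hΔ _ 1 1 h1
    apply Units.ext
    rw [Units.val_one]
    push_cast at h2
    linarith
  refine ⟨hD, ?_⟩
  have h1 : (⟨z ^ j, hj⟩ : H) ^ m = c ^ j := by
    apply Subtype.ext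
    rw [hcd]
    show (z ^ j) ^ m = (z ^ m) ^ j
    rw [← zpow_mul, ← zpow_mul, mul_comm]
  have hcr : ∀ g ∈ (⊤ : Subgroup H), ∀ k ∈ (⊤ : Subgroup H), β (g * k) = β g + Δ g * β k := fun g _ k _ => hβ g k
  have h2 := Pool.Agent.H75.CY.cr_pow (z := c) hcr (Subgroup.mem_top (⟨z ^ j, hj⟩ : H)) hD m
  have hΔc : Δ c = 1 := hΔL c hcL
  have h3 := Pool.Agent.H75.CY.cr_pow (z := c) hcr (Subgroup.mem_top c) hΔc j
  rw [h1, h3] at h2
  intro h4
  rw [h4, mul_zero] at h2
  have hj' : (j : ℚ) ≠ 0 := by exact_mod_cast hj0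
  exact mul_ne_zero hj' hβc h2

/-- virtually commutative commensurators -/
theorem splitIn_of_virt_comm {G : Type} [Group G] {z : G} (hz : ¬ IsOfFinOrder z) (A : Subgroup (Com z))
    (hA : A.FiniteIndex) (hab : ∀ a ∈ A, ∀ b ∈ A, a * b = b * a) (E : Subgroup G) : SplitIn E z := by
  refine splitIn_of_hom E ?_
  intro H _ _ hHC hk
  obtain ⟨k, hk0, hkH⟩ := hk
  obtain ⟨L, hLd⟩ : ∃ L : Subgroup H, L = A.comap (Subgroup.inclusion hHC) := ⟨_, rfl⟩
  have hL : L.FiniteIndex := by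
    have h1 : (A.subgroupOf (Subgroup.inclusion hHC).range).FiniteIndex := inferInstance
    rw [hLd]
    exact ⟨by rw [Subgroup.index_comap]; exact h1.index_ne_zero⟩
  obtain ⟨n, hn, -, hnL⟩ := Subgroup.exists_pow_mem_of_index_ne_zero hL.index_ne_zero (⟨z ^ k, hkH⟩ : H)
  have hm : z ^ (k * n) ∈ H := by
    rw [zpow_mul, zpow_natCast]
    exact H.pow_mem hkH n
  have hmL : (⟨z ^ (k * n), hm⟩ : H) ∈ L := by
    have e : (⟨z ^ (k * n), hm⟩ : H) = (⟨z ^ k, hkH⟩ : H) ^ n := by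
      apply Subtype.ext
      show z ^ (k * n) = (z ^ k) ^ n
      rw [zpow_mul, zpow_natCast]
    rw [e]
    exact hnL
  have hc : ∀ a b : L, a * b = b * a := by
    rintro ⟨a, ha⟩ ⟨b, hb⟩
    rw [hLd] at ha hb
    have h1 := hab _ ha _ hb
    apply Subtype.ext
    apply Subtype.ext
    exact congrArg (fun x : Com z => (x : G)) h1
  let cg : CommGroup L := { (inferInstance : Group L) with mul_comm := hc }
  refine ⟨L, L, cg, MonoidHom.id L, k * n, hm, hmL, hL, ?_⟩
  intro h1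
  have h2 : IsOfFinOrder (z ^ (k * n)) := by
    have h3 : IsOfFinOrder (⟨⟨z ^ (k * n), hm⟩, hmL⟩ : L) := h1
    exact Submonoid.isOfFinOrder_coe.2 (Submonoid.isOfFinOrder_coe.2 h3)
  obtain ⟨i, hi, h3⟩ := isOfFinOrder_iff_pow_eq_one.1 h2
  apply hz
  rw [isOfFinOrder_iff_zpow_eq_one]
  refine ⟨k * n * i, mul_ne_zero (mul_ne_zero hk0 (by exact_mod_cast hn.ne')) (by exact_mod_cast hi.ne'), ?_⟩
  rw [zpow_mul, zpow_natCast]
  exact h3

end Pool.Agent.H54.GC
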