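import Pool.Agent.H71.GC.Med

/-!
# Trees are median graphs without squares
-/

set_option autoImplicit false

namespace Pool.Agent.H54.GC

open Pool.Agent.H37.MG

theorem tree_median {V : Type} {X : SimpleGraph V} (hX : X.IsTree) : Median X :=
  Pool.Agent.H71.GC.tree_median hX

theorem tree_no_cube {V : Type} {X : SimpleGraph V} (hX : X.IsTree) (f : (Fin (1 + 1) → Bool) → V) : ¬ IsCube X (1 + 1) f :=
  Pool.Agent.H71.GC.tree_no_cube hX f

end Pool.Agent.H54.GC
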