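import Mathlib

/-!
# Invariant subtrees with finitely many orbits of edges

`Cvx X S`: the set `S` contains all vertices between two of its members. `induce_tree`: a nonempty convex set of vertices of a tree
is a tree. `exists_sub`: if a finitely generated group acts on a tree then every vertex is in an invariant convex set of vertices
with finitely many orbits of edges.

Proof of `exists_sub`: let `F` be a finite set which generates `K`, `E` the set of the edges (in both directions) of paths from `x₀` to
`s x₀`, `s ∈ F`, and `W` the graph of the translates of the members of `E`. The set `S` of the vertices which are joined with `x₀` by a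
walk of `W` is invariant. In a tree a vertex between `a` and `b` is on every walk from `a` to `b`, and an edge `a b` is on every
walk from `a` to `b`; so `S` is convex, and its edges are edges of `W`.
-/

set_option autoImplicit false

namespace Pool.Agent.H54.GC

/-- convex sets of vertices -/
def Cvx {V : Type} (X : SimpleGraph V) (S : Set V) : Prop :=
  ∀ a ∈ S, ∀ b ∈ S, ∀ z, X.dist a z + X.dist z b = X.dist a b → z ∈ S

/-- a path through a vertex between `a` and `b` -/
private theorem path_through {V : Type} {X : SimpleGraph V} (hX : X.IsTree) {a b z : V}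
    (hz : X.dist a z + X.dist z b = X.dist a b) :
    ∃ p : X.Walk a z, ∃ q : X.Walk z b, p.length = X.dist a z ∧ (p.append q).IsPath := by
  obtain ⟨p, hp⟩ := hX.connected.exists_walk_length_eq_dist a z
  obtain ⟨q, hq⟩ := hX.connected.exists_walk_length_eq_dist z b
  refine ⟨p, q, hp, SimpleGraph.Walk.isPath_of_length_eq_dist _ ?_⟩
  rw [SimpleGraph.Walk.length_append, hp, hq, hz]

private theorem mem_walk {V : Type} {X : SimpleGraph V} (hX : X.IsTree) {a b z : V}
    (hz : X.dist a z + X.dist z b = X.dist a b) (r : X.Walk a b) : z ∈ r.support := by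
  classical
  obtain ⟨p, q, -, h⟩ := path_through hX hz
  have h1 : r.bypass = p.append q := (hX.existsUnique_path a b).unique r.bypass_isPath h
  refine r.support_bypass_subset_support ?_
  rw [h1, SimpleGraph.Walk.mem_support_append_iff]
  exact Or.inl p.end_mem_support

private theorem mem_edge {V : Type} {X : SimpleGraph V} (hX : X.IsTree) {a b : V} (hab : X.Adj a b) (r : X.Walk a b) :
    s(a, b) ∈ r.edges := by
  classical
  have h1 : r.bypass = hab.toWalk :=
    (hX.existsUnique_path a b).unique r.bypass_isPath (SimpleGraph.Walk.IsPath.of_adj hab)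
  refine r.edges_bypass_subset_edges ?_
  rw [h1]
  simp [SimpleGraph.Adj.toWalk]

theorem induce_tree {V : Type} {X : SimpleGraph V} (hX : X.IsTree) {S : Set V} (hS : Cvx X S) (hne : S.Nonempty) :
    (X.induce S).IsTree := by
  classical
  refine ⟨?_, hX.isAcyclic.induce S⟩
  have : Nonempty S := hne.to_subtype
  refine ⟨fun a b => ?_⟩
  obtain ⟨p, hp⟩ := hX.connected.exists_walk_length_eq_dist (a : V) (b : V)
  refine ⟨p.induce S fun x hx => hS _ a.2 _ b.2 x ?_⟩
  have h1 := p.take_spec hx
  have h2 : (p.takeUntil x hx).length + (p.dropUntil x hx).length = p.length := by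
    rw [← SimpleGraph.Walk.length_append, h1]
  have h3 := SimpleGraph.dist_le (p.takeUntil x hx)
  have h4 := SimpleGraph.dist_le (p.dropUntil x hx)
  have h5 := hX.connected.dist_triangle (u := (a : V)) (v := x) (w := (b : V))
  omega

theorem exists_sub {K V : Type} [Group K] [MulAction K V] {X : SimpleGraph V} (hX : X.IsTree)
    (hadj : ∀ (g : K) (a b : V), X.Adj a b → X.Adj (g • a) (g • b)) (hK : Group.FG K) (x₀ : V) :
    ∃ S : Set V, x₀ ∈ S ∧ (∀ g : K, ∀ v ∈ S, g • v ∈ S) ∧ Cvx X S ∧
      ∃ E : Set (V × V), E.Finite ∧ (∀ e ∈ E, X.Adj e.1 e.2) ∧ ∀ a ∈ S, ∀ b ∈ S, X.Adj a b → ∃ g : K, (g • a, g • b) ∈ E := by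
  classical
  obtain ⟨F, hF, hFf⟩ := Group.fg_iff.1 hK
  let w : ∀ s : K, X.Walk x₀ (s • x₀) := fun s => (hX.connected x₀ (s • x₀)).some
  let E : Set (V × V) := ⋃ s ∈ F, ((fun d : X.Dart => d.toProd) '' {d | d ∈ (w s).darts} ∪
    (fun d : X.Dart => d.toProd.swap) '' {d | d ∈ (w s).darts})
  have hEf : E.Finite := hFf.biUnion fun s _ =>
    ((List.finite_toSet _).image _).union ((List.finite_toSet _).image _)
  have hE : ∀ e ∈ E, X.Adj e.1 e.2 := by
    intro e he
    obtain ⟨s, hs, he⟩ := Set.mem_iUnion₂.1 he
    rcases he with ⟨d, -, rfl⟩ | ⟨d, -, rfl⟩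
    · exact d.adj
    · exact d.adj.symm
  have hEs : ∀ a b : V, (a, b) ∈ E → (b, a) ∈ E := by
    intro a b he
    obtain ⟨s, hs, he⟩ := Set.mem_iUnion₂.1 he
    refine Set.mem_iUnion₂.2 ⟨s, hs, ?_⟩
    rcases he with ⟨d, hd, h⟩ | ⟨d, hd, h⟩
    · exact Or.inr ⟨d, hd, by
        have h1 : d.toProd = (a, b) := h
        show d.toProd.swap = (b, a)
        rw [h1]; rfl⟩
    · exact Or.inl ⟨d, hd, by
        have h1 : d.toProd.swap = (a, b) := h
        show d.toProd = (b, a)
        rw [← Prod.swap_swap d.toProd, h1]; rfl⟩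
  let W : SimpleGraph V :=
    { Adj := fun a b => X.Adj a b ∧ ∃ g : K, (g • a, g • b) ∈ E
      symm := ⟨fun a b h => ⟨h.1.symm, by
        obtain ⟨g, hg⟩ := h.2
        exact ⟨g, hEs _ _ hg⟩⟩⟩
      loopless := ⟨fun a h => X.loopless.irrefl a h.1⟩ }
  have hle : W ≤ X := fun a b h => h.1
  have hWi : ∀ (k : K) (a b : V), W.Adj a b → W.Adj (k • a) (k • b) := by
    rintro k a b ⟨h1, g, hg⟩
    refine ⟨hadj k a b h1, g * k⁻¹, ?_⟩
    rw [smul_smul, smul_smul, inv_mul_cancel_right]
    exact hg
  have hWr : ∀ (k : K) (a b : V), W.Reachable a b → W.Reachable (k • a) (k • b) := by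
    intro k a b h
    let f : W →g W := ⟨fun v => k • v, fun {a b} h => hWi k a b h⟩
    exact h.map f
  have hgen : ∀ s ∈ F, W.Reachable x₀ (s • x₀) := by
    intro s hs
    refine ⟨(w s).transfer W fun e he => ?_⟩
    obtain ⟨d, hd, rfl⟩ := List.mem_map.1 he
    show W.Adj d.fst d.snd
    refine ⟨d.adj, 1, ?_⟩
    rw [one_smul, one_smul]
    exact Set.mem_iUnion₂.2 ⟨s, hs, Or.inl ⟨d, hd, rfl⟩⟩
  have hall : ∀ g : K, W.Reachable x₀ (g • x₀) := by
    intro g
    have hg : g ∈ Subgroup.closure F := by rw [hF]; exact Subgroup.mem_top g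
    induction hg using Subgroup.closure_induction with
    | mem s hs => exact hgen s hs
    | one => rw [one_smul]
    | mul a b _ _ ha hb =>
      rw [mul_smul]
      exact ha.trans (hWr a _ _ hb)
    | inv a _ ha =>
      have h1 := hWr a⁻¹ _ _ ha
      rw [inv_smul_smul] at h1
      exact h1.symm
  refine ⟨{v | W.Reachable x₀ v}, SimpleGraph.Reachable.refl _, fun g v hv => (hall g).trans (hWr g _ _ hv), ?_, E, hEf, hE, ?_⟩
  · intro a ha b hb z hz
    obtain ⟨r⟩ := (SimpleGraph.Reachable.symm ha).trans hb
    have h1 := mem_walk hX hz (r.mapLe hle)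
    rw [SimpleGraph.Walk.support_mapLe_eq_support] at h1
    exact SimpleGraph.Reachable.trans ha ⟨r.takeUntil z h1⟩
  · intro a ha b hb hab
    obtain ⟨r⟩ := (SimpleGraph.Reachable.symm ha).trans hb
    have h1 := mem_edge hX hab (r.mapLe hle)
    rw [SimpleGraph.Walk.edges_mapLe_eq_edges] at h1
    exact (r.adj_of_mem_edges h1).2

/-- an element which fixes two vertices of a tree fixes all vertices between them -/
theorem fix_between {V : Type} {X : SimpleGraph V} (hX : X.IsTree) (g : V → V) (hg : ∀ a b, X.Adj a b → X.Adj (g a) (g b))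
    {a b z : V} (ha : g a = a) (hb : g b = b) (hz : X.dist a z + X.dist z b = X.dist a b) : g z = z := by
  let f : X →g X := ⟨g, fun {a b} h => hg a b h⟩
  have hd : ∀ u v, X.dist (g u) (g v) ≤ X.dist u v := by
    intro u v
    obtain ⟨p, hp⟩ := hX.connected.exists_walk_length_eq_dist u v
    have h1 := SimpleGraph.dist_le (p.map f)
    rw [SimpleGraph.Walk.length_map, hp] at h1
    exact h1
  have h1 := hd a z
  have h2 := hd z b
  rw [ha] at h1
  rw [hb] at h2
  have h3 := hX.connected.dist_triangle (u := a) (v := g z) (w := b)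
  have h4 : X.dist a (g z) + X.dist (g z) b = X.dist a b := by omega
  have h5 : X.dist a (g z) = X.dist a z := by omega
  obtain ⟨p, q, hp, hpq⟩ := path_through hX hz
  obtain ⟨p', q', hp', hpq'⟩ := path_through hX h4
  have h6 : p.append q = p'.append q' := (hX.existsUnique_path a b).unique hpq hpq'
  have h7 : (p.append q).getVert p.length = z := by
    rw [SimpleGraph.Walk.getVert_append]
    simp
  have h8 : (p'.append q').getVert p'.length = g z := by
    rw [SimpleGraph.Walk.getVert_append]
    simp
  calc g z = (p'.append q').getVert p'.length := h8.symm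
    _ = (p.append q).getVert p.length := by rw [h6, hp', h5, ← hp]
    _ = z := h7

end Pool.Agent.H54.GC
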