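import Pool.Agent.H54.GC.Dl
import Pool.Agent.H54.GC.Tm
import Pool.Agent.H54.GC.Cst

/-!
# The last step
-/

set_option autoImplicit false

namespace Pool.Agent.H54.GC

open Pool.Agent.H98.FJ Pool.Agent.H76.GT

/-- the action of the units on the additive group -/
def affAct : ℚˣ →* MulAut (Multiplicative ℚ) where
  toFun u :=
    { toFun := fun q => Multiplicative.ofAdd (u * Multiplicative.toAdd q)
      invFun := fun q => Multiplicative.ofAdd ((u⁻¹ : ℚˣ) * Multiplicative.toAdd q)
      left_inv := fun q => by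
        show Multiplicative.ofAdd (((u⁻¹ : ℚˣ) : ℚ) * (u * Multiplicative.toAdd q)) = q
        rw [← mul_assoc, Units.inv_mul, one_mul]
        rfl
      right_inv := fun q => by
        show Multiplicative.ofAdd ((u : ℚ) * ((u⁻¹ : ℚˣ) * Multiplicative.toAdd q)) = q
        rw [← mul_assoc, Units.mul_inv, one_mul]
        rfl
      map_mul' := fun p q => by
        show Multiplicative.ofAdd ((u : ℚ) * (Multiplicative.toAdd p + Multiplicative.toAdd q)) = _
        rw [mul_add]
        rfl }
  map_one' := by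
    ext q
    show ((1 : ℚˣ) : ℚ) * Multiplicative.toAdd q = Multiplicative.toAdd q
    rw [Units.val_one, one_mul]
  map_mul' u v := by
    ext q
    show ((u * v : ℚˣ) : ℚ) * Multiplicative.toAdd q = u * (v * Multiplicative.toAdd q)
    rw [Units.val_mul, mul_assoc]

/-- the affine group of the rational line -/
abbrev Aff := Multiplicative ℚ ⋊[affAct] ℚˣ

theorem aff_solvable : Group.IsSolvable Aff :=
  Group.isSolvable_of_ker_le_range (SemidirectProduct.inl : Multiplicative ℚ →* Aff) (SemidirectProduct.rightHom : Aff →* ℚˣ)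
    SemidirectProduct.range_inl_eq_ker_rightHom.ge

section

variable {L V : Type} [Group L] [MulAction L V] {X : SimpleGraph V}

theorem fin_edge (Γ : Subgroup L) {c : L} (hc : ∀ k : ℤ, k ≠ 0 → c ^ k ∉ Γ) {a b : V} {n : ℤ} (hn : n ≠ 0)
    (h : (Subgroup.zpowers (c ^ n)).relIndex (MulAction.stabilizer L a ⊓ MulAction.stabilizer L b) ≠ 0) :
    Finite ↥(MulAction.stabilizer Γ a ⊓ MulAction.stabilizer Γ b) := by
  set D := MulAction.stabilizer L a ⊓ MulAction.stabilizer L b with hD
  have h1 : (Subgroup.zpowers (c ^ n)).relIndex (Γ ⊓ D) ≠ 0 :=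
    fun h0 => h (Subgroup.relIndex_eq_zero_of_le_right inf_le_right h0)
  have h2 : (Subgroup.zpowers (c ^ n)).relIndex (Γ ⊓ D) = Nat.card ↥(Γ ⊓ D) := by
    refine inf_trivial_card fun j hj => ?_
    rw [← zpow_mul] at hj ⊢
    by_cases hj0 : j = 0
    · rw [hj0, mul_zero, zpow_zero]
    · exact absurd hj.1 (hc _ (mul_ne_zero hn hj0))
  rw [h2] at h1
  have h3 : Finite ↥(Γ ⊓ D) := Nat.finite_of_card_ne_zero h1
  let φ : ↥(MulAction.stabilizer Γ a ⊓ MulAction.stabilizer Γ b) → ↥(Γ ⊓ D) :=
    fun g => ⟨((g : Γ) : L), (g : Γ).2, g.2.1, g.2.2⟩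
  refine Finite.of_injective φ fun g h hgh => ?_
  have h4 := congrArg (fun z : ↥(Γ ⊓ D) => (z : L)) hgh
  exact Subtype.ext (Subtype.ext h4)

/-- the subgroups without powers of `c` -/
theorem class_sub {C : (G : Type) → [Group G] → Prop} (hC : Inherits C) (hT : Transfer C) (hX : X.IsTree)
    (hadj : ∀ (g : L) (a b : V), X.Adj a b → X.Adj (g • a) (g • b))
    (hv : ∀ v : V, C (MulAction.stabilizer L v)) {c : L} (hfix : ∀ x : V, ∃ n : ℤ, n ≠ 0 ∧ c ^ n • x = x)
    (he : ∀ a b : V, X.Adj a b → ∀ n : ℤ, n ≠ 0 → c ^ n • a = a → c ^ n • b = b →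
      (Subgroup.zpowers (c ^ n)).relIndex (MulAction.stabilizer L a ⊓ MulAction.stabilizer L b) ≠ 0)
    (Γ : Subgroup L) (hΓ : ∀ k : ℤ, k ≠ 0 → c ^ k ∉ Γ) : C Γ := by
  refine tree_finite hC hT (G := Γ) hX (fun g a b h => hadj (g : L) a b h) ?_ ?_
  · intro v
    let φ : MulAction.stabilizer Γ v →* MulAction.stabilizer L v :=
      { toFun := fun g => ⟨((g : Γ) : L), g.2⟩
        map_one' := rfl
        map_mul' := fun _ _ => rfl }
    refine hC.of_injective φ ?_ (hv v)
    intro g h hgh
    have h1 := congrArg (fun z : MulAction.stabilizer L v => (z : L)) hgh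
    exact Subtype.ext (Subtype.ext h1)
  · intro a b hab
    obtain ⟨n, hn, ha⟩ := hfix a
    obtain ⟨m, hm, hb⟩ := hfix b
    have ha' : c ^ (n * m) • a = a := by
      have h2 : (c ^ n) ^ m ∈ MulAction.stabilizer L a := Subgroup.zpow_mem _ ha m
      rw [← zpow_mul] at h2
      exact h2
    have hb' : c ^ (n * m) • b = b := by
      have h2 : (c ^ m) ^ n ∈ MulAction.stabilizer L b := Subgroup.zpow_mem _ hb n
      rw [← zpow_mul, mul_comm] at h2
      exact h2
    exact fin_edge Γ hΓ (mul_ne_zero hn hm) (he a b hab _ (mul_ne_zero hn hm) ha' hb')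

end

theorem final_step {C : (G : Type) → [Group G] → Prop} (hC : Inherits C) (hE : Extension C) (hT : Transfer C)
    (hS : ∀ (G : Type) [Group G], Group.IsSolvable G → C G) {L V : Type} [Group L] [MulAction L V] {X : SimpleGraph V}
    (hX : X.IsTree) (hadj : ∀ (g : L) (a b : V), X.Adj a b → X.Adj (g • a) (g • b))
    (hv : ∀ v : V, C (MulAction.stabilizer L v)) {c : L} (hc : ¬ IsOfFinOrder c) (hcm : Cmd c)
    {Δ : L →* ℚˣ} (hΔ : Mdl c Δ) (hfix : ∀ x : V, ∃ n : ℤ, n ≠ 0 ∧ c ^ n • x = x)
    (he : ∀ a b : V, X.Adj a b → ∀ n : ℤ, n ≠ 0 → c ^ n • a = a → c ^ n • b = b →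
      (Subgroup.zpowers (c ^ n)).relIndex (MulAction.stabilizer L a ⊓ MulAction.stabilizer L b) ≠ 0)
    (β : L → ℚ) (hβ : ∀ g h, β (g * h) = β g + Δ g * β h) (hβc : β c = 1) : C L := by
  -- the cocycle on powers of `c`
  have hβ1 : β 1 = 0 := by
    have h := hβ 1 1
    rw [mul_one, map_one, Units.val_one, one_mul] at h
    linarith
  have hadd : ∀ g h : L, Δ g = 1 → β (g * h) = β g + β h := by
    intro g h hg
    rw [hβ, hg, Units.val_one, one_mul]
  have hpow : ∀ k : ℤ, β (c ^ k) = k := by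
    let b : Subgroup.zpowers c →* Multiplicative ℚ := MonoidHom.mk' (fun g => Multiplicative.ofAdd (β g)) (by
      rintro ⟨g, hg⟩ ⟨h, hh⟩
      obtain ⟨k, rfl⟩ := Subgroup.mem_zpowers_iff.1 hg
      show Multiplicative.ofAdd (β (c ^ k * h)) = Multiplicative.ofAdd (β (c ^ k) + β h)
      rw [hadd _ _ (Mdl.pow hΔ k)])
    intro k
    have h1 : b (⟨c, Subgroup.mem_zpowers c⟩ ^ k) = b ⟨c, Subgroup.mem_zpowers c⟩ ^ k := map_zpow b _ k
    have h2 : β (c ^ k) = k • β c := h1
    rw [h2, hβc, zsmul_eq_mul, mul_one]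
  -- the homomorphism to the affine group
  let φ : L →* Aff := MonoidHom.mk' (fun g => ⟨Multiplicative.ofAdd (β g), Δ g⟩) (by
    intro g h
    ext
    · show β (g * h) = β g + Δ g * β h
      exact hβ g h
    · show ((Δ (g * h) : ℚˣ) : ℚ) = ((Δ g * Δ h : ℚˣ) : ℚ)
      rw [map_mul])
  have hφ1 : ∀ g, φ g = 1 → β g = 0 ∧ Δ g = 1 := by
    intro g hg
    exact ⟨congrArg (fun z : Aff => Multiplicative.toAdd z.left) hg, congrArg (fun z : Aff => z.right) hg⟩
  have hcl := fun Γ => class_sub hC hT hX hadj hv hfix he Γ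
  refine hE L φ.range φ.rangeRestrict φ.rangeRestrict_surjective ?_ ?_
  · have := aff_solvable
    exact hS φ.range inferInstance
  · intro W hW
    by_cases hcase : ∀ k : ℤ, k ≠ 0 → c ^ k ∉ W.comap φ.rangeRestrict
    · exact hcl _ hcase
    push Not at hcase
    obtain ⟨k, hk, hkW⟩ := hcase
    set p := φ.rangeRestrict with hp
    set Γ := W.comap p with hΓ
    set t := p (c ^ k) with ht
    have htW : t ∈ W := hkW
    have hpv : ∀ g : L, ((p g : φ.range) : Aff) = φ g := fun g => rfl
    have htf : ¬ IsOfFinOrder t := by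
      intro h
      obtain ⟨j, hj, h1⟩ := isOfFinOrder_iff_pow_eq_one.1 h
      rw [ht, ← map_pow] at h1
      have h2 : φ ((c ^ k) ^ j) = 1 := congrArg Subtype.val h1
      have h3 := (hφ1 _ h2).1
      rw [← zpow_natCast, ← zpow_mul, hpow] at h3
      have h4 : k * (j : ℤ) = 0 := by exact_mod_cast h3
      rcases mul_eq_zero.1 h4 with h5 | h5
      · exact hk h5
      · omega
    have hrel := vc_zpowers W hW htW htf
    set Γ' : Subgroup L := (Subgroup.zpowers t).comap p with hΓ'
    have hle : Γ' ≤ Γ := Subgroup.comap_mono (Subgroup.zpowers_le.2 htW)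
    have hfi : (Γ'.subgroupOf Γ).FiniteIndex := by
      refine ⟨?_⟩
      show Γ'.relIndex Γ ≠ 0
      rw [hΓ', Subgroup.relIndex_comap]
      intro h0
      exact hrel (by
        have h1 : Γ.map p = W := by
          rw [hΓ]
          exact Subgroup.map_comap_eq_self_of_surjective φ.rangeRestrict_surjective W
        rw [h1] at h0
        exact h0)
    refine hC.index Γ (Γ'.subgroupOf Γ) hfi (hC.iso _ _ (Subgroup.subgroupOfEquivOfLe hle).symm ?_)
    -- the elements of `Γ'`
    have hel : ∀ g ∈ Γ', Δ g = 1 ∧ ∃ i : ℤ, β g = k * i := by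
      intro g hg
      obtain ⟨i, hi⟩ := Subgroup.mem_zpowers_iff.1 hg
      rw [ht, ← map_zpow, ← zpow_mul] at hi
      have h1 : φ (c ^ (k * i)) = φ g := congrArg Subtype.val hi
      have h2 : Δ (c ^ (k * i)) = Δ g := congrArg (fun z : Aff => z.right) h1
      have h3 : β (c ^ (k * i)) = β g := congrArg (fun z : Aff => Multiplicative.toAdd z.left) h1
      rw [Mdl.pow hΔ] at h2
      rw [hpow] at h3
      exact ⟨h2.symm, i, by rw [← h3]; push_cast; ring⟩
    have hcΓ : ∀ m : ℤ, c ^ (k * m) ∈ Γ' := by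
      intro m
      refine Subgroup.mem_zpowers_iff.2 ⟨m, ?_⟩
      rw [ht, ← map_zpow, ← zpow_mul]
    -- the kernel
    set N : Subgroup L := φ.ker with hN
    have hNC : C N := by
      refine hcl N fun m hm hmN => ?_
      have h1 := (hφ1 _ hmN).1
      rw [hpow] at h1
      exact hm (by exact_mod_cast h1)
    -- the centralisers
    let Z : ℕ → Subgroup Γ' := fun j => (Subgroup.centralizer {c ^ (k * (j.factorial : ℤ))}).subgroupOf Γ'
    have hZ : ∀ (j : ℕ) (g : Γ'), g ∈ Z j ↔ (g : L) * c ^ (k * (j.factorial : ℤ)) = c ^ (k * (j.factorial : ℤ)) * g := by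
      intro j g
      rw [Subgroup.mem_subgroupOf, Subgroup.mem_centralizer_singleton_iff]
    have hdvd : ∀ (g : L) (a b : ℤ), a ∣ b → g * c ^ a = c ^ a * g → g * c ^ b = c ^ b * g := by
      rintro g a _ ⟨d, rfl⟩ h
      rw [zpow_mul]
      exact (Commute.zpow_right (show Commute g (c ^ a) from h) d)
    refine hC.union Z ?_ ?_ ?_
    · intro i j hij g hg
      rw [hZ] at hg ⊢
      refine hdvd _ _ _ ?_ hg
      exact mul_dvd_mul_left k (by exact_mod_cast Nat.factorial_dvd_factorial hij)
    · intro g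
      obtain ⟨m, n, hm, hn, h1⟩ := hcm (g : L)
      have h2 := hΔ (g : L) m n h1
      rw [(hel (g : L) g.2).1, Units.val_one, one_mul] at h2
      have h3 : n = m := by exact_mod_cast h2
      rw [h3] at h1
      refine ⟨m.natAbs, (hZ _ _).2 (hdvd _ m _ ?_ ?_)⟩
      · refine Dvd.dvd.mul_left ?_ k
        rw [← Int.natAbs_dvd]
        exact_mod_cast Nat.dvd_factorial (Int.natAbs_pos.2 hm) le_rfl
      · rw [← mul_inv_eq_iff_eq_mul]
        exact h1
    · intro j
      have hint : ∀ g : Z j, ∃ i : ℤ, β ((g : Γ') : L) = k * i := fun g => (hel _ (g : Γ').2).2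
      choose i hi using hint
      have hk' : (k : ℚ) ≠ 0 := by exact_mod_cast hk
      let q : Z j →* Multiplicative ℤ := MonoidHom.mk' (fun g => Multiplicative.ofAdd (i g)) (by
        intro g h
        show Multiplicative.ofAdd (i (g * h)) = Multiplicative.ofAdd (i g + i h)
        congr 1
        have h1 := hi (g * h)
        have h2 : β (((g * h : Z j) : Γ') : L) = β ((g : Γ') : L) + β ((h : Γ') : L) := hadd _ _ (hel _ (g : Γ').2).1
        rw [h2, hi g, hi h, ← mul_add] at h1
        have h3 := mul_left_cancel₀ hk' h1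
        exact_mod_cast h3.symm)
      let z : Z j := ⟨⟨c ^ (k * (j.factorial : ℤ)), hcΓ _⟩, (hZ _ _).2 rfl⟩
      refine central_step hC q (z := z) ?_ ?_ ?_
      · intro g
        exact Subtype.ext (Subtype.ext ((hZ j g).1 g.2))
      · intro h0
        have h1 : i z = 0 := h0
        have h2 := hi z
        rw [h1] at h2
        have h3 : β ((z : Γ') : L) = ((k * (j.factorial : ℤ) : ℤ) : ℚ) := hpow _
        rw [h3, Int.cast_zero, mul_zero] at h2
        have h4 : k * (j.factorial : ℤ) = 0 := by exact_mod_cast h2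
        rcases mul_eq_zero.1 h4 with h5 | h5
        · exact hk h5
        · exact (Nat.factorial_ne_zero j) (by exact_mod_cast h5)
      · let ψ : q.ker →* N :=
          { toFun := fun g => ⟨(((g : Z j) : Γ') : L), by
              have h1 : i (g : Z j) = 0 := g.2
              have h2 := hi (g : Z j)
              rw [h1, Int.cast_zero, mul_zero] at h2
              show φ _ = 1
              ext
              · exact h2
              · exact congrArg Units.val (hel _ ((g : Z j) : Γ').2).1⟩
            map_one' := rfl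
            map_mul' := fun _ _ => rfl }
        refine hC.of_injective ψ ?_ hNC
        intro g h hgh
        have h1 := congrArg (fun z : N => (z : L)) hgh
        exact Subtype.ext (Subtype.ext (Subtype.ext h1))

end Pool.Agent.H54.GC
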