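import Pool.Agent.H54.GC.Tm

/-!
# Actions on trees such that the stabilisers of long paths are virtually cyclic: reduction to commensurators
-/

set_option autoImplicit false

namespace Pool.Agent.H54.GC

open Pool.Agent.H98.FJ Pool.Agent.H76.GT Pool.Agent.H37.MG
open Subgroup.Commensurable (commensurator)

/-- the first vertex on the way to another vertex -/
private theorem next_vertex {V : Type} {X : SimpleGraph V} (hX : X.IsTree) {v w : V} (h : 1 ≤ X.dist v w) :
    ∃ z, X.Adj v z ∧ X.dist v z + X.dist z w = X.dist v w := by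
  obtain ⟨p, hp⟩ := hX.connected.exists_walk_length_eq_dist v w
  cases p with
  | nil => rw [← hp] at h; simp at h
  | @cons _ z _ hvz q =>
    refine ⟨z, hvz, ?_⟩
    have h1 := SimpleGraph.dist_le q
    have h2 : X.dist v z = 1 := SimpleGraph.dist_eq_one_iff_adj.2 hvz
    have h3 := hX.connected.dist_triangle (u := v) (v := z) (w := w)
    rw [SimpleGraph.Walk.length_cons] at hp
    omega

/-- distances in a convex subset of a tree -/
theorem induce_dist {V : Type} {X : SimpleGraph V} (hX : X.IsTree) {S : Set V} (hS : (X.induce S).IsTree) (v w : S) :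
    X.dist (v : V) (w : V) = (X.induce S).dist v w := by
  obtain ⟨p, hp, hl⟩ := hS.connected.exists_path_of_dist v w
  let f : X.induce S →g X := (SimpleGraph.Embedding.induce S).toHom
  have h1 : (p.map f).IsPath := SimpleGraph.Walk.IsPath.map Subtype.val_injective hp
  obtain ⟨q, hq, hl'⟩ := hX.connected.exists_path_of_dist (v : V) (w : V)
  have h2 : (p.map f) = q := (hX.existsUnique_path _ _).unique h1 hq
  have h3 : (p.map f).length = p.length := SimpleGraph.Walk.length_map f p
  exact hl'.symm.trans ((congrArg SimpleGraph.Walk.length h2).symm.trans (h3.trans hl))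

theorem dist_act {G V : Type} [Group G] [MulAction G V] {X : SimpleGraph V} (hX : X.IsTree)
    (hadj : ∀ (g : G) (a b : V), X.Adj a b → X.Adj (g • a) (g • b)) (g : G) (v w : V) : X.dist (g • v) (g • w) = X.dist v w := by
  have key : ∀ (g : G) (v w : V), X.dist (g • v) (g • w) ≤ X.dist v w := by
    intro g v w
    obtain ⟨p, hp⟩ := hX.connected.exists_walk_length_eq_dist v w
    let f : X →g X := ⟨fun x => g • x, fun h => hadj g _ _ h⟩
    rw [← hp, ← SimpleGraph.Walk.length_map f p]
    exact SimpleGraph.dist_le (p.map f)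
  refine le_antisymm (key g v w) ?_
  have h := key g⁻¹ (g • v) (g • w)
  rwa [inv_smul_smul, inv_smul_smul] at h

theorem tree_main_k {C : (G : Type) → [Group G] → Prop} (hC : Inherits C) (hT : Transfer C) {G V : Type} [Group G] [MulAction G V]
    {X : SimpleGraph V} (hX : X.IsTree) (hadj : ∀ (g : G) (a b : V), X.Adj a b → X.Adj (g • a) (g • b))
    (hv : ∀ v : V, C (MulAction.stabilizer G v))
    (k : ℕ) (hk : 1 ≤ k)
    (hf : ∀ a b : V, X.Adj a b → ∃ N : ℕ, ∀ B : Subgroup G, B ≤ MulAction.stabilizer G a ⊓ MulAction.stabilizer G b →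
      (∃ a' b' : V, k ≤ X.dist a' b' ∧ B ≤ MulAction.stabilizer G a' ⊓ MulAction.stabilizer G b') →
      (B : Set G).Finite → (B : Set G).encard ≤ N)
    (he : ∀ a b : V, k ≤ X.dist a b → VirtuallyCyclic ↥(MulAction.stabilizer G a ⊓ MulAction.stabilizer G b))
    (hc : ∀ c : G, ¬ IsOfFinOrder c → ∀ a b : V, k ≤ X.dist a b → c • a = a → c • b = b →
      C (commensurator (Subgroup.zpowers c))) :
    C G := by
  classical
  refine Pool.Agent.H92.CZ.comm_main hC hT G fun K hK => ?_
  obtain ⟨x₀⟩ := hX.connected.nonempty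
  obtain ⟨S, hx₀, hSi, hSc, E, hEf, hEa, hES⟩ := exists_sub (K := K) hX (fun g a b h => hadj g a b h) (Group.fg_iff_subgroup_fg K |>.2 hK) x₀
  let act : MulAction K S :=
    { smul := fun g v => ⟨g • (v : V), hSi g v v.2⟩
      one_smul := fun v => Subtype.ext (one_smul K (v : V))
      mul_smul := fun a b v => Subtype.ext (mul_smul a b (v : V)) }
  have hcoe : ∀ (g : K) (v : S), ((g • v : S) : V) = (g : G) • (v : V) := fun g v => rfl
  have hST : (X.induce S).IsTree := induce_tree hX hSc ⟨x₀, hx₀⟩
  have hSadj : ∀ (g : K) (a b : S), (X.induce S).Adj a b → (X.induce S).Adj (g • a) (g • b) := fun g a b h =>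
    hadj g a b h
  -- the bound
  have hN : ∀ e : V × V, ∃ N : ℕ, e ∈ E → ∀ B : Subgroup G, B ≤ MulAction.stabilizer G e.1 ⊓ MulAction.stabilizer G e.2 →
      (∃ a' b' : V, k ≤ X.dist a' b' ∧ B ≤ MulAction.stabilizer G a' ⊓ MulAction.stabilizer G b') →
      (B : Set G).Finite → (B : Set G).encard ≤ N := by
    intro e
    by_cases h : e ∈ E
    · obtain ⟨N, hN⟩ := hf e.1 e.2 (hEa e h)
      exact ⟨N, fun _ => hN⟩
    · exact ⟨0, fun h1 => absurd h1 h⟩
  choose Nf hNf using hN
  -- subgroups which fix two vertices fix an edge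
  have hedge : ∀ B : Subgroup K, FM (X.induce S) k B → ∃ v z : S, X.Adj v z ∧
      B.map K.subtype ≤ MulAction.stabilizer G (v : V) ⊓ MulAction.stabilizer G (z : V) := by
    rintro B ⟨v, w, hvw, hB⟩
    obtain ⟨z, hvz, hz⟩ := next_vertex hST (hk.trans hvw)
    refine ⟨v, z, hvz, ?_⟩
    rintro _ ⟨b, hb, rfl⟩
    have h1 := (hB b hb).1
    have h2 := fix_between hST (fun x => b • x) (fun a c h => hSadj b a c h) h1 (hB b hb).2 hz
    exact Subgroup.mem_inf.2 ⟨congrArg Subtype.val h1, congrArg Subtype.val h2⟩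
  have hlong : ∀ B : Subgroup K, FM (X.induce S) k B → ∃ v z : S, k ≤ X.dist (v : V) (z : V) ∧
      B.map K.subtype ≤ MulAction.stabilizer G (v : V) ⊓ MulAction.stabilizer G (z : V) := by
    rintro B ⟨v, w, hvw, hB⟩
    refine ⟨v, w, by rwa [induce_dist hX hST], ?_⟩
    rintro _ ⟨b, hb, rfl⟩
    exact Subgroup.mem_inf.2 ⟨congrArg Subtype.val (hB b hb).1, congrArg Subtype.val (hB b hb).2⟩
  -- infinite subgroups
  have hinf : ∀ B : Subgroup K, FM (X.induce S) k B → ∀ A : Subgroup K, A ≤ B → (A : Set K).Infinite →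
      ∃ c : G, c ∈ A.map K.subtype ∧ ¬ IsOfFinOrder c ∧ (Subgroup.zpowers c).relIndex (B.map K.subtype) ≠ 0 ∧
        ∃ v z : S, k ≤ X.dist (v : V) (z : V) ∧ c • (v : V) = v ∧ c • (z : V) = z := by
    intro B hB A hAB hA
    obtain ⟨v, z, hvz, hle⟩ := hlong B hB
    have hAle : A.map K.subtype ≤ MulAction.stabilizer G (v : V) ⊓ MulAction.stabilizer G (z : V) :=
      (Subgroup.map_mono hAB).trans hle
    have hAi : ((A.map K.subtype : Subgroup G) : Set G).Infinite := by
      rw [Subgroup.coe_map]
      exact hA.image (K.subtype_injective.injOn)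
    obtain ⟨c, hcA, hco⟩ := vc_inf _ (he v z hvz) hAle hAi
    have hcD := hAle hcA
    have h1 := vc_zpowers _ (he v z hvz) hcD hco
    refine ⟨c, hcA, hco, Subgroup.relIndex_ne_zero_trans h1 ?_, v, z, hvz, (Subgroup.mem_inf.1 hcD).1, (Subgroup.mem_inf.1 hcD).2⟩
    rw [Subgroup.relIndex_eq_one.2 hle]
    exact one_ne_zero
  have hKi : Function.Injective K.subtype := K.subtype_injective
  refine ⟨S, act, X.induce S, 1, k, hEf.toFinset.sup Nf, 1, tree_median hST, hSadj, tree_no_cube hST, ?_, ?_, ?_, ?_⟩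
  · intro v
    refine hC.of_injective (H := MulAction.stabilizer G (v : V))
      ((K.subtype.comp (MulAction.stabilizer K v).subtype).codRestrict (MulAction.stabilizer G (v : V)) fun g =>
        congrArg Subtype.val g.2) ?_ (hv v)
    intro a b hab
    have h1 := congrArg (fun x : MulAction.stabilizer G (v : V) => (x : G)) hab
    exact Subtype.ext (Subtype.ext h1)
  · intro B hB hBf
    obtain ⟨v, z, hvz, hle⟩ := hedge B hB
    obtain ⟨v', z', hvz', hle'⟩ := hlong B hB
    obtain ⟨g, hg⟩ := hES v v.2 z z.2 hvz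
    let f : K →* G := (MulAut.conj (g : G)).toMonoidHom.comp K.subtype
    have hf : Function.Injective f := (MulAut.conj (g : G)).injective.comp hKi
    have h1 : B.map f ≤ MulAction.stabilizer G (((g : G) • (v : V), (g : G) • (z : V)) : V × V).1 ⊓
        MulAction.stabilizer G (((g : G) • (v : V), (g : G) • (z : V)) : V × V).2 := by
      rintro _ ⟨b, hb, rfl⟩
      have h2 := Subgroup.mem_inf.1 (hle (Subgroup.mem_map_of_mem K.subtype hb))
      have h3 : (b : G) • (v : V) = v := h2.1
      have h4 : (b : G) • (z : V) = z := h2.2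
      refine Subgroup.mem_inf.2 ⟨?_, ?_⟩
      · show ((g : G) * (b : G) * (g : G)⁻¹) • ((g : G) • (v : V)) = (g : G) • (v : V)
        rw [smul_smul, inv_mul_cancel_right, mul_smul, h3]
      · show ((g : G) * (b : G) * (g : G)⁻¹) • ((g : G) • (z : V)) = (g : G) • (z : V)
        rw [smul_smul, inv_mul_cancel_right, mul_smul, h4]
    have h5 : ((B.map f : Subgroup G) : Set G).Finite := by
      rw [Subgroup.coe_map]
      exact hBf.image f
    have h8 : B.map f ≤ MulAction.stabilizer G ((g : G) • (v' : V)) ⊓ MulAction.stabilizer G ((g : G) • (z' : V)) := by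
      rintro _ ⟨b, hb, rfl⟩
      have h2 := Subgroup.mem_inf.1 (hle' (Subgroup.mem_map_of_mem K.subtype hb))
      have h3 : (b : G) • (v' : V) = v' := h2.1
      have h4 : (b : G) • (z' : V) = z' := h2.2
      refine Subgroup.mem_inf.2 ⟨?_, ?_⟩
      · show ((g : G) * (b : G) * (g : G)⁻¹) • ((g : G) • (v' : V)) = (g : G) • (v' : V)
        rw [smul_smul, inv_mul_cancel_right, mul_smul, h3]
      · show ((g : G) * (b : G) * (g : G)⁻¹) • ((g : G) • (z' : V)) = (g : G) • (z' : V)
        rw [smul_smul, inv_mul_cancel_right, mul_smul, h4]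
    have h6 := hNf _ hg _ h1 ⟨_, _, by rwa [dist_act hX hadj], h8⟩ h5
    have h7 : ((B.map f : Subgroup G) : Set G).encard = (B : Set K).encard := by
      rw [Subgroup.coe_map]
      exact hf.encard_image _
    rw [h7] at h6
    refine h6.trans ?_
    exact_mod_cast Finset.le_sup (f := Nf) (hEf.mem_toFinset.2 hg)
  · intro B hB hBi
    obtain ⟨c, hcB, hco, hind, v, z, hvz, hcv, hcz⟩ := hinf B hB B le_rfl hBi
    have hcomm : Subgroup.Commensurable (B.map K.subtype) (Subgroup.zpowers c) := by
      refine ⟨?_, hind⟩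
      rw [Subgroup.relIndex_eq_one.2 ((Subgroup.zpowers_le).2 hcB)]
      exact one_ne_zero
    have hmem : ∀ k : commensurator B, ((k : K) : G) ∈ commensurator (Subgroup.zpowers c) := by
      intro k
      have h1 : Subgroup.Commensurable (B.map (MulAut.conj (k : K)).toMonoidHom) B := by
        have h2 : (k : K) ∈ MulAction.stabilizer K (Pool.Agent.H92.CZ.ccl B) := by
          rw [Pool.Agent.H92.CZ.stab_ccl]
          exact k.2
        rw [MulAction.mem_stabilizer_iff, Pool.Agent.H92.CZ.smul_ccl, Pool.Agent.H92.CZ.ccl_eq] at h2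
        exact h2
      rw [← Pool.Agent.H92.CZ.stab_ccl, MulAction.mem_stabilizer_iff, Pool.Agent.H92.CZ.smul_ccl, Pool.Agent.H92.CZ.ccl_eq]
      have h2 : Subgroup.Commensurable ((B.map K.subtype).map (MulAut.conj ((k : K) : G)).toMonoidHom) (B.map K.subtype) := by
        have e : (B.map K.subtype).map (MulAut.conj ((k : K) : G)).toMonoidHom =
            (B.map (MulAut.conj (k : K)).toMonoidHom).map K.subtype := by
          rw [Subgroup.map_map, Subgroup.map_map]
          congr 1
        rw [e]
        refine ⟨?_, ?_⟩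
        · rw [Subgroup.relIndex_map_map_of_injective _ _ hKi]
          exact h1.1
        · rw [Subgroup.relIndex_map_map_of_injective _ _ hKi]
          exact h1.2
      exact ((Pool.Agent.H92.CZ.csd_map ((k : K) : G) hcomm).symm.trans h2).trans hcomm
    refine hC.of_injective (H := commensurator (Subgroup.zpowers c))
      ((K.subtype.comp (commensurator B).subtype).codRestrict _ hmem) ?_ (hc c hco v z hvz hcv hcz)
    intro a b hab
    have h1 := congrArg (fun x : commensurator (Subgroup.zpowers c) => (x : G)) hab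
    exact Subtype.ext (Subtype.ext h1)
  · intro B hB hle hi
    refine ⟨0, Nat.zero_lt_one, ?_⟩
    obtain ⟨c, hcB, hco, hind, -⟩ := hinf (B 1) (hB 1) (B 0) (hle 0) hi
    rw [← Subgroup.relIndex_map_map_of_injective _ _ hKi]
    refine Subgroup.relIndex_ne_zero_trans (K := Subgroup.zpowers c) ?_ hind
    rw [Subgroup.relIndex_eq_one.2 ((Subgroup.zpowers_le).2 hcB)]
    exact one_ne_zero

end Pool.Agent.H54.GC
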