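import Pool.Agent.H54.GC.Clo
import Pool.Agent.H54.GC.Tmk
import Pool.Agent.H54.PQ.Fin
import Pool.Agent.H76.VC.Main

/-!
# Trees such that the stabilisers of long paths are virtually cyclic

`comm_tree`: the subtree of the vertices fixed by a power of `c`, on which the commensurator of `c` acts. `com_mem2`: the commensurator
is in the class if `c` is balanced or a shift. `gk`: the theorem. `allShift_tree2`: closure.
-/

set_option autoImplicit false

namespace Pool.Agent.H54.GC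

open Pool.Agent.H98.FJ Pool.Agent.H76.GT
open Subgroup.Commensurable (commensurator)

/-- the subtree of the vertices which are fixed by a power of `c` -/
theorem comm_tree {G V : Type} [Group G] [MulAction G V] {X : SimpleGraph V}
    (hX : X.IsTree) (hadj : ∀ (g : G) (a b : V), X.Adj a b → X.Adj (g • a) (g • b)) {c : G} (hc : ¬ IsOfFinOrder c) {a₀ : V} {n₀ : ℤ}
    (hn₀ : n₀ ≠ 0) (hca : c ^ n₀ • a₀ = a₀) (L : Subgroup G) (hL : L = commensurator (Subgroup.zpowers c)) :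
    ∃ (S : Type) (_ : MulAction L S) (Y : SimpleGraph S) (ι : S → V), Y.IsTree ∧
      (∀ (g : L) (a b : S), Y.Adj a b → Y.Adj (g • a) (g • b)) ∧
      (∀ (g : L) (s : S), ι (g • s) = (g : G) • ι s) ∧ Function.Injective ι ∧
      (∀ a b : S, Y.Adj a b ↔ X.Adj (ι a) (ι b)) ∧ ∀ v : V, (∃ n : ℤ, n ≠ 0 ∧ c ^ n • v = v) ↔ ∃ s, ι s = v := by
  have hLm : ∀ g : G, g ∈ L ↔ ∃ m n : ℤ, m ≠ 0 ∧ n ≠ 0 ∧ g * c ^ m * g⁻¹ = c ^ n := by
    intro g
    rw [hL]
    exact mem_comm hc g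
  set S : Set V := {v | ∃ n : ℤ, n ≠ 0 ∧ c ^ n • v = v} with hSd
  have hSi : ∀ g : L, ∀ v ∈ S, g • v ∈ S := by
    rintro g v ⟨n, hn, h⟩
    obtain ⟨m, l, hm, hl, hg⟩ := (hLm (g : G)).1 g.2
    refine ⟨l * n, mul_ne_zero hl hn, ?_⟩
    show c ^ (l * n) • ((g : G) • v) = (g : G) • v
    have h1 : c ^ (l * n) * (g : G) = (g : G) * c ^ (n * m) := by
      rw [zpow_mul, ← hg, conj_zpow, ← zpow_mul, mul_comm m n]
      group
    rw [← mul_smul, h1, mul_smul, zpow_smul_mul h m]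
  have hSc : Cvx X S := by
    rintro a ⟨n, hn, ha⟩ b ⟨m, hm, hb⟩ z hz
    have ha' : c ^ (n * m) • a = a := zpow_smul_mul ha m
    have hb' : c ^ (n * m) • b = b := by
      rw [mul_comm]
      exact zpow_smul_mul hb n
    exact ⟨n * m, mul_ne_zero hn hm, fix_between hX (fun v => c ^ (n * m) • v) (fun a b h => hadj _ a b h) ha' hb' hz⟩
  have ha₀ : a₀ ∈ S := ⟨n₀, hn₀, hca⟩
  have hX' : (X.induce S).IsTree := induce_tree hX hSc ⟨a₀, ha₀⟩
  refine ⟨S, { smul := fun g v => ⟨g • (v : V), hSi g v v.2⟩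
               one_smul := fun v => Subtype.ext (one_smul L (v : V))
               mul_smul := fun g h v => Subtype.ext (mul_smul g h (v : V)) }, X.induce S, Subtype.val, hX', ?_, ?_,
    Subtype.val_injective, fun _ _ => Iff.rfl, ?_⟩
  · intro g a b h
    exact hadj (g : G) a b h
  · intro g s
    rfl
  · intro v
    constructor
    · intro h
      exact ⟨⟨v, h⟩, rfl⟩
    · rintro ⟨s, rfl⟩
      exact s.2

/-- the local condition at the vertices fixed by powers of `c` -/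
def Sp (G : Type) [Group G] (V : Type) [MulAction G V] (c : G) : Prop :=
  ∀ v : V, (∃ n : ℤ, n ≠ 0 ∧ c ^ n • v = v) → ∃ (n : ℤ) (h : c ^ n • v = v), n ≠ 0 ∧ Shift (MulAction.stabilizer G v) ⟨c ^ n, h⟩

/-- the cocycle -/
theorem coc_key2 {L V : Type} [Group L] [MulAction L V] {X : SimpleGraph V}
    (hX : X.IsTree) (hadj : ∀ (g : L) (a b : V), X.Adj a b → X.Adj (g • a) (g • b))
    (he : ∀ a b : V, X.Adj a b → VirtuallyCyclic ↥(MulAction.stabilizer L a ⊓ MulAction.stabilizer L b))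
    {c : L} (hc : ¬ IsOfFinOrder c) (hfix : ∀ x : V, ∃ n : ℤ, n ≠ 0 ∧ c ^ n • x = x) (hs : Sp L V c) (hcm : Cmd c) :
    ∃ (Δ : L →* ℚˣ) (β : L → ℚ), Mdl c Δ ∧ (∀ g h, β (g * h) = β g + Δ g * β h) ∧ β c = 1 := by
  obtain ⟨Δ, hΔ⟩ := exists_dl hc hcm
  have he' : ∀ a b : V, X.Adj a b → ∀ n : ℤ, n ≠ 0 → c ^ n • a = a → c ^ n • b = b →
      (Subgroup.zpowers (c ^ n)).relIndex (MulAction.stabilizer L a ⊓ MulAction.stabilizer L b) ≠ 0 :=
    fun a b hab n hn ha hb => vc_zpowers _ (he a b hab) (Subgroup.mem_inf.2 ⟨ha, hb⟩) (zpow_not_fin hc hn)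
  have hb : ∀ x : V, ∃ b : L → ℚ, (∀ g h : L, g • x = x → h • x = x → b (g * h) = b g + Δ g * b h) ∧
      ∀ k : ℤ, c ^ k • x = x → b (c ^ k) = k := by
    intro x
    obtain ⟨n, h, hn, hS⟩ := hs x (hfix x)
    exact local_b hc hcm hΔ x hn h hS
  choose b hb1 hb2 using hb
  obtain ⟨β, hβ, hβc⟩ := exists_beta hX hadj hc hcm hΔ hfix he' b hb1 hb2
  exact ⟨Δ, β, hΔ, hβ, hβc⟩

theorem gc_key2 {C : (G : Type) → [Group G] → Prop} (hC : Inherits C) (hE : Extension C) (hT : Transfer C)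
    (hS : ∀ (G : Type) [Group G], Group.IsSolvable G → C G) {L V : Type} [Group L] [MulAction L V] {X : SimpleGraph V}
    (hX : X.IsTree) (hadj : ∀ (g : L) (a b : V), X.Adj a b → X.Adj (g • a) (g • b))
    (hv : ∀ v : V, C (MulAction.stabilizer L v))
    (he : ∀ a b : V, X.Adj a b → VirtuallyCyclic ↥(MulAction.stabilizer L a ⊓ MulAction.stabilizer L b))
    {c : L} (hc : ¬ IsOfFinOrder c) (hfix : ∀ x : V, ∃ n : ℤ, n ≠ 0 ∧ c ^ n • x = x) (hs : Sp L V c) (hcm : Cmd c) : C L := by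
  obtain ⟨Δ, β, hΔ, hβ, hβc⟩ := coc_key2 hX hadj he hc hfix hs hcm
  have he' : ∀ a b : V, X.Adj a b → ∀ n : ℤ, n ≠ 0 → c ^ n • a = a → c ^ n • b = b →
      (Subgroup.zpowers (c ^ n)).relIndex (MulAction.stabilizer L a ⊓ MulAction.stabilizer L b) ≠ 0 :=
    fun a b hab n hn ha hb => vc_zpowers _ (he a b hab) (Subgroup.mem_inf.2 ⟨ha, hb⟩) (zpow_not_fin hc hn)
  exact final_step hC hE hT hS hX hadj hv hc hcm hΔ hfix he' β hβ hβc

section

variable {G V S : Type} [Group G] [MulAction G V] {L : Subgroup G} [MulAction L S] {ι : S → V}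

/-- the inclusion of the stabilisers -/
def stabHom (hsm : ∀ (g : L) (s : S), ι (g • s) = (g : G) • ι s) (s : S) :
    MulAction.stabilizer L s →* MulAction.stabilizer G (ι s) where
  toFun g := ⟨((g : L) : G), by
    rw [MulAction.mem_stabilizer_iff, ← hsm, show (g : L) • s = s from g.2]⟩
  map_one' := rfl
  map_mul' _ _ := rfl

theorem stabHom_inj (hsm : ∀ (g : L) (s : S), ι (g • s) = (g : G) • ι s) (s : S) : Function.Injective (stabHom hsm s) := by
  intro g h hgh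
  have h1 := congrArg (fun z : MulAction.stabilizer G (ι s) => (z : G)) hgh
  exact Subtype.ext (Subtype.ext h1)

end

/-- a common power -/
theorem common_pow {G V : Type} [Group G] [MulAction G V] {c : G} {v w : V} (hv : ∃ n : ℤ, n ≠ 0 ∧ c ^ n • v = v)
    (hw : ∃ n : ℤ, n ≠ 0 ∧ c ^ n • w = w) : ∃ n : ℤ, n ≠ 0 ∧ c ^ n • v = v ∧ c ^ n • w = w := by
  obtain ⟨n, hn, h1⟩ := hv
  obtain ⟨m, hm, h2⟩ := hw
  refine ⟨n * m, mul_ne_zero hn hm, zpow_smul_mul h1 m, ?_⟩
  rw [mul_comm]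
  exact zpow_smul_mul h2 n

/-- the commensurator of a balanced element or of a shift -/
theorem com_mem2 {C : (G : Type) → [Group G] → Prop} (hC : Inherits C) (hE : Extension C) (hT : Transfer C)
    (hS : ∀ (G : Type) [Group G], Group.IsSolvable G → C G) {G V : Type} [Group G] [MulAction G V] {X : SimpleGraph V}
    (hX : X.IsTree) (hadj : ∀ (g : G) (a b : V), X.Adj a b → X.Adj (g • a) (g • b))
    (hv : ∀ v : V, C (MulAction.stabilizer G v)) {c : G} (hc : ¬ IsOfFinOrder c) {a₀ : V} {n₀ : ℤ}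
    (hn₀ : n₀ ≠ 0) (hca : c ^ n₀ • a₀ = a₀)
    (hEc : ∀ a b : V, X.Adj a b → ∀ n : ℤ, n ≠ 0 → c ^ n • a = a → c ^ n • b = b →
      VirtuallyCyclic ↥(commensurator (Subgroup.zpowers c) ⊓ (MulAction.stabilizer G a ⊓ MulAction.stabilizer G b)))
    (h : Pool.Agent.H76.VC.Bal c ∨ Sp G V c) : C (commensurator (Subgroup.zpowers c)) := by
  obtain ⟨L, hL⟩ : ∃ L : Subgroup G, L = commensurator (Subgroup.zpowers c) := ⟨_, rfl⟩
  rw [← hL] at hEc ⊢
  have hLm : ∀ g : G, g ∈ L ↔ ∃ m n : ℤ, m ≠ 0 ∧ n ≠ 0 ∧ g * c ^ m * g⁻¹ = c ^ n := by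
    intro g
    rw [hL]
    exact mem_comm hc g
  obtain ⟨S, _, Y, ι, hY, hYa, hsm, hinj, hYX, hιS⟩ := comm_tree hX hadj hc hn₀ hca L hL
  have hcL : c ∈ L := (hLm c).2 ⟨1, 1, one_ne_zero, one_ne_zero, by group⟩
  have hc' : ¬ IsOfFinOrder (⟨c, hcL⟩ : L) := fun h => hc (Submonoid.isOfFinOrder_coe.2 h)
  have hcm : Cmd (⟨c, hcL⟩ : L) := by
    intro g
    obtain ⟨m, l, hm, hl, hg⟩ := (hLm (g : G)).1 g.2
    exact ⟨m, l, hm, hl, Subtype.ext hg⟩
  have hfixS : ∀ s : S, ∃ n : ℤ, n ≠ 0 ∧ (⟨c, hcL⟩ : L) ^ n • s = s := by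
    intro s
    obtain ⟨n, hn, h1⟩ := (hιS (ι s)).2 ⟨s, rfl⟩
    exact ⟨n, hn, hinj (by rw [hsm]; exact h1)⟩
  have hvS : ∀ s : S, C (MulAction.stabilizer L s) := fun s => hC.of_injective (stabHom hsm s) (stabHom_inj hsm s) (hv _)
  have heS : ∀ a b : S, Y.Adj a b → VirtuallyCyclic ↥(MulAction.stabilizer L a ⊓ MulAction.stabilizer L b) := by
    intro a b hab
    obtain ⟨n, hn, h1, h2⟩ := common_pow (hfixS a) (hfixS b)
    have h1' : c ^ n • ι a = ι a := by
      have := congrArg ι h1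
      rw [hsm] at this
      exact this
    have h2' : c ^ n • ι b = ι b := by
      have := congrArg ι h2
      rw [hsm] at this
      exact this
    let φ : ↥(MulAction.stabilizer L a ⊓ MulAction.stabilizer L b) →*
        ↥(L ⊓ (MulAction.stabilizer G (ι a) ⊓ MulAction.stabilizer G (ι b))) :=
      { toFun := fun g => ⟨((g : L) : G), (g : L).2, by
            show ((g : L) : G) • ι a = ι a
            rw [← hsm, show (g : L) • a = a from g.2.1], by
            show ((g : L) : G) • ι b = ι b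
            rw [← hsm, show (g : L) • b = b from g.2.2]⟩
        map_one' := rfl
        map_mul' := fun _ _ => rfl }
    refine vc_of_injective φ ?_ (hEc _ _ ((hYX a b).1 hab) n hn h1' h2')
    intro g h hgh
    have h1 := congrArg (fun z : ↥(L ⊓ (MulAction.stabilizer G (ι a) ⊓ MulAction.stabilizer G (ι b))) => (z : G)) hgh
    exact Subtype.ext (Subtype.ext h1)
  rcases h with hb | hs
  · refine Pool.Agent.H76.VC.main hC (Pool.Agent.H54.PQ.acylExt_of_transfer hC hT) ⟨hY, hYa⟩ hvS heS ?_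
    intro z v w hvw hzv hzw hz hnb
    refine absurd ?_ hnb
    intro g m l hm hl hg
    obtain ⟨n, hn, h1, h2⟩ := common_pow (hfixS v) (hfixS w)
    obtain ⟨p, q, hp, hq, hpq⟩ := Pool.Agent.H76.VC.vc_pow (heS v w hvw) (z := z) (w := (⟨c, hcL⟩ : L) ^ n)
      (Subgroup.mem_inf.2 ⟨hzv, hzw⟩) (Subgroup.mem_inf.2 ⟨h1, h2⟩) hz (zpow_not_fin hc' hn)
    rw [← zpow_mul] at hpq
    have h3 : g * (⟨c, hcL⟩ : L) ^ (n * q * m) * g⁻¹ = (⟨c, hcL⟩ : L) ^ (n * q * l) := by
      have h4 := conj_pow_pow hg p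
      rw [mul_comm m p, mul_comm l p, zpow_mul, zpow_mul, hpq, ← zpow_mul, ← zpow_mul] at h4
      exact h4
    have h4 : (g : G) * c ^ (n * q * m) * (g : G)⁻¹ = c ^ (n * q * l) := congrArg Subtype.val h3
    have h5 := hb g _ _ (mul_ne_zero (mul_ne_zero hn hq) hm) (mul_ne_zero (mul_ne_zero hn hq) hl) h4
    rw [abs_mul, abs_mul (n * q) l] at h5
    exact mul_left_cancel₀ (abs_ne_zero.2 (mul_ne_zero hn hq)) h5
  · refine gc_key2 hC hE hT hS hY hYa hvS heS hc' hfixS ?_ hcm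
    intro s _
    obtain ⟨n, h1, hn, h2⟩ := hs (ι s) ((hιS (ι s)).2 ⟨s, rfl⟩)
    have h3 : (⟨c, hcL⟩ : L) ^ n • s = s := hinj (by rw [hsm]; exact h1)
    refine ⟨n, h3, hn, ?_⟩
    refine Shift.of_injective (stabHom hsm s) (stabHom_inj hsm s) ?_ h2
    intro h4
    exact zpow_not_fin hc' hn (Submonoid.isOfFinOrder_coe.2 h4)

/-- the commensurator of a power -/
theorem comm_zpow {G : Type} [Group G] (c : G) {n : ℤ} (hn : n ≠ 0) :
    commensurator (Subgroup.zpowers (c ^ n)) = commensurator (Subgroup.zpowers c) :=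
  (csb_pow c hn).eq

/-- the condition on the edge stabilisers -/
def EdgeC (G : Type) [Group G] {V : Type} [MulAction G V] (X : SimpleGraph V) : Prop :=
  ∀ c : G, ¬ IsOfFinOrder c → ∀ a b : V, X.Adj a b → c • a = a → c • b = b →
    VirtuallyCyclic ↥(commensurator (Subgroup.zpowers c) ⊓ (MulAction.stabilizer G a ⊓ MulAction.stabilizer G b))

theorem EdgeC.pow {G V : Type} [Group G] [MulAction G V] {X : SimpleGraph V} (h : EdgeC G X) {c : G} (hc : ¬ IsOfFinOrder c)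
    (a b : V) (hab : X.Adj a b) (n : ℤ) (hn : n ≠ 0) (ha : c ^ n • a = a) (hb : c ^ n • b = b) :
    VirtuallyCyclic ↥(commensurator (Subgroup.zpowers c) ⊓ (MulAction.stabilizer G a ⊓ MulAction.stabilizer G b)) := by
  have h1 := h (c ^ n) (zpow_not_fin hc hn) a b hab ha hb
  rwa [comm_zpow c hn] at h1

/-- the cocycle on the commensurator -/
theorem shift_edge2 {G V : Type} [Group G] [MulAction G V] {X : SimpleGraph V}
    (hX : X.IsTree) (hadj : ∀ (g : G) (a b : V), X.Adj a b → X.Adj (g • a) (g • b)) (hEd : EdgeC G X) {c : G}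
    (hc : ¬ IsOfFinOrder c) {a₀ : V} {n₀ : ℤ} (hn₀ : n₀ ≠ 0) (hca : c ^ n₀ • a₀ = a₀) (hs : Sp G V c) : Shift G c := by
  refine Shift.of_commensurator hc fun hcL₀ => ?_
  obtain ⟨L, hL⟩ : ∃ L : Subgroup G, L = commensurator (Subgroup.zpowers c) := ⟨_, rfl⟩
  have hEc : ∀ a b : V, X.Adj a b → ∀ n : ℤ, n ≠ 0 → c ^ n • a = a → c ^ n • b = b →
      VirtuallyCyclic ↥(L ⊓ (MulAction.stabilizer G a ⊓ MulAction.stabilizer G b)) := by
    rw [hL]
    intro a b h n hn ha hb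
    exact hEd.pow hc a b h n hn ha hb
  have hLm : ∀ g : G, g ∈ L ↔ ∃ m n : ℤ, m ≠ 0 ∧ n ≠ 0 ∧ g * c ^ m * g⁻¹ = c ^ n := by
    intro g
    rw [hL]
    exact mem_comm hc g
  obtain ⟨S, _, Y, ι, hY, hYa, hsm, hinj, hYX, hιS⟩ := comm_tree hX hadj hc hn₀ hca L hL
  have hcL : c ∈ L := (hLm c).2 ⟨1, 1, one_ne_zero, one_ne_zero, by group⟩
  have hc' : ¬ IsOfFinOrder (⟨c, hcL⟩ : L) := fun h => hc (Submonoid.isOfFinOrder_coe.2 h)
  have hcm : Cmd (⟨c, hcL⟩ : L) := by
    intro g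
    obtain ⟨m, l, hm, hl, hg⟩ := (hLm (g : G)).1 g.2
    exact ⟨m, l, hm, hl, Subtype.ext hg⟩
  have hfixS : ∀ s : S, ∃ n : ℤ, n ≠ 0 ∧ (⟨c, hcL⟩ : L) ^ n • s = s := by
    intro s
    obtain ⟨n, hn, h1⟩ := (hιS (ι s)).2 ⟨s, rfl⟩
    exact ⟨n, hn, hinj (by rw [hsm]; exact h1)⟩
  have heS : ∀ a b : S, Y.Adj a b → VirtuallyCyclic ↥(MulAction.stabilizer L a ⊓ MulAction.stabilizer L b) := by
    intro a b hab
    obtain ⟨n, hn, h1, h2⟩ := common_pow (hfixS a) (hfixS b)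
    have h1' : c ^ n • ι a = ι a := by
      have := congrArg ι h1
      rw [hsm] at this
      exact this
    have h2' : c ^ n • ι b = ι b := by
      have := congrArg ι h2
      rw [hsm] at this
      exact this
    let φ : ↥(MulAction.stabilizer L a ⊓ MulAction.stabilizer L b) →*
        ↥(L ⊓ (MulAction.stabilizer G (ι a) ⊓ MulAction.stabilizer G (ι b))) :=
      { toFun := fun g => ⟨((g : L) : G), (g : L).2, by
            show ((g : L) : G) • ι a = ι a
            rw [← hsm, show (g : L) • a = a from g.2.1], by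
            show ((g : L) : G) • ι b = ι b
            rw [← hsm, show (g : L) • b = b from g.2.2]⟩
        map_one' := rfl
        map_mul' := fun _ _ => rfl }
    refine vc_of_injective φ ?_ (hEc _ _ ((hYX a b).1 hab) n hn h1' h2')
    intro g h hgh
    have h1 := congrArg (fun z : ↥(L ⊓ (MulAction.stabilizer G (ι a) ⊓ MulAction.stabilizer G (ι b))) => (z : G)) hgh
    exact Subtype.ext (Subtype.ext h1)
  have hsS : Sp L S (⟨c, hcL⟩ : L) := by
    intro s _
    obtain ⟨n, h1, hn, h2⟩ := hs (ι s) ((hιS (ι s)).2 ⟨s, rfl⟩)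
    have h3 : (⟨c, hcL⟩ : L) ^ n • s = s := hinj (by rw [hsm]; exact h1)
    refine ⟨n, h3, hn, ?_⟩
    refine Shift.of_injective (stabHom hsm s) (stabHom_inj hsm s) ?_ h2
    intro h4
    exact zpow_not_fin hc' hn (Submonoid.isOfFinOrder_coe.2 h4)
  obtain ⟨Δ, β, hΔ, hβ, hβc⟩ := coc_key2 hY hYa heS hc' hfixS hsS hcm
  subst hL
  refine Shift.of_cocycle Δ β hβ ?_ (by rw [hβc]; exact one_ne_zero)
  have h1 := Mdl.pow hΔ 1
  rwa [zpow_one] at h1

/-- closure -/
theorem allShift_tree2 {G V : Type} [Group G] [MulAction G V] {X : SimpleGraph V}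
    (hX : X.IsTree) (hadj : ∀ (g : G) (a b : V), X.Adj a b → X.Adj (g • a) (g • b)) (hEd : EdgeC G X)
    (hs : ∀ a : V, AllShift (MulAction.stabilizer G a)) : AllShift G := by
  intro c hc
  by_cases h1 : ∀ n : ℤ, n ≠ 0 → ∀ v : V, c ^ n • v ≠ v
  · exact Shift.of_tree hX hadj fun n v hn => h1 n hn v
  push Not at h1
  obtain ⟨n, hn, v, hv⟩ := h1
  refine shift_edge2 hX hadj hEd hc hn hv ?_
  rintro w ⟨m, hm, hw⟩
  exact ⟨m, hw, hm, hs w _ (fun h => zpow_not_fin hc hm (Submonoid.isOfFinOrder_coe.2 h))⟩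

/-- the elements whose commensurators are in the class: the commensurator has virtually cyclic edge stabilisers on the tree of the
vertices fixed by powers of `c`, and `c` is balanced or satisfies the local condition -/
def Tame (G : Type) [Group G] {V : Type} [MulAction G V] (X : SimpleGraph V) (c : G) : Prop :=
  (∀ a b : V, X.Adj a b → (∃ n : ℤ, n ≠ 0 ∧ c ^ n • a = a ∧ c ^ n • b = b) →
    VirtuallyCyclic ↥(commensurator (Subgroup.zpowers c) ⊓ (MulAction.stabilizer G a ⊓ MulAction.stabilizer G b))) ∧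
  (Pool.Agent.H76.VC.Bal c ∨ Sp G V c)

/-- **Theorem GK**, necessary and sufficient condition -/
theorem gk_iff {C : (G : Type) → [Group G] → Prop} (hC : Inherits C) (hE : Extension C) (hT : Transfer C)
    (hS : ∀ (G : Type) [Group G], Group.IsSolvable G → C G) {G V : Type} [Group G] [MulAction G V] {X : SimpleGraph V}
    (hX : X.IsTree) (hadj : ∀ (g : G) (a b : V), X.Adj a b → X.Adj (g • a) (g • b))
    (hv : ∀ v : V, C (MulAction.stabilizer G v))
    (k : ℕ) (hf : ∀ a b : V, X.Adj a b → ∃ N : ℕ, ∀ B : Subgroup G, B ≤ MulAction.stabilizer G a ⊓ MulAction.stabilizer G b →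
      (∃ a' b' : V, k ≤ X.dist a' b' ∧ B ≤ MulAction.stabilizer G a' ⊓ MulAction.stabilizer G b') →
      (B : Set G).Finite → (B : Set G).encard ≤ N)
    (he : ∀ a b : V, k ≤ X.dist a b → VirtuallyCyclic ↥(MulAction.stabilizer G a ⊓ MulAction.stabilizer G b)) :
    C G ↔ ∀ c : G, ¬ IsOfFinOrder c → (∃ a b : V, k ≤ X.dist a b ∧ c • a = a ∧ c • b = b) → ¬ Tame G X c →
      C (commensurator (Subgroup.zpowers c)) := by
  constructor
  · intro h c _ _ _
    exact hC.sub G _ h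
  · intro h
    refine tree_main_k hC hT hX hadj hv (k + 1) (Nat.succ_le_succ (Nat.zero_le k)) ?_ (fun a b h => he a b (by omega)) ?_
    · intro a b hab
      obtain ⟨N, hN⟩ := hf a b hab
      refine ⟨N, fun B hB ⟨a', b', h1, h2⟩ hBf => hN B hB ⟨a', b', by omega, h2⟩ hBf⟩
    intro c hc a b hab ha hb
    by_cases ht : Tame G X c
    · refine com_mem2 hC hE hT hS hX hadj hv hc one_ne_zero (by rw [zpow_one]; exact ha) ?_ ht.2
      intro a' b' h n hn ha' hb'
      exact ht.1 a' b' h ⟨n, hn, ha', hb'⟩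
    · exact h c hc ⟨a, b, by omega, ha, hb⟩ ht

end Pool.Agent.H54.GC
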