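import Pool.Agent.H54.GC.Dl
import Pool.Agent.H71.GC.Glue

/-!
# The global cocycle
-/

set_option autoImplicit false

namespace Pool.Agent.H54.GC

theorem exists_beta {L V : Type} [Group L] [MulAction L V] {X : SimpleGraph V} (hX : X.IsTree)
    (hadj : ∀ (g : L) (a b : V), X.Adj a b → X.Adj (g • a) (g • b)) {c : L} (hc : ¬ IsOfFinOrder c) (hcm : Cmd c)
    {Δ : L →* ℚˣ} (hΔ : Mdl c Δ) (hfix : ∀ x : V, ∃ n : ℤ, n ≠ 0 ∧ c ^ n • x = x)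
    (he : ∀ a b : V, X.Adj a b → ∀ n : ℤ, n ≠ 0 → c ^ n • a = a → c ^ n • b = b →
      (Subgroup.zpowers (c ^ n)).relIndex (MulAction.stabilizer L a ⊓ MulAction.stabilizer L b) ≠ 0)
    (b : V → L → ℚ) (hb : ∀ (x : V) (g h : L), g • x = x → h • x = x → b x (g * h) = b x g + Δ g * b x h)
    (hbc : ∀ (x : V) (n : ℤ), c ^ n • x = x → b x (c ^ n) = n) :
    ∃ β : L → ℚ, (∀ g h, β (g * h) = β g + Δ g * β h) ∧ β c = 1 := by
  have hfx : ∀ (n k : ℤ) (x : V), c ^ n • x = x → c ^ (n * k) • x = x := by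
    intro n k x hx
    rw [zpow_mul]
    exact (Subgroup.zpow_mem (MulAction.stabilizer L x) hx k : _)
  have g1 : ∀ n : ℤ, c ^ n = 1 → n = 0 := by
    intro n hn
    by_contra h0
    exact hc (isOfFinOrder_iff_zpow_eq_one.2 ⟨n, h0, hn⟩)
  have g2 : ∀ g : L, ∃ m n : ℤ, m ≠ 0 ∧ n ≠ 0 ∧ g * c ^ m * g⁻¹ = c ^ n ∧ (Units.coeHom ℚ).comp Δ g * m = n := by
    intro g
    obtain ⟨m, n, hm, hn, h⟩ := hcm g
    exact ⟨m, n, hm, hn, h, (hΔ g m n h).symm⟩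
  have g3 : ∀ v : V, ∃ b : L → ℚ, Pool.Agent.H71.GC.CH ((Units.coeHom ℚ).comp Δ) (MulAction.stabilizer L v) b ∧
      ∃ n : ℤ, n ≠ 0 ∧ c ^ n • v = v ∧ b (c ^ n) = n := by
    intro v
    obtain ⟨n, hn, hx⟩ := hfix v
    exact ⟨b v, fun g hg h hh => hb v g h hg hh, n, hn, hx, hbc v n hx⟩
  have g4 : ∀ v w : V, X.Adj v w → ∀ g : L, g • v = v → g • w = w → ∃ m n : ℤ, m ≠ 0 ∧ g ^ m = c ^ n := by
    intro v w hvw g hgv hgw
    obtain ⟨n1, hn1, hv⟩ := hfix v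
    obtain ⟨n2, hn2, hw⟩ := hfix w
    have hv' := hfx n1 n2 v hv
    have hw' := hfx n2 n1 w hw
    rw [mul_comm] at hw'
    have h3 := he v w hvw (n1 * n2) (mul_ne_zero hn1 hn2) hv' hw'
    obtain ⟨k, hk, -, h4⟩ := Subgroup.exists_pow_mem_of_relIndex_ne_zero h3
      (show g ∈ MulAction.stabilizer L v ⊓ MulAction.stabilizer L w from ⟨hgv, hgw⟩)
    obtain ⟨j, hj⟩ := Subgroup.mem_zpowers_iff.1 h4.1
    refine ⟨k, n1 * n2 * j, by omega, ?_⟩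
    rw [zpow_natCast, ← hj, ← zpow_mul]
  obtain ⟨β, h1, -, h2⟩ := Pool.Agent.H71.GC.glue (X := X) ⟨hX, hadj⟩ ((Units.coeHom ℚ).comp Δ) c g1 g2 g3 g4
  exact ⟨β, fun g h => h1 g h, h2⟩

end Pool.Agent.H54.GC
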