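import Pool.Agent.H54.GC.Tm
import Pool.Agent.H54.GC.Loc
import Pool.Agent.H54.GC.Phi
import Pool.Agent.H54.GC.Fin

/-!
# Actions on trees with virtually cyclic edge stabilisers
-/

set_option autoImplicit false

namespace Pool.Agent.H54.GC

open Pool.Agent.H98.FJ Pool.Agent.H76.GT
open Subgroup.Commensurable (commensurator)

theorem zpow_smul_mul {G V : Type} [Group G] [MulAction G V] {c : G} {v : V} {n : ℤ} (h : c ^ n • v = v) (m : ℤ) :
    c ^ (n * m) • v = v := by
  have h1 : c ^ n ∈ MulAction.stabilizer G v := h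
  have h2 : (c ^ n) ^ m ∈ MulAction.stabilizer G v := Subgroup.zpow_mem _ h1 m
  rw [← zpow_mul] at h2
  exact h2

theorem zpow_not_fin {G : Type} [Group G] {c : G} (hc : ¬ IsOfFinOrder c) {n : ℤ} (hn : n ≠ 0) : ¬ IsOfFinOrder (c ^ n) := by
  intro h
  rw [isOfFinOrder_iff_pow_eq_one] at h
  obtain ⟨k, hk, h1⟩ := h
  apply hc
  rw [isOfFinOrder_iff_zpow_eq_one]
  refine ⟨n * k, mul_ne_zero hn (by exact_mod_cast hk.ne'), ?_⟩
  rw [zpow_mul, zpow_natCast]
  exact h1

/-- the case of a commensurated element all of whose stabilisers contain a power of it -/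
theorem gc_key {C : (G : Type) → [Group G] → Prop} (hC : Inherits C) (hE : Extension C) (hT : Transfer C)
    (hS : ∀ (G : Type) [Group G], Group.IsSolvable G → C G) {L V : Type} [Group L] [MulAction L V] {X : SimpleGraph V}
    (hX : X.IsTree) (hadj : ∀ (g : L) (a b : V), X.Adj a b → X.Adj (g • a) (g • b))
    (hv : ∀ v : V, C (MulAction.stabilizer L v))
    (he : ∀ a b : V, X.Adj a b → VirtuallyCyclic ↥(MulAction.stabilizer L a ⊓ MulAction.stabilizer L b))
    (hs : ∀ a b : V, X.Adj a b → ∀ c : ↥(MulAction.stabilizer L a), ¬ IsOfFinOrder c → (c : L) • b = b →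
      Shift (MulAction.stabilizer L a) c) {c : L} (hc : ¬ IsOfFinOrder c) (hfix : ∀ x : V, ∃ n : ℤ, n ≠ 0 ∧ c ^ n • x = x)
    (hcm : Cmd c) (hnb : ∀ x : V, ∃ y, X.Adj x y) : C L := by
  obtain ⟨Δ, hΔ⟩ := exists_dl hc hcm
  have he' : ∀ a b : V, X.Adj a b → ∀ n : ℤ, n ≠ 0 → c ^ n • a = a → c ^ n • b = b →
      (Subgroup.zpowers (c ^ n)).relIndex (MulAction.stabilizer L a ⊓ MulAction.stabilizer L b) ≠ 0 :=
    fun a b hab n hn ha hb => vc_zpowers _ (he a b hab) (Subgroup.mem_inf.2 ⟨ha, hb⟩) (zpow_not_fin hc hn)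
  have hb : ∀ x : V, ∃ b : L → ℚ, (∀ g h : L, g • x = x → h • x = x → b (g * h) = b g + Δ g * b h) ∧
      ∀ k : ℤ, c ^ k • x = x → b (c ^ k) = k := by
    intro x
    obtain ⟨y, hy⟩ := hnb x
    obtain ⟨n, hn, hnx⟩ := hfix x
    obtain ⟨m, hm, hmy⟩ := hfix y
    have hx1 : c ^ (n * m) • x = x := zpow_smul_mul hnx m
    have hy1 : c ^ (n * m) • y = y := by
      rw [mul_comm]
      exact zpow_smul_mul hmy n
    have hnm : n * m ≠ 0 := mul_ne_zero hn hm
    exact local_b hc hcm hΔ x hnm hx1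
      (hs x y hy ⟨c ^ (n * m), hx1⟩ (fun h => zpow_not_fin hc hnm (Submonoid.isOfFinOrder_coe.2 h)) hy1)
  choose b hb1 hb2 using hb
  obtain ⟨β, hβ, hβc⟩ := exists_beta hX hadj hc hcm hΔ hfix he' b hb1 hb2
  exact final_step hC hE hT hS hX hadj hv hc hcm hΔ hfix he' β hβ hβc

theorem gc {C : (G : Type) → [Group G] → Prop} (hC : Inherits C) (hE : Extension C) (hT : Transfer C)
    (hS : ∀ (G : Type) [Group G], Group.IsSolvable G → C G) {G V : Type} [Group G] [MulAction G V] {X : SimpleGraph V}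
    (hX : X.IsTree) (hadj : ∀ (g : G) (a b : V), X.Adj a b → X.Adj (g • a) (g • b))
    (hv : ∀ v : V, C (MulAction.stabilizer G v))
    (he : ∀ a b : V, X.Adj a b → VirtuallyCyclic ↥(MulAction.stabilizer G a ⊓ MulAction.stabilizer G b))
    (hs : ∀ a b : V, X.Adj a b → ∀ c : ↥(MulAction.stabilizer G a), ¬ IsOfFinOrder c → (c : G) • b = b →
      Shift (MulAction.stabilizer G a) c) : C G := by
  refine tree_main hC hT hX hadj hv he fun c hc a₀ b₀ hab hca hcb => ?_
  set L := commensurator (Subgroup.zpowers c) with hL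
  have hcL : c ∈ L := (mem_comm hc c).2 ⟨1, 1, one_ne_zero, one_ne_zero, by group⟩
  -- the set of the vertices fixed by a power of `c`
  set S : Set V := {v | ∃ n : ℤ, n ≠ 0 ∧ c ^ n • v = v} with hSd
  have hSi : ∀ g : L, ∀ v ∈ S, g • v ∈ S := by
    rintro g v ⟨n, hn, h⟩
    obtain ⟨m, l, hm, hl, hg⟩ := (mem_comm hc (g : G)).1 g.2
    refine ⟨l * n, mul_ne_zero hl hn, ?_⟩
    show c ^ (l * n) • ((g : G) • v) = (g : G) • v
    have h1 : c ^ (l * n) * (g : G) = (g : G) * c ^ (n * m) := by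
      rw [zpow_mul, ← hg, conj_zpow, ← zpow_mul, mul_comm m n]
      group
    rw [← mul_smul, h1, mul_smul, zpow_smul_mul h m]
  have hSc : Cvx X S := by
    rintro a ⟨n, hn, ha⟩ b ⟨m, hm, hb⟩ z hz
    have ha' : c ^ (n * m) • a = a := zpow_smul_mul ha m
    have hb' : c ^ (n * m) • b = b := by
      rw [mul_comm]
      exact zpow_smul_mul hb n
    exact ⟨n * m, mul_ne_zero hn hm, fix_between hX (fun v => c ^ (n * m) • v) (fun a b h => hadj _ a b h) ha' hb' hz⟩
  have ha₀ : a₀ ∈ S := ⟨1, one_ne_zero, by rw [zpow_one]; exact hca⟩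
  have hb₀ : b₀ ∈ S := ⟨1, one_ne_zero, by rw [zpow_one]; exact hcb⟩
  have hX' : (X.induce S).IsTree := induce_tree hX hSc ⟨a₀, ha₀⟩
  let _ : MulAction L S :=
    { smul := fun g v => ⟨g • (v : V), hSi g v v.2⟩
      one_smul := fun v => Subtype.ext (one_smul L (v : V))
      mul_smul := fun g h v => Subtype.ext (mul_smul g h (v : V)) }
  have hsm : ∀ (g : L) (v : S), ((g • v : S) : V) = (g : G) • (v : V) := fun g v => rfl
  have hnb : ∀ x : S, ∃ y, (X.induce S).Adj x y := by
    intro x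
    obtain ⟨w⟩ := hX'.connected.preconnected x ⟨a₀, ha₀⟩
    cases w with
    | nil => exact ⟨⟨b₀, hb₀⟩, hab⟩
    | cons h _ => exact ⟨_, h⟩
  have hadj' : ∀ (g : L) (a b : S), (X.induce S).Adj a b → (X.induce S).Adj (g • a) (g • b) :=
    fun g a b h => hadj (g : G) a b h
  have hcm : Cmd (⟨c, hcL⟩ : L) := by
    intro g
    obtain ⟨m, l, hm, hl, hg⟩ := (mem_comm hc (g : G)).1 g.2
    exact ⟨m, l, hm, hl, Subtype.ext hg⟩
  have hc' : ¬ IsOfFinOrder (⟨c, hcL⟩ : L) := fun h => hc (Submonoid.isOfFinOrder_coe.2 h)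
  refine gc_key hC hE hT hS (L := L) (V := S) hX' hadj' ?_ ?_ ?_ hc' ?_ hcm hnb
  · intro v
    let φ : MulAction.stabilizer L v →* MulAction.stabilizer G (v : V) :=
      { toFun := fun g => ⟨((g : L) : G), congrArg Subtype.val g.2⟩
        map_one' := rfl
        map_mul' := fun _ _ => rfl }
    refine hC.of_injective φ ?_ (hv v)
    intro g h hgh
    have h1 := congrArg (fun z : MulAction.stabilizer G (v : V) => (z : G)) hgh
    exact Subtype.ext (Subtype.ext h1)
  · intro a b hab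
    let φ : ↥(MulAction.stabilizer L a ⊓ MulAction.stabilizer L b) →* ↥(MulAction.stabilizer G (a : V) ⊓ MulAction.stabilizer G (b : V)) :=
      { toFun := fun g => ⟨((g : L) : G), congrArg Subtype.val g.2.1, congrArg Subtype.val g.2.2⟩
        map_one' := rfl
        map_mul' := fun _ _ => rfl }
    refine vc_of_injective φ ?_ (he a b hab)
    intro g h hgh
    have h1 := congrArg (fun z : ↥(MulAction.stabilizer G (a : V) ⊓ MulAction.stabilizer G (b : V)) => (z : G)) hgh
    exact Subtype.ext (Subtype.ext h1)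
  · intro a b hab z hz hzb
    have hza : ((z : L) : G) • (a : V) = (a : V) := congrArg Subtype.val z.2
    have hS0 := hs a b hab ⟨((z : L) : G), hza⟩
      (fun h => hz (by
        have h1 : IsOfFinOrder ((z : L) : G) :=
          (Submonoid.isOfFinOrder_coe (x := (⟨((z : L) : G), hza⟩ : MulAction.stabilizer G (a : V)))).2 h
        have h2 : IsOfFinOrder (z : L) := Submonoid.isOfFinOrder_coe.1 h1
        exact Submonoid.isOfFinOrder_coe.1 h2)) (congrArg Subtype.val hzb)
    let φ : MulAction.stabilizer L a →* MulAction.stabilizer G (a : V) :=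
      { toFun := fun g => ⟨((g : L) : G), congrArg Subtype.val g.2⟩
        map_one' := rfl
        map_mul' := fun _ _ => rfl }
    refine Shift.of_injective φ ?_ hz hS0
    intro g h hgh
    have h1 := congrArg (fun z : MulAction.stabilizer G (a : V) => (z : G)) hgh
    exact Subtype.ext (Subtype.ext h1)
  · rintro ⟨x, n, hn, hx⟩
    exact ⟨n, hn, Subtype.ext hx⟩

end Pool.Agent.H54.GC
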