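import Pool.Agent.H93.TR.Pot

/-!
# Potentials on trees
-/

set_option autoImplicit false

namespace Pool.Agent.H54.GC

theorem potential {V : Type} {X : SimpleGraph V} (hX : X.IsTree) (τ : V → V → ℚ) (hτ : ∀ a b, X.Adj a b → τ b a = - τ a b) :
    ∃ f : V → ℚ, ∀ a b, X.Adj a b → τ a b = f b - f a := by
  obtain ⟨h, hh⟩ := Pool.Agent.H93.TR.exists_potential hX (fun a b => Multiplicative.ofAdd (τ a b)) (by
    intro a b hab
    rw [← ofAdd_add, hτ a b hab, add_neg_cancel]
    rfl)
  refine ⟨fun a => Multiplicative.toAdd (h a), ?_⟩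
  intro a b hab
  have h1 := congrArg Multiplicative.toAdd (hh a b hab)
  have h2 : Multiplicative.toAdd (h b) = Multiplicative.toAdd (h a) + τ a b := h1
  show τ a b = Multiplicative.toAdd (h b) - Multiplicative.toAdd (h a)
  rw [h2]
  ring

end Pool.Agent.H54.GC
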