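import Pool.Agent.H54.GC.Gk
import Pool.Agent.H54.GC.Dir
import Pool.Agent.H75.CY.Spl
import Pool.Agent.H75.CY.Glu
import Pool.Agent.H75.CY.Tz
import Pool.Agent.H75.CY.Mem

/-!
# Commensurators of split elements, with a weaker condition on the edge stabilisers

`com_split2` is `Pool.Agent.H75.CY.com_split` where only the stabilisers of edges in the commensurator of `z` have to be virtually
cyclic.

`com_split`: by `Pool.Agent.H76.VC.of_fg` let `H` be a finitely generated subgroup of `Com z`, mapped to `G`; `K = H ⊔ zpowers z`, a finitely generated subgroup of `G` contained in `Com z`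
(`z ∈ Com z`). It is enough that `C K` (`hC.of_injective`). Let `z' = ⟨z, _⟩ : K`. In the group `K`: `z'` has infinite order, `Com z' = ⊤`. Let `W` be the tree of `pow_tree` for `K` acting on `V`
(`res_onTree`), `Y = X.comap Subtype.val`. The stabilisers of its vertices are subgroups of stabilisers of `V` (`res_stab`); `EdgeVC K Y` by `hEd` (a product of the exponents, `vc_of_injective`).
`SplitIn (stabilizer K w) z'` from `hs`: map a subgroup of `K` to `G` (`Subgroup.map K.subtype`), it is finitely generated, and isomorphic to it. `exists_mod`, `norm_fg`, `cr_compact`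
(`mod_self`), `glue` for `K`, `W`, `Y`, then `mem_of_cr`.
-/

set_option autoImplicit false

namespace Pool.Agent.H54.GC

open Pool.Agent.H98.FJ Pool.Agent.H76.VC Pool.Agent.H93.TR Pool.Agent.H75.CY

/-- a split element is split over the corresponding subgroups of a subgroup which contains it -/
private theorem split_sub {G V : Type} [Group G] [MulAction G V] {K : Subgroup G} {z : G} (hzK : z ∈ K) {v : V}
    (h : SplitIn (MulAction.stabilizer G v) z) {E : Subgroup K} (hE : ∀ x ∈ E, (x : G) • v = v) :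
    SplitIn E (⟨z, hzK⟩ : K) := by
  intro H hH hHE hHC
  have h1 : H.map K.subtype ≤ MulAction.stabilizer G v := by
    rintro _ ⟨x, hx, rfl⟩
    exact hE x (hHE hx)
  have h2 : H.map K.subtype ≤ Com z := by
    rintro _ ⟨x, hx, rfl⟩
    obtain ⟨m, n, hm, hn, h3⟩ := hHC hx
    exact ⟨m, n, hm, hn, congrArg Subtype.val h3⟩
  have hfg : (H.map K.subtype).FG := by
    classical
    obtain ⟨S, hS⟩ := hH
    exact ⟨S.image K.subtype, by rw [Finset.coe_image, ← MonoidHom.map_closure, hS]⟩
  obtain ⟨D, f, hf, hj⟩ := h (H.map K.subtype) hfg h1 h2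
  let e : H →* H.map K.subtype :=
    { toFun := fun x => ⟨(x : K), ⟨(x : K), x.2, rfl⟩⟩
      map_one' := rfl
      map_mul' := fun _ _ => rfl }
  refine ⟨D.comp e, fun x => f (e x), fun x y => ?_, fun j hjH hj0 => ?_⟩
  · have h4 := hf (e x) (e y)
    rw [← map_mul] at h4
    exact h4
  · have h5 : z ^ j ∈ H.map K.subtype := ⟨(⟨z, hzK⟩ : K) ^ j, hjH, rfl⟩
    exact hj j h5 hj0

theorem com_split2 {C : (G : Type) → [Group G] → Prop} (hC : Inherits C) (hE : Extension C) (hA : AcylExt C)
    (hS : ∀ (G : Type) [Group G], Group.IsSolvable G → C G) {G V : Type} [Group G] [MulAction G V]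
    {X : SimpleGraph V} (hX : OnTree G X) (hv : ∀ v : V, C (MulAction.stabilizer G v)) {z : G}
    (hz : ¬ IsOfFinOrder z) {v0 : V} (h0 : z • v0 = v0)
    (hEd : ∀ v w : V, X.Adj v w → (∃ k : ℤ, k ≠ 0 ∧ z ^ k • v = v ∧ z ^ k • w = w) →
      VirtuallyCyclic (Com z ⊓ (MulAction.stabilizer G v ⊓ MulAction.stabilizer G w) : Subgroup G))
    (hs : ∀ v : V, (∃ k : ℤ, k ≠ 0 ∧ z ^ k • v = v) → SplitIn (MulAction.stabilizer G v) z) : C (Com z) := by
  have hzK : z ∈ Com z := ⟨1, 1, one_ne_zero, one_ne_zero, by group⟩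
  have hz' : ¬ IsOfFinOrder (⟨z, hzK⟩ : Com z) := not_fin_sub (z := (⟨z, hzK⟩ : Com z)) hz
  have hc : ∀ g : Com z, g ∈ Com (⟨z, hzK⟩ : Com z) := by
    rintro ⟨g, m, n, hm, hn, h1⟩
    exact ⟨m, n, hm, hn, Subtype.ext h1⟩
  have hXK : OnTree (Com z) X := res_onTree hX (Com z)
  obtain ⟨W, hW, hY⟩ := pow_tree hXK hc v0 h0
  have hWp : ∀ w : W, ∃ k : ℤ, k ≠ 0 ∧ z ^ k • (w : V) = w := fun w => by
    obtain ⟨k, hk, h1⟩ := (hW w).1 w.2
    exact ⟨k, hk, h1⟩
  have hfix : ∀ w : W, ∃ k : ℤ, k ≠ 0 ∧ (⟨z, hzK⟩ : Com z) ^ k • w = w := fun w => by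
    obtain ⟨k, hk, h1⟩ := (hW w).1 w.2
    exact ⟨k, hk, Subtype.ext h1⟩
  have hval : ∀ (g : Com z) (w : W), g • w = w → (g : G) • (w : V) = w := fun g w h =>
    congrArg (fun x : W => (x : V)) h
  have hvW : ∀ w : W, C (MulAction.stabilizer (Com z) w) := by
    intro w
    refine hC.of_injective (H := MulAction.stabilizer (Com z) (w : V))
      { toFun := fun x => ⟨x.1, hval _ _ x.2⟩
        map_one' := rfl
        map_mul' := fun _ _ => rfl } ?_ (res_stab hC hv (Com z) (w : V))
    intro a b hab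
    exact Subtype.ext (congrArg (fun y : MulAction.stabilizer (Com z) (w : V) => (y : Com z)) hab)
  have hEW : EdgeVC (Com z) (X.comap (fun w : W => (w : V))) := by
    intro v w h
    obtain ⟨k, hk, h1⟩ := hWp v
    obtain ⟨l, hl, h2⟩ := hWp w
    have h3 : z ^ (k * l) • (v : V) = v := by
      rw [zpow_mul]
      exact zpow_fix h1 l
    have h4 : z ^ (k * l) • (w : V) = w := by
      rw [mul_comm, zpow_mul]
      exact zpow_fix h2 k
    let ψ : (MulAction.stabilizer (Com z) v ⊓ MulAction.stabilizer (Com z) w : Subgroup (Com z)) →*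
        (Com z ⊓ (MulAction.stabilizer G (v : V) ⊓ MulAction.stabilizer G (w : V)) : Subgroup G) :=
      { toFun := fun h => ⟨(h.1 : G), (h.1).2, hval _ _ h.2.1, hval _ _ h.2.2⟩
        map_one' := rfl
        map_mul' := fun _ _ => rfl }
    refine vc_of_injective ψ ?_ (hEd v w h ⟨k * l, mul_ne_zero hk hl, h3, h4⟩)
    intro a b hab
    have h5 : ((a.1 : Com z) : G) = b.1 := congrArg (fun y : (Com z ⊓ (MulAction.stabilizer G (v : V) ⊓
      MulAction.stabilizer G (w : V)) : Subgroup G) => (y : G)) hab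
    exact Subtype.ext (Subtype.ext h5)
  obtain ⟨D, hD⟩ := exists_mod hz' hc
  have hDz : D (⟨z, hzK⟩ : Com z) = 1 := by
    have h1 := mod_self hD 1
    rwa [zpow_one] at h1
  have hcr : ∀ w : W, ∃ f : Com z → ℚ, Cr D (⟨z, hzK⟩ : Com z) (MulAction.stabilizer (Com z) w) f := fun w =>
    cr_compact hDz fun H hH hHE =>
      norm_fg hz' hc hD (split_sub hzK (hs w (hWp w)) fun x hx => hval x w hx) hH hHE
  obtain ⟨f, hf⟩ := Pool.Agent.H75.CY.glue hY hEW hz' hc hD hfix hcr
  exact mem_of_cr hC hE hA hS hY hvW hEW hz' hfix hf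

/-- closure under actions on trees: if the commensurators of the elements of infinite order have virtually cyclic edge stabilisers and
the elements of infinite order of the vertex stabilisers are split then all elements of infinite order are split -/
theorem split_tree {G V : Type} [Group G] [MulAction G V] {X : SimpleGraph V} (hX : X.IsTree)
    (hadj : ∀ (g : G) (a b : V), X.Adj a b → X.Adj (g • a) (g • b))
    (hE : ∀ z : G, ¬ IsOfFinOrder z → ∀ v w : V, X.Adj v w → z • v = v → z • w = w →
      VirtuallyCyclic ↥(Subgroup.Commensurable.commensurator (Subgroup.zpowers z) ⊓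
        (MulAction.stabilizer G v ⊓ MulAction.stabilizer G w)))
    (hs : ∀ (v : V) (z : G), ¬ IsOfFinOrder z → z • v = v → SplitIn (MulAction.stabilizer G v) z) :
    ∀ z : G, ¬ IsOfFinOrder z → SplitIn (⊤ : Subgroup G) z := by
  intro z hz
  refine (shift_iff_split hz).1 (allShift_tree2 hX hadj hE ?_ z hz)
  intro v c hc
  have hc' : ¬ IsOfFinOrder (c : G) := fun h => hc (Submonoid.isOfFinOrder_coe.1 h)
  exact shift_of_split hc (split_sub (K := MulAction.stabilizer G v) c.2 (v := v) (hs v c hc' c.2) (E := ⊤) (fun x _ => x.2))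

end Pool.Agent.H54.GC
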